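import Pool.Agent.MPff6db8.Qnorm

/-! MP_ff6db8_an (frozen S06854). The space. -/

set_option autoImplicit false

namespace Pool.Agent.MPff6db8

open Finset

/-- The space of finitely supported functions, with the seminorm `q`. -/
def QSp (_P : Par) : Type := Nd →₀ ℝ

noncomputable instance (P : Par) : AddCommGroup (QSp P) :=
  inferInstanceAs (AddCommGroup (Nd →₀ ℝ))

noncomputable instance (P : Par) : Module ℝ (QSp P) :=
  inferInstanceAs (Module ℝ (Nd →₀ ℝ))

/-- the seminorm as a group seminorm -/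
noncomputable def QSp.semi (P : Par) : AddGroupSeminorm (QSp P) where
  toFun := P.q
  map_zero' := P.q_zero
  add_le' := P.q_add_le
  neg' x := by
    have h : P.q ((-1 : ℝ) • (show Nd →₀ ℝ from x)) = P.q x := by
      rw [P.q_smul]; simp
    rw [neg_one_smul] at h
    exact h

noncomputable instance (P : Par) : SeminormedAddCommGroup (QSp P) :=
  (QSp.semi P).toSeminormedAddCommGroup

noncomputable instance (P : Par) : NormedSpace ℝ (QSp P) where
  norm_smul_le a x := (P.q_smul a x).le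

private lemma QSp.norm_def {P : Par} (x : QSp P) : ‖x‖ = P.q x := rfl

instance (P : Par) : TopologicalSpace.SeparableSpace (QSp P) := by
  rw [← TopologicalSpace.isSeparable_univ_iff]
  let s : Set (QSp P) := Set.range (fun ν : Nd => (Finsupp.single ν (1 : ℝ) : Nd →₀ ℝ))
  have hs : TopologicalSpace.IsSeparable s := (Set.countable_range _).isSeparable
  have h := hs.span (R := ℝ)
  refine h.mono ?_
  intro x _
  change x ∈ Submodule.span ℝ s
  have key : ∀ y : Nd →₀ ℝ, (show QSp P from y) ∈ Submodule.span ℝ s := by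
    intro y
    induction y using Finsupp.induction_linear with
    | zero => exact Submodule.zero_mem _
    | add f g hf hg => exact Submodule.add_mem _ hf hg
    | single ν a =>
      have h1 : (show QSp P from Finsupp.single ν a)
          = a • (show QSp P from (Finsupp.single ν (1 : ℝ) : Nd →₀ ℝ)) := by
        change (Finsupp.single ν a : Nd →₀ ℝ) = a • (Finsupp.single ν (1 : ℝ) : Nd →₀ ℝ)
        rw [Finsupp.smul_single, smul_eq_mul, mul_one]
      rw [h1]
      exact Submodule.smul_mem _ _ (Submodule.subset_span ⟨ν, rfl⟩)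
  exact key x

theorem exists_space (P : Par) :
    ∃ (X : Type) (_ : NormedAddCommGroup X) (_ : NormedSpace ℝ X) (_ : CompleteSpace X)
      (_ : TopologicalSpace.SeparableSpace X) (ι : (Nd →₀ ℝ) →ₗ[ℝ] X),
      DenseRange ι ∧ ∀ x, ‖ι x‖ = P.q x := by
  refine ⟨UniformSpace.Completion (QSp P), inferInstance, inferInstance, inferInstance,
    inferInstance, ((UniformSpace.Completion.toComplL (𝕜 := ℝ) (E := QSp P)) :
      QSp P →ₗ[ℝ] UniformSpace.Completion (QSp P)), ?_, ?_⟩
  · exact UniformSpace.Completion.denseRange_coe (α := QSp P)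
  · intro x
    exact UniformSpace.Completion.norm_coe (E := QSp P) x

theorem extend_fun {P : Par} {X : Type} [NormedAddCommGroup X] [NormedSpace ℝ X] [CompleteSpace X]
    (ι : (Nd →₀ ℝ) →ₗ[ℝ] X) (hd : DenseRange ι) (hι : ∀ x, ‖ι x‖ = P.q x)
    (ℓ : (Nd →₀ ℝ) →ₗ[ℝ] ℝ) (C : ℝ) (hC : 0 ≤ C) (hℓ : ∀ x, |ℓ x| ≤ C * P.q x) :
    ∃ L : X →L[ℝ] ℝ, (∀ x, L (ι x) = ℓ x) ∧ ‖L‖ ≤ C := by
  have hn : ∀ x, ‖ℓ x‖ ≤ C * ‖ι x‖ := by
    intro x
    rw [Real.norm_eq_abs, hι]
    exact hℓ x
  exact ⟨LinearMap.extendOfNorm ℓ ι, fun x => LinearMap.extendOfNorm_eq hd ⟨C, hn⟩ x,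
    LinearMap.opNorm_extendOfNorm_le hd hC hn⟩

end Pool.Agent.MPff6db8
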