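import Pool.Agent.MPff6db8.PC
import Pool.Agent.MPff6db8.Space

/-! MP_ff6db8_an (frozen S06854). The dual has the C*PCP. -/

set_option autoImplicit false

namespace Pool.Agent.MPff6db8

open Finset

theorem wt_ne_zero_of_val {P : Par} {ν : Nd} (h : P.Val ν) : P.wt ν ≠ 0 := by
  unfold Par.wt
  rw [if_pos h]
  unfold Par.pk
  apply ne_of_gt
  apply Finset.prod_pos
  intro m _
  have := P.r_pos m
  have h2 : (0 : ℝ) < P.r m := by exact_mod_cast this
  positivity

/-- the function on the tree which represents a functional -/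
noncomputable def TT {P : Par} {X : Type} [NormedAddCommGroup X] [NormedSpace ℝ X]
    (ι : (Nd →₀ ℝ) →ₗ[ℝ] X) (φ : X →L[ℝ] ℝ) (ν : Nd) : ℝ :=
  if P.Val ν then φ (ι (Finsupp.single ν 1)) / P.wt ν else 0

theorem TT_pair {P : Par} {X : Type} [NormedAddCommGroup X] [NormedSpace ℝ X]
    (ι : (Nd →₀ ℝ) →ₗ[ℝ] X) (hι : ∀ x, ‖ι x‖ = P.q x) (φ : X →L[ℝ] ℝ) (x : Nd →₀ ℝ) :
    P.pair (TT (P := P) ι φ) x = φ (ι x) := by
  induction x using Finsupp.induction_linear with
  | zero => simp [Par.pair]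
  | add x y hx hy => rw [Par.pair_add, hx, hy, map_add, map_add]
  | single ν t =>
    rw [Par.pair_single]
    have h1 : ι (Finsupp.single ν t) = t • ι (Finsupp.single ν 1) := by
      rw [← map_smul]
      congr 1
      simp
    rw [h1, map_smul, smul_eq_mul]
    by_cases h : P.Val ν
    · have h2 := wt_ne_zero_of_val h
      unfold TT
      rw [if_pos h]
      field_simp
    · have h3 : ι (Finsupp.single ν 1) = 0 := by
        rw [← norm_eq_zero, hι]
        apply Par.q_eq_zero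
        intro μ hμ
        rw [Finsupp.single_apply, if_neg]
        rintro rfl
        exact h hμ
      rw [h3, map_zero, mul_zero]
      unfold TT
      rw [if_neg h]
      ring

theorem TT_continuous {P : Par} {X : Type} [NormedAddCommGroup X] [NormedSpace ℝ X]
    (ι : (Nd →₀ ℝ) →ₗ[ℝ] X) :
    @Continuous (X →L[ℝ] ℝ) (Nd → ℝ)
      (TopologicalSpace.induced (fun (φ : X →L[ℝ] ℝ) (x : X) => φ x) inferInstance) inferInstance
      (fun φ => TT (P := P) ι φ) := by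
  refine @continuous_pi _ _ _
    (TopologicalSpace.induced (fun (φ : X →L[ℝ] ℝ) (x : X) => φ x) inferInstance) _ _ ?_
  intro ν
  unfold TT
  by_cases h : P.Val ν
  · simp only [if_pos h]
    have h1 : Continuous (fun g : X → ℝ => g (ι (Finsupp.single ν 1)) / P.wt ν) :=
      (continuous_apply _).div_const _
    exact @Continuous.comp (X →L[ℝ] ℝ) (X → ℝ) ℝ
      (TopologicalSpace.induced (fun (φ : X →L[ℝ] ℝ) (x : X) => φ x) inferInstance) _ _ _ _
      h1 continuous_induced_dom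
  · simp only [if_neg h]
    exact @continuous_const (X →L[ℝ] ℝ) ℝ
      (TopologicalSpace.induced (fun (φ : X →L[ℝ] ℝ) (x : X) => φ x) inferInstance) _ _

theorem TT_combo {P : Par} {X : Type} [NormedAddCommGroup X] [NormedSpace ℝ X]
    (ι : (Nd →₀ ℝ) →ₗ[ℝ] X) (a b : ℝ) (φ ψ : X →L[ℝ] ℝ) :
    TT (P := P) ι (a • φ + b • ψ) = a • TT (P := P) ι φ + b • TT (P := P) ι ψ := by
  funext ν
  simp only [TT, Pi.add_apply, Pi.smul_apply, smul_eq_mul]
  by_cases h : P.Val ν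
  · rw [if_pos h, if_pos h, if_pos h]
    simp only [ContinuousLinearMap.add_apply, ContinuousLinearMap.smul_apply, smul_eq_mul]
    ring
  · rw [if_neg h, if_neg h, if_neg h]
    ring

/-- package I2 (file DualPC.lean): the dual has the C*PCP -/
theorem dual_pc {P : Par} {X : Type} [NormedAddCommGroup X] [NormedSpace ℝ X] [CompleteSpace X]
    (ι : (Nd →₀ ℝ) →ₗ[ℝ] X) (hd : DenseRange ι) (hι : ∀ x, ‖ι x‖ = P.q x) :
    ∀ C : Set (X →L[ℝ] ℝ), C.Nonempty → Convex ℝ C →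
        @IsCompact (X →L[ℝ] ℝ)
          (TopologicalSpace.induced (fun (φ : X →L[ℝ] ℝ) (x : X) => φ x) inferInstance) C →
        ∃ φ ∈ C, ∀ ε : ℝ, 0 < ε → ∃ U : Set (X →L[ℝ] ℝ),
          @IsOpen (X →L[ℝ] ℝ)
            (TopologicalSpace.induced (fun (φ : X →L[ℝ] ℝ) (x : X) => φ x) inferInstance) U ∧
          φ ∈ U ∧ ∀ ψ ∈ U ∩ C, ‖ψ - φ‖ < ε := by
  intro C hne hconv hcomp
  -- `C` is bounded
  have hbdd : ∃ M, ∀ φ : C, ‖(φ : X →L[ℝ] ℝ)‖ ≤ M := by
    apply banach_steinhaus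
    intro x
    have h1 : @Continuous (X →L[ℝ] ℝ) ℝ
        (TopologicalSpace.induced (fun (φ : X →L[ℝ] ℝ) (x : X) => φ x) inferInstance) _
        (fun φ => φ x) :=
      @Continuous.comp (X →L[ℝ] ℝ) (X → ℝ) ℝ
        (TopologicalSpace.induced (fun (φ : X →L[ℝ] ℝ) (x : X) => φ x) inferInstance) _ _
        _ (fun g => g x) (continuous_apply x) continuous_induced_dom
    have h2 : IsCompact ((fun φ : X →L[ℝ] ℝ => φ x) '' C) :=
      @IsCompact.image (X →L[ℝ] ℝ) ℝ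
        (TopologicalSpace.induced (fun (φ : X →L[ℝ] ℝ) (x : X) => φ x) inferInstance) _ _ _
        hcomp h1
    obtain ⟨M, hM⟩ := h2.isBounded.exists_norm_le
    exact ⟨M, fun φ => hM _ ⟨φ, φ.2, rfl⟩⟩
  obtain ⟨M, hM⟩ := hbdd
  have hTc : IsCompact ((fun φ => TT (P := P) ι φ) '' C) :=
    @IsCompact.image (X →L[ℝ] ℝ) (Nd → ℝ)
      (TopologicalSpace.induced (fun (φ : X →L[ℝ] ℝ) (x : X) => φ x) inferInstance) _ _ _
      hcomp (TT_continuous (P := P) ι)
  have hTconv : Convex ℝ ((fun φ => TT (P := P) ι φ) '' C) := by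
    rintro _ ⟨φ, hφ, rfl⟩ _ ⟨ψ, hψ, rfl⟩ a b ha hb hab
    refine ⟨a • φ + b • ψ, hconv hφ hψ ha hb hab, ?_⟩
    exact TT_combo ι a b φ ψ
  have hb : ∀ y ∈ ((fun φ => TT (P := P) ι φ) '' C), ∀ x, P.pair y x ≤ max 1 M * P.q x := by
    rintro _ ⟨φ, hφ, rfl⟩ x
    simp only
    rw [TT_pair ι hι φ x]
    calc φ (ι x) ≤ ‖φ (ι x)‖ := le_abs_self _
      _ ≤ ‖φ‖ * ‖ι x‖ := φ.le_opNorm _
      _ ≤ max 1 M * P.q x := by
        rw [hι]
        exact mul_le_mul_of_nonneg_right ((hM ⟨φ, hφ⟩).trans (le_max_right _ _))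
          (Par.q_nonneg P x)
  obtain ⟨y, hy, hpc⟩ := P.pc (max 1 M) (le_max_left _ _) _ (hne.image _) hTc hTconv hb
  obtain ⟨φ, hφ, rfl⟩ := hy
  refine ⟨φ, hφ, fun ε hε => ?_⟩
  obtain ⟨U, hU, hφU, hosc⟩ := hpc (ε / 2) (by positivity)
  refine ⟨(fun φ => TT (P := P) ι φ) ⁻¹' U, ?_, hφU, ?_⟩
  · exact @Continuous.isOpen_preimage (X →L[ℝ] ℝ) (Nd → ℝ)
      (TopologicalSpace.induced (fun (φ : X →L[ℝ] ℝ) (x : X) => φ x) inferInstance) _ _
      (TT_continuous (P := P) ι) _ hU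
  · rintro ψ ⟨hψU, hψC⟩
    have h1 : ∀ x, |(ψ - φ) (ι x)| ≤ ε / 2 * ‖ι x‖ := by
      intro x
      have := hosc _ ⟨hψU, ψ, hψC, rfl⟩ x
      simp only at this
      rw [TT_pair ι hι ψ x, TT_pair ι hι φ x] at this
      rw [hι]
      simpa using this
    have h2 : ‖ψ - φ‖ ≤ ε / 2 := by
      refine ContinuousLinearMap.opNorm_le_bound _ (by positivity) ?_
      intro v
      refine hd.induction_on v ?_ ?_
      · exact isClosed_le ((ψ - φ).continuous.norm) (continuous_const.mul continuous_norm)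
      · intro x
        exact h1 x
    linarith

end Pool.Agent.MPff6db8
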