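import Mathlib

/-! MP_ff6db8_an (frozen S06854). Baire category with ambient sets. -/

set_option autoImplicit false

namespace Pool.Agent.MPff6db8

open Finset

/-- Baire category in a compact set, with ambient open and closed sets. -/
theorem baire_closed {E : Type*} [TopologicalSpace E] [T2Space E] (K : Set E) (hK : IsCompact K)
    (F : ℕ → Set E) (hF : ∀ n, IsClosed (F n)) (U : Set E) (hU : IsOpen U)
    (hne : (U ∩ K).Nonempty) (hcov : U ∩ K ⊆ ⋃ n, F n) :
    ∃ n, ∃ V, IsOpen V ∧ V ⊆ U ∧ (V ∩ K).Nonempty ∧ V ∩ K ⊆ F n := by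
  have : CompactSpace K := isCompact_iff_compactSpace.1 hK
  let c : K → E := Subtype.val
  have hc : Continuous c := continuous_subtype_val
  let G : Option ℕ → Set K := fun o => match o with
    | none => (c ⁻¹' U)ᶜ
    | some n => c ⁻¹' (F n)
  have hGc : ∀ o, IsClosed (G o) := by
    intro o
    cases o with
    | none => exact (hU.preimage hc).isClosed_compl
    | some n => exact (hF n).preimage hc
  have hGU : (⋃ o, G o) = Set.univ := by
    rw [Set.eq_univ_iff_forall]
    intro x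
    by_cases hx : c x ∈ U
    · obtain ⟨n, hn⟩ := Set.mem_iUnion.1 (hcov ⟨hx, x.2⟩)
      exact Set.mem_iUnion.2 ⟨some n, hn⟩
    · exact Set.mem_iUnion.2 ⟨none, hx⟩
  have hd := dense_iUnion_interior_of_closed hGc hGU
  obtain ⟨x0, hx0U, hx0K⟩ := hne
  have hne' : (c ⁻¹' U).Nonempty := ⟨⟨x0, hx0K⟩, hx0U⟩
  obtain ⟨x, hxU, hxI⟩ := hd.inter_open_nonempty (c ⁻¹' U) (hU.preimage hc) hne'
  obtain ⟨o, ho⟩ := Set.mem_iUnion.1 hxI
  cases o with
  | none => exact absurd hxU (interior_subset ho)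
  | some n =>
    obtain ⟨V, hV, hVe⟩ := isOpen_induced_iff.1 (isOpen_interior (s := G (some n)))
    refine ⟨n, V ∩ U, hV.inter hU, Set.inter_subset_right, ⟨x, ⟨?_, hxU⟩, x.2⟩, ?_⟩
    · have h1 : x ∈ c ⁻¹' V := by
        show x ∈ Subtype.val ⁻¹' V
        rw [hVe]; exact ho
      exact h1
    · rintro y ⟨⟨hyV, _⟩, hyK⟩
      have h1 : (⟨y, hyK⟩ : K) ∈ (Subtype.val ⁻¹' V : Set K) := hyV
      rw [hVe] at h1
      have h2 : (⟨y, hyK⟩ : K) ∈ G (some n) := interior_subset h1
      exact h2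

end Pool.Agent.MPff6db8
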