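import Pool.Agent.MPff6db8.Defs

/-! MP_ff6db8_an (frozen S06854). Levels, weights, level norms. -/

set_option autoImplicit false

namespace Pool.Agent.MPff6db8

open Finset

namespace Par

variable (P : Par)

theorem length_of_mem_Col {k : ℕ} {c : List ℕ} (h : c ∈ P.Col k) : c.length = k := by
  induction k generalizing c with
  | zero => simp [Col] at h; simp [h]
  | succ k ih =>
    simp only [Col, mem_image, mem_product, Prod.exists] at h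
    obtain ⟨i, c', ⟨_, hc⟩, rfl⟩ := h
    simp [ih hc]

theorem length_of_mem_His {k : ℕ} {s : List ℕ} (h : s ∈ P.His k) : s.length = k := by
  induction k generalizing s with
  | zero => simp [His] at h; simp [h]
  | succ k ih =>
    simp only [His, mem_image, mem_product, Prod.exists] at h
    obtain ⟨i, c', ⟨_, hc⟩, rfl⟩ := h
    simp [ih hc]

theorem mem_Col_succ {k i : ℕ} {c : List ℕ} : i :: c ∈ P.Col (k + 1) ↔ i < P.r k ∧ c ∈ P.Col k := by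
  simp only [Col, mem_image, mem_product, Prod.exists, mem_range, List.cons.injEq]
  constructor
  · rintro ⟨a, b, h, rfl, rfl⟩
    exact h
  · intro h
    exact ⟨i, c, h, rfl, rfl⟩

theorem mem_His_succ {k j : ℕ} {s : List ℕ} : j :: s ∈ P.His (k + 1) ↔ j < P.n k ∧ s ∈ P.His k := by
  simp only [His, mem_image, mem_product, Prod.exists, mem_range, List.cons.injEq]
  constructor
  · rintro ⟨a, b, h, rfl, rfl⟩
    exact h
  · intro h
    exact ⟨j, s, h, rfl, rfl⟩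

theorem mem_Lev {k : ℕ} {ν : Nd} : ν ∈ P.Lev k ↔ ν.1 ∈ P.Col k ∧ ν.2 ∈ P.His k := by
  simp [Lev, mem_product]

theorem mem_Lev_iff {k : ℕ} {ν : Nd} : ν ∈ P.Lev k ↔ P.Val ν ∧ ν.1.length = k := by
  constructor
  · intro h
    have h1 := P.length_of_mem_Col ((P.mem_Lev.1 h).1)
    refine ⟨?_, h1⟩
    unfold Val
    rw [h1]
    exact h
  · rintro ⟨h, rfl⟩
    exact h

theorem mem_Lev_child {k i j : ℕ} {ν : Nd} :
    ((i :: ν.1, j :: ν.2) : Nd) ∈ P.Lev (k + 1) ↔ i < P.r k ∧ j < P.n k ∧ ν ∈ P.Lev k := by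
  rw [mem_Lev, mem_Lev]
  simp only [mem_Col_succ, mem_His_succ]
  tauto

theorem pk_pos (k : ℕ) : 0 < P.pk k := by
  unfold pk
  refine prod_pos fun m _ => ?_
  have := P.r_pos m
  positivity

theorem pk_succ (k : ℕ) : P.pk (k + 1) = P.pk k * (1 / (P.r k : ℝ)) := by
  unfold pk
  rw [prod_range_succ]

theorem pk_le_one (k : ℕ) : P.pk k ≤ 1 := by
  unfold pk
  refine prod_le_one (fun m _ => by positivity) fun m _ => ?_
  have : (1 : ℝ) ≤ P.r m := by exact_mod_cast P.r_pos m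
  rw [div_le_one (by linarith)]
  exact this

theorem wt_of_mem {k : ℕ} {ν : Nd} (h : ν ∈ P.Lev k) : P.wt ν = P.pk k := by
  obtain ⟨h1, h2⟩ := P.mem_Lev_iff.1 h
  unfold wt
  rw [if_pos h1, h2]

theorem sum_Lev_eq (k : ℕ) (f : Nd → ℝ) :
    ∑ ν ∈ P.Lev k, f ν = ∑ c ∈ P.Col k, ∑ s ∈ P.His k, f (c, s) := by
  unfold Lev
  rw [sum_product]

theorem sum_Col_succ (k : ℕ) (f : List ℕ → ℝ) :
    ∑ c ∈ P.Col (k + 1), f c = ∑ c ∈ P.Col k, ∑ i ∈ range (P.r k), f (i :: c) := by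
  rw [Col, sum_image, sum_product, sum_comm]
  rintro ⟨a, b⟩ _ ⟨a', b'⟩ _ h
  simp only [List.cons.injEq] at h
  exact Prod.ext h.1 h.2

theorem sum_His_succ (k : ℕ) (f : List ℕ → ℝ) :
    ∑ s ∈ P.His (k + 1), f s = ∑ s ∈ P.His k, ∑ j ∈ range (P.n k), f (j :: s) := by
  rw [His, sum_image, sum_product, sum_comm]
  rintro ⟨a, b⟩ _ ⟨a', b'⟩ _ h
  simp only [List.cons.injEq] at h
  exact Prod.ext h.1 h.2

theorem sum_Lev_succ (k : ℕ) (f : Nd → ℝ) :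
    ∑ ν ∈ P.Lev (k + 1), f ν =
      ∑ ν ∈ P.Lev k, ∑ i ∈ range (P.r k), ∑ j ∈ range (P.n k), f (i :: ν.1, j :: ν.2) := by
  rw [sum_Lev_eq, sum_Lev_eq, sum_Col_succ]
  refine sum_congr rfl fun c _ => ?_
  simp only [sum_His_succ]
  rw [sum_comm]

theorem lv_succ (k : ℕ) (f : Nd → ℝ) :
    P.lv (k + 1) f = P.lv k (fun ν => (1 / (P.r k : ℝ)) *
      ∑ i ∈ range (P.r k), ∑ j ∈ range (P.n k), f (i :: ν.1, j :: ν.2)) := by
  unfold lv
  rw [sum_Lev_succ, pk_succ, ← mul_sum]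
  ring

theorem lv_zero (f : Nd → ℝ) : P.lv 0 f = f ([], []) := by
  unfold lv
  simp [pk, Lev, Col, His]

theorem lv_mono {k : ℕ} {f g : Nd → ℝ} (h : ∀ ν ∈ P.Lev k, f ν ≤ g ν) : P.lv k f ≤ P.lv k g := by
  unfold lv
  exact mul_le_mul_of_nonneg_left (sum_le_sum h) (P.pk_pos k).le

theorem lv_congr {k : ℕ} {f g : Nd → ℝ} (h : ∀ ν ∈ P.Lev k, f ν = g ν) : P.lv k f = P.lv k g := by
  unfold lv
  rw [sum_congr rfl h]

theorem lv_nonneg {k : ℕ} {f : Nd → ℝ} (h : ∀ ν ∈ P.Lev k, 0 ≤ f ν) : 0 ≤ P.lv k f := by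
  unfold lv
  exact mul_nonneg (P.pk_pos k).le (sum_nonneg h)

theorem lv_add (k : ℕ) (f g : Nd → ℝ) : P.lv k (fun ν => f ν + g ν) = P.lv k f + P.lv k g := by
  unfold lv
  rw [sum_add_distrib]
  ring

theorem lv_sub (k : ℕ) (f g : Nd → ℝ) : P.lv k (fun ν => f ν - g ν) = P.lv k f - P.lv k g := by
  unfold lv
  rw [sum_sub_distrib]
  ring

theorem lv_mul (k : ℕ) (a : ℝ) (f : Nd → ℝ) : P.lv k (fun ν => a * f ν) = a * P.lv k f := by
  unfold lv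
  rw [← mul_sum]
  ring

theorem abs_lv_le (k : ℕ) (f : Nd → ℝ) : |P.lv k f| ≤ P.lv k (fun ν => |f ν|) := by
  unfold lv
  rw [abs_mul, abs_of_pos (P.pk_pos k)]
  exact mul_le_mul_of_nonneg_left (abs_sum_le_sum_abs _ _) (P.pk_pos k).le

theorem nrm_nonneg (k : ℕ) (f : Nd → ℝ) : 0 ≤ P.nrm k f := Real.sqrt_nonneg _

theorem nrm_sq (k : ℕ) (f : Nd → ℝ) : P.nrm k f ^ 2 = P.lv k (fun ν => f ν ^ 2) := by
  unfold nrm
  rw [Real.sq_sqrt]
  exact P.lv_nonneg fun ν _ => sq_nonneg _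

theorem lv_mul_le (k : ℕ) (f g : Nd → ℝ) : P.lv k (fun ν => f ν * g ν) ≤ P.nrm k f * P.nrm k g := by
  have h0 : 0 ≤ P.nrm k f * P.nrm k g := mul_nonneg (P.nrm_nonneg _ _) (P.nrm_nonneg _ _)
  refine le_of_sq_le_sq ?_ h0 |> fun h => h
  rw [mul_pow, nrm_sq, nrm_sq]
  unfold lv
  have h := Finset.sum_mul_sq_le_sq_mul_sq (P.Lev k) f g
  have hp := P.pk_pos k
  calc (P.pk k * ∑ ν ∈ P.Lev k, f ν * g ν) ^ 2 = P.pk k ^ 2 * (∑ ν ∈ P.Lev k, f ν * g ν) ^ 2 := by ring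
    _ ≤ P.pk k ^ 2 * ((∑ ν ∈ P.Lev k, f ν ^ 2) * ∑ ν ∈ P.Lev k, g ν ^ 2) :=
        mul_le_mul_of_nonneg_left h (by positivity)
    _ = _ := by ring

theorem nrm_le_iff {k : ℕ} {f : Nd → ℝ} {a : ℝ} (ha : 0 ≤ a) :
    P.nrm k f ≤ a ↔ P.lv k (fun ν => f ν ^ 2) ≤ a ^ 2 := by
  unfold nrm
  rw [Real.sqrt_le_left ha]

theorem nrm_congr {k : ℕ} {f g : Nd → ℝ} (h : ∀ ν ∈ P.Lev k, f ν = g ν) : P.nrm k f = P.nrm k g := by
  unfold nrm
  rw [P.lv_congr fun ν hν => by rw [h ν hν]]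

theorem nrm_mono {k : ℕ} {f g : Nd → ℝ} (h : ∀ ν ∈ P.Lev k, |f ν| ≤ |g ν|) :
    P.nrm k f ≤ P.nrm k g := by
  unfold nrm
  refine Real.sqrt_le_sqrt (P.lv_mono fun ν hν => ?_)
  exact sq_le_sq.2 (h ν hν)

theorem nrm_add_le (k : ℕ) (f g : Nd → ℝ) :
    P.nrm k (fun ν => f ν + g ν) ≤ P.nrm k f + P.nrm k g := by
  rw [P.nrm_le_iff (add_nonneg (P.nrm_nonneg _ _) (P.nrm_nonneg _ _))]
  have h1 : P.lv k (fun ν => (f ν + g ν) ^ 2) =
      P.lv k (fun ν => f ν ^ 2) + 2 * P.lv k (fun ν => f ν * g ν) + P.lv k (fun ν => g ν ^ 2) := by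
    rw [← lv_mul, ← lv_add, ← lv_add]
    refine P.lv_congr fun ν _ => ?_
    ring
  rw [h1, ← nrm_sq, ← nrm_sq]
  have := P.lv_mul_le k f g
  nlinarith

theorem nrm_mul (k : ℕ) (a : ℝ) (f : Nd → ℝ) :
    P.nrm k (fun ν => a * f ν) = |a| * P.nrm k f := by
  unfold nrm
  rw [← Real.sqrt_sq_eq_abs, ← Real.sqrt_mul (sq_nonneg a), ← lv_mul]
  congr 1
  refine P.lv_congr fun ν _ => ?_
  ring

theorem nrm_sub_le (k : ℕ) (f g : Nd → ℝ) :
    P.nrm k (fun ν => f ν - g ν) ≤ P.nrm k f + P.nrm k g := by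
  have h := P.nrm_add_le k f (fun ν => (-1) * g ν)
  rw [nrm_mul] at h
  simp only [abs_neg, abs_one, one_mul] at h
  refine le_trans (le_of_eq ?_) h
  refine P.nrm_congr fun ν _ => ?_
  ring

theorem nrm_zero (k : ℕ) : P.nrm k (fun _ => 0) = 0 := by
  unfold nrm lv
  simp

theorem abs_le_nrm {k : ℕ} (f : Nd → ℝ) {ν : Nd} (h : ν ∈ P.Lev k) :
    P.pk k * f ν ^ 2 ≤ P.nrm k f ^ 2 := by
  rw [nrm_sq]
  unfold lv
  refine mul_le_mul_of_nonneg_left ?_ (P.pk_pos k).le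
  exact single_le_sum (f := fun ν => f ν ^ 2) (fun μ _ => sq_nonneg _) h

theorem continuous_lv (k : ℕ) : Continuous (fun f : Nd → ℝ => P.lv k f) := by
  unfold lv
  fun_prop

theorem continuous_nrm (k : ℕ) : Continuous (fun f : Nd → ℝ => P.nrm k f) := by
  unfold nrm
  refine Real.continuous_sqrt.comp ?_
  unfold lv
  fun_prop

end Par

end Pool.Agent.MPff6db8
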