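import Pool.Agent.MPff6db8.Flow

/-! MP_ff6db8_an (frozen S06854). Compactness of the set of flows; closedness of the set of liftable functions. -/

set_option autoImplicit false

namespace Pool.Agent.MPff6db8

open Finset

namespace Par

variable (P : Par)

theorem continuous_tot (k : ℕ) :
    Continuous (fun u : (Nd → ℝ) × (Nd → ℝ) => P.tot k u.1 u.2) := by
  unfold tot
  have h1 : Continuous (fun u : (Nd → ℝ) × (Nd → ℝ) => fun ν : Nd => (u.1 ν + u.2 ν) ^ 2) := by
    refine continuous_pi fun ν => ?_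
    exact (((continuous_apply ν).comp continuous_fst).add
      ((continuous_apply ν).comp continuous_snd)).pow 2
  have h2 : Continuous (fun u : (Nd → ℝ) × (Nd → ℝ) => fun ν : Nd => u.1 ν ^ 2) := by
    refine continuous_pi fun ν => ?_
    exact ((continuous_apply ν).comp continuous_fst).pow 2
  have h3 : Continuous (fun u : (Nd → ℝ) × (Nd → ℝ) => fun ν : Nd => u.2 ν ^ 2) := by
    refine continuous_pi fun ν => ?_
    exact ((continuous_apply ν).comp continuous_snd).pow 2
  exact (((P.continuous_lv k).comp h1).add ((P.continuous_lv k).comp h2)).add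
    ((P.continuous_lv k).comp h3)

/-- values of a flow are bounded by the value at the root -/
theorem IsFlow.le_root {P : Par} {v : Nd → ℝ} (hv : P.IsFlow v) :
    ∀ (k : ℕ) (ν : Nd), ν ∈ P.Lev k → v ν ≤ v ([], []) := by
  intro k
  induction k with
  | zero =>
    intro ν hν
    have hm := (P.mem_Lev).mp hν
    have h1 : ν.1 = [] := List.length_eq_zero_iff.mp (P.length_of_mem_Col hm.1)
    have h2 : ν.2 = [] := List.length_eq_zero_iff.mp (P.length_of_mem_His hm.2)
    have h3 : ν = ([], []) := Prod.ext h1 h2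
    rw [h3]
  | succ k ih =>
    rintro ⟨c, s⟩ hν
    have hm := (P.mem_Lev).mp hν
    obtain ⟨hc, hs⟩ := hm
    have hc : c ∈ P.Col (k + 1) := hc
    have hs : s ∈ P.His (k + 1) := hs
    have lc := P.length_of_mem_Col hc
    have ls := P.length_of_mem_His hs
    cases c with
    | nil => simp at lc
    | cons i c =>
      cases s with
      | nil => simp at ls
      | cons j s =>
        have hc' := (P.mem_Col_succ).mp hc
        have hs' := (P.mem_His_succ).mp hs
        have h1 := hv.sum_le k c hc'.2 s hs'.2 i hc'.1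
        have h2 : v (i :: c, j :: s) ≤ ∑ j' ∈ range (P.n k), v (i :: c, j' :: s) :=
          Finset.single_le_sum (f := fun j' => v (i :: c, j' :: s))
            (fun j' _ => hv.nonneg _) (Finset.mem_range.mpr hs'.1)
        have h3 := ih (c, s) ((P.mem_Lev).mpr ⟨hc'.2, hs'.2⟩)
        linarith

theorem IsFlow.le_root' {P : Par} {v : Nd → ℝ} (hv : P.IsFlow v) (ν : Nd) :
    v ν ≤ v ([], []) := by
  by_cases h : P.Val ν
  · exact hv.le_root _ ν h
  · rw [hv.zero_off ν h]
    exact hv.nonneg _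

/-- the set of flows is closed -/
theorem isClosed_isFlow : IsClosed {v : Nd → ℝ | P.IsFlow v} := by
  have h : {v : Nd → ℝ | P.IsFlow v} =
      (⋂ ν : Nd, {v : Nd → ℝ | 0 ≤ v ν}) ∩
      ((⋂ ν : Nd, ⋂ _ : ¬ P.Val ν, {v : Nd → ℝ | v ν = 0}) ∩
      (⋂ k : ℕ, ⋂ c : List ℕ, ⋂ _ : c ∈ P.Col k, ⋂ s : List ℕ, ⋂ _ : s ∈ P.His k,
        ⋂ i : ℕ, ⋂ _ : i < P.r k,
        {v : Nd → ℝ | ∑ j ∈ range (P.n k), v (i :: c, j :: s) ≤ v (c, s)})) := by
    ext v
    simp only [Set.mem_ofPred_eq, Set.mem_inter_iff, Set.mem_iInter]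
    constructor
    · intro h
      exact ⟨h.nonneg, h.zero_off, fun k c hc s hs i hi => h.sum_le k c hc s hs i hi⟩
    · rintro ⟨h1, h2, h3⟩
      exact ⟨h1, h2, h3⟩
  rw [h]
  refine IsClosed.inter (isClosed_iInter fun ν => ?_) (IsClosed.inter
    (isClosed_iInter fun ν => isClosed_iInter fun _ => ?_) ?_)
  · exact isClosed_le continuous_const (continuous_apply ν)
  · exact isClosed_eq (continuous_apply ν) continuous_const
  · refine isClosed_iInter fun k => isClosed_iInter fun c => isClosed_iInter fun _ =>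
      isClosed_iInter fun s => isClosed_iInter fun _ => isClosed_iInter fun i =>
      isClosed_iInter fun _ => ?_
    refine isClosed_le ?_ (continuous_apply _)
    exact continuous_finsetSum _ fun j _ => continuous_apply _

theorem isCompact_flows (A : ℝ) :
    IsCompact {u : (Nd → ℝ) × (Nd → ℝ) | P.IsFlow u.1 ∧ P.IsFlow u.2 ∧
      u.1 ([], []) + u.2 ([], []) ≤ A} := by
  have hK : IsCompact ((Set.univ.pi fun _ : Nd => Set.Icc (0 : ℝ) A) ×ˢ
      (Set.univ.pi fun _ : Nd => Set.Icc (0 : ℝ) A)) :=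
    (isCompact_univ_pi fun _ => isCompact_Icc).prod (isCompact_univ_pi fun _ => isCompact_Icc)
  refine hK.of_isClosed_subset ?_ ?_
  · have h1 : IsClosed {u : (Nd → ℝ) × (Nd → ℝ) | P.IsFlow u.1} :=
      P.isClosed_isFlow.preimage continuous_fst
    have h2 : IsClosed {u : (Nd → ℝ) × (Nd → ℝ) | P.IsFlow u.2} :=
      P.isClosed_isFlow.preimage continuous_snd
    have h3 : IsClosed {u : (Nd → ℝ) × (Nd → ℝ) | u.1 ([], []) + u.2 ([], []) ≤ A} :=
      isClosed_le (((continuous_apply _).comp continuous_fst).add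
        ((continuous_apply _).comp continuous_snd)) continuous_const
    exact h1.inter (h2.inter h3)
  · rintro ⟨p, m⟩ ⟨hp, hm, hA⟩
    have hp : P.IsFlow p := hp
    have hm : P.IsFlow m := hm
    have hA : p ([], []) + m ([], []) ≤ A := hA
    have hp0 := hp.nonneg ([], [])
    have hm0 := hm.nonneg ([], [])
    refine ⟨fun ν _ => ⟨hp.nonneg ν, (hp.le_root' ν).trans (by linarith)⟩,
      fun ν _ => ⟨hm.nonneg ν, (hm.le_root' ν).trans (by linarith)⟩⟩

theorem continuous_Lop (ν : Nd) : Continuous (fun v : Nd → ℝ => P.Lop v ν) := by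
  unfold Lop
  refine continuous_const.mul ?_
  refine continuous_finsetSum _ fun i _ => continuous_finsetSum _ fun j _ => ?_
  exact continuous_const.mul (continuous_apply _)

theorem isClosed_lift (A τ : ℝ) (T : Set ((Nd → ℝ) × (Nd → ℝ))) (hT : IsClosed T) :
    IsClosed {y : Nd → ℝ | ∃ p m, P.Lift A τ y p m ∧ (p, m) ∈ T} := by
  set K : Set ((Nd → ℝ) × (Nd → ℝ)) := {u | P.IsFlow u.1 ∧ P.IsFlow u.2 ∧
      u.1 ([], []) + u.2 ([], []) ≤ A} with hKdef
  have hK : IsCompact K := P.isCompact_flows A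
  have : CompactSpace K := isCompact_iff_compactSpace.mp hK
  have hcl : IsClosedMap (Prod.fst : (Nd → ℝ) × K → (Nd → ℝ)) := isClosedMap_fst_of_compactSpace
  have hfun : ∀ k : ℕ, Continuous (fun w : (Nd → ℝ) × K =>
      P.nrm k (fun ν => w.1 ν - (P.Lop w.2.1.1 ν - P.Lop w.2.1.2 ν))) := by
    intro k
    refine (P.continuous_nrm k).comp (continuous_pi fun ν => ?_)
    refine ((continuous_apply ν).comp continuous_fst).sub ?_
    exact ((P.continuous_Lop ν).comp (continuous_fst.comp
      (continuous_subtype_val.comp continuous_snd))).sub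
      ((P.continuous_Lop ν).comp (continuous_snd.comp
      (continuous_subtype_val.comp continuous_snd)))
  have hZ : IsClosed ({w : (Nd → ℝ) × K | w.2.1 ∈ T} ∩
      ⋂ k : ℕ, {w : (Nd → ℝ) × K |
      P.nrm k (fun ν => w.1 ν - (P.Lop w.2.1.1 ν - P.Lop w.2.1.2 ν)) ≤ τ + A * P.κ k}) := by
    refine IsClosed.inter (hT.preimage (continuous_subtype_val.comp continuous_snd)) ?_
    exact isClosed_iInter fun k => isClosed_le (hfun k) continuous_const
  have himg := hcl _ hZ
  convert himg using 1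
  ext y
  simp only [Set.mem_ofPred_eq, Set.mem_image, Set.mem_inter_iff, Set.mem_iInter]
  constructor
  · rintro ⟨p, m, ⟨hp, hm, hA, hk⟩, hT'⟩
    exact ⟨(y, ⟨(p, m), hp, hm, hA⟩), ⟨hT', hk⟩, rfl⟩
  · rintro ⟨⟨y', ⟨⟨p, m⟩, hp, hm, hA⟩⟩, ⟨hT', hk⟩, rfl⟩
    exact ⟨p, m, ⟨hp, hm, hA, hk⟩, hT'⟩

end Par

end Pool.Agent.MPff6db8
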