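import Pool.Agent.MPff6db8.Flow

/-! MP_ff6db8_an (frozen S06854). Selection of the set of nodes. -/

set_option autoImplicit false

namespace Pool.Agent.MPff6db8

open Finset

namespace Par

variable (P : Par)

theorem sel_sum_sq_le_sq {ι : Type*} (S : Finset ι) (f : ι → ℝ) (hf : ∀ i ∈ S, 0 ≤ f i) :
    ∑ i ∈ S, f i ^ 2 ≤ (∑ i ∈ S, f i) ^ 2 := by
  rw [pow_two (∑ i ∈ S, f i), Finset.mul_sum]
  refine Finset.sum_le_sum fun i hi => ?_
  rw [pow_two]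
  exact mul_le_mul_of_nonneg_right (Finset.single_le_sum hf hi) (hf i hi)

/-! ### Sums over columns and histories -/

theorem sel_sum_Col_succ (k : ℕ) (f : List ℕ → ℝ) :
    ∑ c ∈ P.Col (k + 1), f c = ∑ c ∈ P.Col k, ∑ i ∈ range (P.r k), f (i :: c) := by
  rw [show P.Col (k + 1) = (range (P.r k) ×ˢ P.Col k).image (fun ic => ic.1 :: ic.2) from rfl,
    Finset.sum_image, Finset.sum_product_right]
  rintro ⟨i, c⟩ _ ⟨i', c'⟩ _ h
  simp only [List.cons.injEq] at h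
  exact Prod.ext h.1 h.2

theorem sel_sum_His_succ (k : ℕ) (f : List ℕ → ℝ) :
    ∑ s ∈ P.His (k + 1), f s = ∑ s ∈ P.His k, ∑ j ∈ range (P.n k), f (j :: s) := by
  rw [show P.His (k + 1) = (range (P.n k) ×ˢ P.His k).image (fun js => js.1 :: js.2) from rfl,
    Finset.sum_image, Finset.sum_product_right]
  rintro ⟨i, c⟩ _ ⟨i', c'⟩ _ h
  simp only [List.cons.injEq] at h
  exact Prod.ext h.1 h.2

theorem sel_sum_Lev_eq (k : ℕ) (f : Nd → ℝ) :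
    ∑ ν ∈ P.Lev k, f ν = ∑ c ∈ P.Col k, ∑ s ∈ P.His k, f (c, s) := by
  rw [show P.Lev k = P.Col k ×ˢ P.His k from rfl, Finset.sum_product]

theorem sel_drop_mem_Col (n0 d : ℕ) {c : List ℕ} (h : c ∈ P.Col (n0 + d)) : c.drop d ∈ P.Col n0 := by
  induction d generalizing c with
  | zero => simpa using h
  | succ d ih =>
    rw [show n0 + (d + 1) = (n0 + d) + 1 from rfl] at h
    cases c with
    | nil => have := P.length_of_mem_Col h; simp at this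
    | cons i c =>
      rw [P.mem_Col_succ] at h
      simpa using ih h.2

theorem sel_drop_mem_His (n0 d : ℕ) {s : List ℕ} (h : s ∈ P.His (n0 + d)) : s.drop d ∈ P.His n0 := by
  induction d generalizing s with
  | zero => simpa using h
  | succ d ih =>
    rw [show n0 + (d + 1) = (n0 + d) + 1 from rfl] at h
    cases s with
    | nil => have := P.length_of_mem_His h; simp at this
    | cons i s =>
      rw [P.mem_His_succ] at h
      simpa using ih h.2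

/-- extensions of a history -/
def Ext (n0 d : ℕ) (s0 : List ℕ) : Finset (List ℕ) := (P.His (n0 + d)).filter (fun s => s.drop d = s0)

theorem sel_mem_Ext {n0 d : ℕ} {s0 s : List ℕ} :
    s ∈ P.Ext n0 d s0 ↔ s ∈ P.His (n0 + d) ∧ s.drop d = s0 := by
  simp [Ext]

theorem sel_Ext_nonempty (n0 d : ℕ) {s0 : List ℕ} (h : s0 ∈ P.His n0) : (P.Ext n0 d s0).Nonempty := by
  induction d with
  | zero => exact ⟨s0, P.sel_mem_Ext.2 ⟨by simpa using h, by simp⟩⟩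
  | succ d ih =>
    obtain ⟨s, hs⟩ := ih
    rw [P.sel_mem_Ext] at hs
    refine ⟨0 :: s, P.sel_mem_Ext.2 ⟨?_, by simpa using hs.2⟩⟩
    rw [show n0 + (d + 1) = (n0 + d) + 1 from rfl, P.mem_His_succ]
    exact ⟨P.n_pos _, hs.1⟩

theorem sel_sum_Ext_succ (n0 d : ℕ) (s0 : List ℕ) (f : List ℕ → ℝ) :
    ∑ s ∈ P.Ext n0 (d + 1) s0, f s = ∑ s ∈ P.Ext n0 d s0, ∑ j ∈ range (P.n (n0 + d)), f (j :: s) := by
  unfold Ext
  rw [Finset.sum_filter, Finset.sum_filter]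
  rw [show n0 + (d + 1) = (n0 + d) + 1 from rfl, P.sel_sum_His_succ]
  refine Finset.sum_congr rfl fun s _ => ?_
  by_cases h : s.drop d = s0
  · simp [h]
  · simp [h]

theorem IsFlow.sum_Ext_le {P : Par} {v : Nd → ℝ} (hv : P.IsFlow v) (n0 d : ℕ) {c s0 : List ℕ}
    (hc : c ∈ P.Col (n0 + d)) (hs : s0 ∈ P.His n0) :
    ∑ s ∈ P.Ext n0 d s0, v (c, s) ≤ v (c.drop d, s0) := by
  induction d generalizing c with
  | zero =>
    have h1 : P.Ext n0 0 s0 = {s0} := by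
      ext s
      rw [P.sel_mem_Ext, Finset.mem_singleton]
      constructor
      · rintro ⟨_, h⟩; simpa using h
      · rintro rfl; exact ⟨by simpa using hs, by simp⟩
    rw [h1]; simp
  | succ d ih =>
    rw [P.sel_sum_Ext_succ]
    rw [show n0 + (d + 1) = (n0 + d) + 1 from rfl] at hc
    cases c with
    | nil => have := P.length_of_mem_Col hc; simp at this
    | cons i c =>
      rw [P.mem_Col_succ] at hc
      calc ∑ s ∈ P.Ext n0 d s0, ∑ j ∈ range (P.n (n0 + d)), v (i :: c, j :: s)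
          ≤ ∑ s ∈ P.Ext n0 d s0, v (c, s) :=
            Finset.sum_le_sum fun s hs' => hv.sum_le _ _ hc.2 _ (P.sel_mem_Ext.1 hs').1 _ hc.1
        _ ≤ v (c.drop d, s0) := ih hc.2
        _ = _ := by simp

/-- the index set of pairs (column of level `n0 + d`, history of level `n0`) -/
def IX (n0 d : ℕ) : Finset (List ℕ × List ℕ) := P.Col (n0 + d) ×ˢ P.His n0

theorem mem_IX {n0 d : ℕ} {x : List ℕ × List ℕ} :
    x ∈ P.IX n0 d ↔ x.1 ∈ P.Col (n0 + d) ∧ x.2 ∈ P.His n0 := by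
  simp [IX, Finset.mem_product]

theorem sel_sum_Col_drop (n0 d : ℕ) (f : List ℕ → ℝ) :
    P.pk (n0 + d) * ∑ c ∈ P.Col (n0 + d), f (c.drop d) = P.pk n0 * ∑ c ∈ P.Col n0, f c := by
  induction d with
  | zero => simp
  | succ d ih =>
    rw [← ih, show n0 + (d + 1) = (n0 + d) + 1 from rfl, P.sel_sum_Col_succ, P.pk_succ]
    have hr : (P.r (n0 + d) : ℝ) ≠ 0 := by
      have := P.r_pos (n0 + d)
      positivity
    simp only [List.drop_succ_cons, Finset.sum_const, Finset.card_range, nsmul_eq_mul]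
    rw [← Finset.mul_sum]
    field_simp

theorem sum_IX_drop (n0 d : ℕ) (g : Nd → ℝ) :
    P.pk (n0 + d) * ∑ x ∈ P.IX n0 d, g (x.1.drop d, x.2) = P.lv n0 g := by
  unfold IX lv
  rw [Finset.sum_product, P.sel_sum_Col_drop n0 d (fun c => ∑ s ∈ P.His n0, g (c, s)), P.sel_sum_Lev_eq]

theorem sum_IX_Ext (n0 d : ℕ) (g : Nd → ℝ) :
    ∑ x ∈ P.IX n0 d, ∑ s ∈ P.Ext n0 d x.2, g (x.1, s) = ∑ ν ∈ P.Lev (n0 + d), g ν := by
  unfold IX Ext
  rw [Finset.sum_product, P.sel_sum_Lev_eq]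
  refine Finset.sum_congr rfl fun c _ => ?_
  exact Finset.sum_fiberwise_of_maps_to (fun s hs => P.sel_drop_mem_His n0 d hs) (fun s => g (c, s))

/-! ### maximisers -/

theorem sel_exists_maximizer (n0 d : ℕ) (w : Nd → ℝ) :
    ∃ σ : List ℕ × List ℕ → List ℕ, ∀ x ∈ P.IX n0 d, σ x ∈ P.Ext n0 d x.2 ∧
      ∀ s ∈ P.Ext n0 d x.2, w (x.1, s) ≤ w (x.1, σ x) := by
  classical
  have h : ∀ x : List ℕ × List ℕ, ∃ t : List ℕ, x ∈ P.IX n0 d → t ∈ P.Ext n0 d x.2 ∧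
      ∀ s ∈ P.Ext n0 d x.2, w (x.1, s) ≤ w (x.1, t) := by
    intro x
    by_cases hx : x ∈ P.IX n0 d
    · obtain ⟨t, ht, ht'⟩ := Finset.exists_max_image (P.Ext n0 d x.2) (fun s => w (x.1, s))
        (P.sel_Ext_nonempty n0 d (P.mem_IX.1 hx).2)
      exact ⟨t, fun _ => ⟨ht, ht'⟩⟩
    · exact ⟨[], fun h => absurd h hx⟩
  choose σ hσ using h
  exact ⟨σ, fun x hx => hσ x hx⟩

/-- what we need to know about a maximiser of a flow -/
structure MaxData (n0 d : ℕ) (w : Nd → ℝ) (σ : List ℕ × List ℕ → List ℕ)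
    (e : List ℕ × List ℕ → ℝ) : Prop where
  mem : ∀ x ∈ P.IX n0 d, σ x ∈ P.Ext n0 d x.2
  e_eq : ∀ x, e x = w (x.1.drop d, x.2) - w (x.1, σ x)
  e_nonneg : ∀ x ∈ P.IX n0 d, 0 ≤ e x
  rest : ∀ x ∈ P.IX n0 d, ∑ s ∈ (P.Ext n0 d x.2).erase (σ x), w (x.1, s) ≤ e x
  sum_sq : P.pk (n0 + d) * ∑ x ∈ P.IX n0 d, e x ^ 2 ≤
    P.lv n0 (fun ν => w ν ^ 2) - P.lv (n0 + d) (fun ν => w ν ^ 2)

theorem exists_maxData (n0 d : ℕ) {w : Nd → ℝ} (hw : P.IsFlow w) :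
    ∃ σ e, P.MaxData n0 d w σ e := by
  obtain ⟨σ, hσ⟩ := P.sel_exists_maximizer n0 d w
  have hrest : ∀ x ∈ P.IX n0 d, ∑ s ∈ (P.Ext n0 d x.2).erase (σ x), w (x.1, s) ≤
      w (x.1.drop d, x.2) - w (x.1, σ x) := by
    intro x hx
    have h1 := hw.sum_Ext_le n0 d (P.mem_IX.1 hx).1 (P.mem_IX.1 hx).2
    rw [← Finset.add_sum_erase _ _ (hσ x hx).1] at h1
    linarith
  have hnn : ∀ x ∈ P.IX n0 d, 0 ≤ w (x.1.drop d, x.2) - w (x.1, σ x) := by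
    intro x hx
    exact (Finset.sum_nonneg fun s _ => hw.nonneg _).trans (hrest x hx)
  refine ⟨σ, fun x => w (x.1.drop d, x.2) - w (x.1, σ x), fun x hx => (hσ x hx).1, fun x => rfl,
    hnn, hrest, ?_⟩
  have key : ∀ x ∈ P.IX n0 d, (w (x.1.drop d, x.2) - w (x.1, σ x)) ^ 2 ≤
      w (x.1.drop d, x.2) ^ 2 - ∑ s ∈ P.Ext n0 d x.2, w (x.1, s) ^ 2 := by
    intro x hx
    have h1 := hw.sum_Ext_le n0 d (P.mem_IX.1 hx).1 (P.mem_IX.1 hx).2
    have h2 : ∑ s ∈ P.Ext n0 d x.2, w (x.1, s) ^ 2 ≤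
        w (x.1, σ x) * ∑ s ∈ P.Ext n0 d x.2, w (x.1, s) := by
      rw [Finset.mul_sum]
      refine Finset.sum_le_sum fun s hs => ?_
      rw [pow_two]
      exact mul_le_mul_of_nonneg_right ((hσ x hx).2 s hs) (hw.nonneg _)
    have h3 : w (x.1, σ x) * ∑ s ∈ P.Ext n0 d x.2, w (x.1, s) ≤
        w (x.1, σ x) * w (x.1.drop d, x.2) := mul_le_mul_of_nonneg_left h1 (hw.nonneg _)
    have h4 := hnn x hx
    have h5 := hw.nonneg (x.1, σ x)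
    nlinarith
  have h1 : ∑ x ∈ P.IX n0 d, (w (x.1.drop d, x.2) - w (x.1, σ x)) ^ 2 ≤
      ∑ x ∈ P.IX n0 d, w (x.1.drop d, x.2) ^ 2 - ∑ ν ∈ P.Lev (n0 + d), w ν ^ 2 := by
    rw [← P.sum_IX_Ext n0 d (fun ν => w ν ^ 2), ← Finset.sum_sub_distrib]
    exact Finset.sum_le_sum key
  have h2 := mul_le_mul_of_nonneg_left h1 (P.pk_pos (n0 + d)).le
  rw [mul_sub, P.sum_IX_drop n0 d (fun ν => w ν ^ 2)] at h2
  exact h2

/-! ### the operator at level `k1` -/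

theorem lv_Lop_diff_le (n0 d : ℕ) (pa ma pb mb : Nd → ℝ) :
    P.lv (n0 + d) (fun ν => ((P.Lop pa ν - P.Lop ma ν) - (P.Lop pb ν - P.Lop mb ν)) ^ 2) ≤
      P.pk (n0 + (d + 1)) * ∑ x ∈ P.IX n0 (d + 1), (∑ s ∈ P.Ext n0 (d + 1) x.2,
        (|pa (x.1, s) - pb (x.1, s)| + |ma (x.1, s) - mb (x.1, s)|)) ^ 2 := by
  set g : Nd → ℝ := fun ν => |pa ν - pb ν| + |ma ν - mb ν| with hg
  have hg0 : ∀ ν, 0 ≤ g ν := fun ν => add_nonneg (abs_nonneg _) (abs_nonneg _)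
  -- pointwise bound
  have h1 : ∀ ν ∈ P.Lev (n0 + d),
      ((P.Lop pa ν - P.Lop ma ν) - (P.Lop pb ν - P.Lop mb ν)) ^ 2 ≤
      (1 / (P.r (n0 + d) : ℝ)) * ∑ i ∈ range (P.r (n0 + d)),
        (∑ j ∈ range (P.n (n0 + d)), g (i :: ν.1, j :: ν.2)) ^ 2 := by
    intro ν hν
    have hlen : ν.1.length = n0 + d := P.length_of_mem_Col (P.mem_Lev.1 hν).1
    have hr : (0 : ℝ) < P.r (n0 + d) := by exact_mod_cast P.r_pos (n0 + d)
    have h2 : (P.Lop pa ν - P.Lop ma ν) - (P.Lop pb ν - P.Lop mb ν) =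
        (1 / (P.r (n0 + d) : ℝ)) * ∑ i ∈ range (P.r (n0 + d)),
          ∑ j ∈ range (P.n (n0 + d)), P.lab (n0 + d) j *
          ((pa (i :: ν.1, j :: ν.2) - pb (i :: ν.1, j :: ν.2)) -
            (ma (i :: ν.1, j :: ν.2) - mb (i :: ν.1, j :: ν.2))) := by
      unfold Lop
      rw [hlen, ← mul_sub, ← mul_sub, ← mul_sub, ← Finset.sum_sub_distrib,
        ← Finset.sum_sub_distrib, ← Finset.sum_sub_distrib]
      congr 1
      refine Finset.sum_congr rfl fun i _ => ?_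
      rw [← Finset.sum_sub_distrib, ← Finset.sum_sub_distrib, ← Finset.sum_sub_distrib]
      refine Finset.sum_congr rfl fun j _ => ?_
      ring
    have h3 : |(P.Lop pa ν - P.Lop ma ν) - (P.Lop pb ν - P.Lop mb ν)| ≤
        (1 / (P.r (n0 + d) : ℝ)) * ∑ i ∈ range (P.r (n0 + d)),
          ∑ j ∈ range (P.n (n0 + d)), g (i :: ν.1, j :: ν.2) := by
      rw [h2, abs_mul, abs_of_nonneg (by positivity : (0 : ℝ) ≤ 1 / (P.r (n0 + d) : ℝ))]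
      refine mul_le_mul_of_nonneg_left ?_ (by positivity)
      refine (Finset.abs_sum_le_sum_abs _ _).trans (Finset.sum_le_sum fun i _ => ?_)
      refine (Finset.abs_sum_le_sum_abs _ _).trans (Finset.sum_le_sum fun j _ => ?_)
      rw [abs_mul]
      calc |P.lab (n0 + d) j| * |_| ≤ 1 * |_| :=
            mul_le_mul_of_nonneg_right (P.lab_le _ _) (abs_nonneg _)
        _ = |(pa (i :: ν.1, j :: ν.2) - pb (i :: ν.1, j :: ν.2)) -
            (ma (i :: ν.1, j :: ν.2) - mb (i :: ν.1, j :: ν.2))| := one_mul _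
        _ ≤ _ := abs_sub _ _
    have h4 : ((P.Lop pa ν - P.Lop ma ν) - (P.Lop pb ν - P.Lop mb ν)) ^ 2 ≤
        ((1 / (P.r (n0 + d) : ℝ)) * ∑ i ∈ range (P.r (n0 + d)),
          ∑ j ∈ range (P.n (n0 + d)), g (i :: ν.1, j :: ν.2)) ^ 2 := by
      rw [← sq_abs]
      exact pow_le_pow_left₀ (abs_nonneg _) h3 2
    refine h4.trans ?_
    have h5 : (∑ i ∈ range (P.r (n0 + d)),
          ∑ j ∈ range (P.n (n0 + d)), g (i :: ν.1, j :: ν.2)) ^ 2 ≤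
        (P.r (n0 + d) : ℝ) * ∑ i ∈ range (P.r (n0 + d)),
          (∑ j ∈ range (P.n (n0 + d)), g (i :: ν.1, j :: ν.2)) ^ 2 := by
      have := sq_sum_le_card_mul_sum_sq (s := range (P.r (n0 + d)))
        (f := fun i => ∑ j ∈ range (P.n (n0 + d)), g (i :: ν.1, j :: ν.2))
      simpa using this
    rw [mul_pow]
    calc (1 / (P.r (n0 + d) : ℝ)) ^ 2 * (∑ i ∈ range (P.r (n0 + d)),
          ∑ j ∈ range (P.n (n0 + d)), g (i :: ν.1, j :: ν.2)) ^ 2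
        ≤ (1 / (P.r (n0 + d) : ℝ)) ^ 2 * ((P.r (n0 + d) : ℝ) * ∑ i ∈ range (P.r (n0 + d)),
          (∑ j ∈ range (P.n (n0 + d)), g (i :: ν.1, j :: ν.2)) ^ 2) :=
          mul_le_mul_of_nonneg_left h5 (by positivity)
      _ = _ := by
          field_simp
  refine (P.lv_mono h1).trans ?_
  -- rewrite as a sum over `Col (K) × His k1`
  have h6 : P.lv (n0 + d) (fun ν => (1 / (P.r (n0 + d) : ℝ)) * ∑ i ∈ range (P.r (n0 + d)),
        (∑ j ∈ range (P.n (n0 + d)), g (i :: ν.1, j :: ν.2)) ^ 2) =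
      P.pk (n0 + (d + 1)) * ∑ c ∈ P.Col (n0 + (d + 1)), ∑ s ∈ P.His (n0 + d),
        (∑ j ∈ range (P.n (n0 + d)), g (c, j :: s)) ^ 2 := by
    unfold lv
    rw [show n0 + (d + 1) = (n0 + d) + 1 from rfl, P.sel_sum_Col_succ, P.pk_succ, P.sel_sum_Lev_eq,
      mul_assoc]
    congr 1
    rw [Finset.mul_sum]
    refine Finset.sum_congr rfl fun c _ => ?_
    rw [← Finset.mul_sum, Finset.sum_comm]
  rw [h6]
  refine mul_le_mul_of_nonneg_left ?_ (P.pk_pos _).le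
  unfold IX
  rw [Finset.sum_product]
  refine Finset.sum_le_sum fun c _ => ?_
  have h7 : ∑ s ∈ P.His (n0 + d), (∑ j ∈ range (P.n (n0 + d)), g (c, j :: s)) ^ 2 =
      ∑ s0 ∈ P.His n0, ∑ s ∈ P.Ext n0 d s0, (∑ j ∈ range (P.n (n0 + d)), g (c, j :: s)) ^ 2 := by
    unfold Ext
    exact (Finset.sum_fiberwise_of_maps_to (fun s hs => P.sel_drop_mem_His n0 d hs) _).symm
  rw [h7]
  refine Finset.sum_le_sum fun s0 _ => ?_
  rw [P.sel_sum_Ext_succ]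
  exact sel_sum_sq_le_sq (P.Ext n0 d s0) (fun s => ∑ j ∈ range (P.n (n0 + d)), g (c, j :: s))
    fun s _ => Finset.sum_nonneg fun j _ => hg0 _

/-- bound of the functional on one extension set, off the exceptional set -/
theorem Z_le_off {P : Par} {n0 d : ℕ} {pa ma pb mb : Nd → ℝ}
    {σa σb : List ℕ × List ℕ → List ℕ} {ea eb : List ℕ × List ℕ → ℝ}
    (hpa : P.IsFlow pa) (hma : P.IsFlow ma) (hpb : P.IsFlow pb) (hmb : P.IsFlow mb)
    (Ha : P.MaxData n0 d (fun ν => pa ν + ma ν) σa ea)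
    (Hb : P.MaxData n0 d (fun ν => pb ν + mb ν) σb eb)
    {x : List ℕ × List ℕ} (hx : x ∈ P.IX n0 d) (hab : σa x = σb x) :
    ∑ s ∈ P.Ext n0 d x.2, (|pa (x.1, s) - pb (x.1, s)| + |ma (x.1, s) - mb (x.1, s)|) ≤
      2 * ea x + 2 * eb x + |pa (x.1.drop d, x.2) - pb (x.1.drop d, x.2)| +
        |ma (x.1.drop d, x.2) - mb (x.1.drop d, x.2)| := by
  have hmem := Ha.mem x hx
  rw [← Finset.add_sum_erase _ _ hmem]
  have h1 : ∑ s ∈ (P.Ext n0 d x.2).erase (σa x),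
      (|pa (x.1, s) - pb (x.1, s)| + |ma (x.1, s) - mb (x.1, s)|) ≤ ea x + eb x := by
    have h2 := Ha.rest x hx
    have h3 := Hb.rest x hx
    rw [← hab] at h3
    refine le_trans ?_ (add_le_add h2 h3)
    rw [← Finset.sum_add_distrib]
    refine Finset.sum_le_sum fun s _ => ?_
    have a1 : |pa (x.1, s) - pb (x.1, s)| ≤ pa (x.1, s) + pb (x.1, s) := by
      rw [abs_le]
      constructor
      · linarith [hpa.nonneg (x.1, s), hpb.nonneg (x.1, s)]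
      · linarith [hpa.nonneg (x.1, s), hpb.nonneg (x.1, s)]
    have a2 : |ma (x.1, s) - mb (x.1, s)| ≤ ma (x.1, s) + mb (x.1, s) := by
      rw [abs_le]
      constructor
      · linarith [hma.nonneg (x.1, s), hmb.nonneg (x.1, s)]
      · linarith [hma.nonneg (x.1, s), hmb.nonneg (x.1, s)]
    linarith
  have hone : ∀ {v : Nd → ℝ}, P.IsFlow v → v (x.1, σa x) ≤ v (x.1.drop d, x.2) := by
    intro v hv
    refine le_trans ?_ (hv.sum_Ext_le n0 d (P.mem_IX.1 hx).1 (P.mem_IX.1 hx).2)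
    exact Finset.single_le_sum (f := fun s => v (x.1, s)) (fun s _ => hv.nonneg _) hmem
  have b1 := hone hpa
  have b2 := hone hma
  have b3 := hone hpb
  have b4 := hone hmb
  have c1 := Ha.e_eq x
  have c2 := Hb.e_eq x
  rw [← hab] at c2
  have d1 : |pa (x.1, σa x) - pb (x.1, σa x)| ≤ |pa (x.1.drop d, x.2) - pb (x.1.drop d, x.2)| +
      (pa (x.1.drop d, x.2) - pa (x.1, σa x)) + (pb (x.1.drop d, x.2) - pb (x.1, σa x)) := by
    rw [abs_le]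
    have h5 := neg_abs_le (pa (x.1.drop d, x.2) - pb (x.1.drop d, x.2))
    have h6 := le_abs_self (pa (x.1.drop d, x.2) - pb (x.1.drop d, x.2))
    constructor <;> linarith
  have d2 : |ma (x.1, σa x) - mb (x.1, σa x)| ≤ |ma (x.1.drop d, x.2) - mb (x.1.drop d, x.2)| +
      (ma (x.1.drop d, x.2) - ma (x.1, σa x)) + (mb (x.1.drop d, x.2) - mb (x.1, σa x)) := by
    rw [abs_le]
    have h5 := neg_abs_le (ma (x.1.drop d, x.2) - mb (x.1.drop d, x.2))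
    have h6 := le_abs_self (ma (x.1.drop d, x.2) - mb (x.1.drop d, x.2))
    constructor <;> linarith
  linarith

/-- trivial bound -/
theorem Z_le_on {P : Par} {n0 d : ℕ} {pa ma pb mb : Nd → ℝ}
    (hpa : P.IsFlow pa) (hma : P.IsFlow ma) (hpb : P.IsFlow pb) (hmb : P.IsFlow mb)
    {x : List ℕ × List ℕ} (hx : x ∈ P.IX n0 d) :
    ∑ s ∈ P.Ext n0 d x.2, (|pa (x.1, s) - pb (x.1, s)| + |ma (x.1, s) - mb (x.1, s)|) ≤
      (pa (x.1.drop d, x.2) + ma (x.1.drop d, x.2)) +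
        (pb (x.1.drop d, x.2) + mb (x.1.drop d, x.2)) := by
  have h1 := hpa.sum_Ext_le n0 d (P.mem_IX.1 hx).1 (P.mem_IX.1 hx).2
  have h2 := hma.sum_Ext_le n0 d (P.mem_IX.1 hx).1 (P.mem_IX.1 hx).2
  have h3 := hpb.sum_Ext_le n0 d (P.mem_IX.1 hx).1 (P.mem_IX.1 hx).2
  have h4 := hmb.sum_Ext_le n0 d (P.mem_IX.1 hx).1 (P.mem_IX.1 hx).2
  have h5 : ∑ s ∈ P.Ext n0 d x.2, (|pa (x.1, s) - pb (x.1, s)| + |ma (x.1, s) - mb (x.1, s)|) ≤
      ∑ s ∈ P.Ext n0 d x.2, (pa (x.1, s) + ma (x.1, s) + (pb (x.1, s) + mb (x.1, s))) := by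
    refine Finset.sum_le_sum fun s _ => ?_
    have a1 : |pa (x.1, s) - pb (x.1, s)| ≤ pa (x.1, s) + pb (x.1, s) := by
      rw [abs_le]
      constructor
      · linarith [hpa.nonneg (x.1, s), hpb.nonneg (x.1, s)]
      · linarith [hpa.nonneg (x.1, s), hpb.nonneg (x.1, s)]
    have a2 : |ma (x.1, s) - mb (x.1, s)| ≤ ma (x.1, s) + mb (x.1, s) := by
      rw [abs_le]
      constructor
      · linarith [hma.nonneg (x.1, s), hmb.nonneg (x.1, s)]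
      · linarith [hma.nonneg (x.1, s), hmb.nonneg (x.1, s)]
    linarith
  refine h5.trans ?_
  rw [Finset.sum_add_distrib, Finset.sum_add_distrib, Finset.sum_add_distrib]
  linarith

/-- the set `R` built from a subset `S` of the index set and the maximiser `σ` -/
theorem exists_R {P : Par} {n0 d : ℕ} {σ : List ℕ × List ℕ → List ℕ}
    (hσ : ∀ x ∈ P.IX n0 d, σ x ∈ P.Ext n0 d x.2) (S : Finset (List ℕ × List ℕ))
    (hS : S ⊆ P.IX n0 d) :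
    ∃ R ⊆ P.Lev (n0 + d), ∀ g : Nd → ℝ, ∑ ν ∈ R, g ν = ∑ x ∈ S, g (x.1, σ x) := by
  classical
  refine ⟨S.image fun x => (x.1, σ x), ?_, ?_⟩
  · intro ν hν
    obtain ⟨x, hx, rfl⟩ := Finset.mem_image.1 hν
    rw [P.mem_Lev]
    exact ⟨(P.mem_IX.1 (hS hx)).1, (P.sel_mem_Ext.1 (hσ x (hS hx))).1⟩
  · intro g
    rw [Finset.sum_image]
    intro x hx y hy hxy
    simp only [Prod.mk.injEq] at hxy
    have h1 := (P.sel_mem_Ext.1 (hσ x (hS hx))).2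
    have h2 := (P.sel_mem_Ext.1 (hσ y (hS hy))).2
    refine Prod.ext hxy.1 ?_
    rw [← h1, ← h2, hxy.2]

/-- a flow is small at a node which is not the maximiser -/
theorem MaxData.le_e {P : Par} {n0 d : ℕ} {w : Nd → ℝ} {σ : List ℕ × List ℕ → List ℕ}
    {e : List ℕ × List ℕ → ℝ} (H : P.MaxData n0 d w σ e) (hw : P.IsFlow w)
    {x : List ℕ × List ℕ} (hx : x ∈ P.IX n0 d) {s : List ℕ} (hs : s ∈ P.Ext n0 d x.2)
    (hne : s ≠ σ x) : w (x.1, s) ≤ e x := by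
  refine le_trans ?_ (H.rest x hx)
  exact Finset.single_le_sum (f := fun s => w (x.1, s)) (fun s _ => hw.nonneg _)
    (Finset.mem_erase.2 ⟨hne, hs⟩)

/-- one-sided conclusion -/
theorem select_side {P : Par} {n0 d : ℕ} {wa wb wz : Nd → ℝ}
    {σa σb σz : List ℕ × List ℕ → List ℕ} {ea eb ez : List ℕ × List ℕ → ℝ}
    (hb : P.IsFlow wb) (hz : P.IsFlow wz)
    (Ha : P.MaxData n0 d wa σa ea) (Hb : P.MaxData n0 d wb σb eb)
    (Hz : P.MaxData n0 d wz σz ez) {δ ε : ℝ}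
    (da : P.pk (n0 + d) * ∑ x ∈ P.IX n0 d, ea x ^ 2 ≤ δ)
    (db : P.pk (n0 + d) * ∑ x ∈ P.IX n0 d, eb x ^ 2 ≤ δ)
    (dz : P.pk (n0 + d) * ∑ x ∈ P.IX n0 d, ez x ^ 2 ≤ δ)
    (S : Finset (List ℕ × List ℕ)) (hS : S ⊆ P.IX n0 d)
    (hSb : ∀ x ∈ S, σa x ≠ σb x) (hSz : ∀ x ∈ S, σa x ≠ σz x)
    (hM : ε ^ 2 / 210 ≤ P.pk (n0 + d) * ∑ x ∈ S, wa (x.1.drop d, x.2) ^ 2) :
    ∃ R ⊆ P.Lev (n0 + d), P.pk (n0 + d) * ∑ ν ∈ R, wz ν ^ 2 ≤ δ ∧
      P.pk (n0 + d) * ∑ ν ∈ R, wb ν ^ 2 ≤ δ ∧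
      ε ^ 2 / 420 - δ ≤ P.pk (n0 + d) * ∑ ν ∈ R, wa ν ^ 2 := by
  obtain ⟨R, hR, hsum⟩ := exists_R Ha.mem S hS
  have hpk := P.pk_pos (n0 + d)
  refine ⟨R, hR, ?_, ?_, ?_⟩
  · rw [hsum]
    refine le_trans (mul_le_mul_of_nonneg_left ?_ hpk.le) dz
    calc ∑ x ∈ S, wz (x.1, σa x) ^ 2 ≤ ∑ x ∈ S, ez x ^ 2 :=
          Finset.sum_le_sum fun x hx => pow_le_pow_left₀ (hz.nonneg _)
            (Hz.le_e hz (hS hx) (Ha.mem x (hS hx)) (hSz x hx)) 2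
      _ ≤ _ := Finset.sum_le_sum_of_subset_of_nonneg hS fun x _ _ => sq_nonneg _
  · rw [hsum]
    refine le_trans (mul_le_mul_of_nonneg_left ?_ hpk.le) db
    calc ∑ x ∈ S, wb (x.1, σa x) ^ 2 ≤ ∑ x ∈ S, eb x ^ 2 :=
          Finset.sum_le_sum fun x hx => pow_le_pow_left₀ (hb.nonneg _)
            (Hb.le_e hb (hS hx) (Ha.mem x (hS hx)) (hSb x hx)) 2
      _ ≤ _ := Finset.sum_le_sum_of_subset_of_nonneg hS fun x _ _ => sq_nonneg _
  · rw [hsum]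
    have h1 : ∀ x ∈ S, wa (x.1.drop d, x.2) ^ 2 / 2 - ea x ^ 2 ≤ wa (x.1, σa x) ^ 2 := by
      intro x _
      have h2 : wa (x.1, σa x) = wa (x.1.drop d, x.2) - ea x := by
        rw [Ha.e_eq x]; ring
      rw [h2]
      nlinarith [sq_nonneg (wa (x.1.drop d, x.2) - 2 * ea x)]
    have h2 := Finset.sum_le_sum h1
    rw [Finset.sum_sub_distrib, ← Finset.sum_div] at h2
    have h3 : ∑ x ∈ S, ea x ^ 2 ≤ ∑ x ∈ P.IX n0 d, ea x ^ 2 :=
      Finset.sum_le_sum_of_subset_of_nonneg hS fun x _ _ => sq_nonneg _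
    have h4 := mul_le_mul_of_nonneg_left h2 hpk.le
    have h5 := mul_le_mul_of_nonneg_left h3 hpk.le
    rw [mul_sub] at h4
    have h6 : P.pk (n0 + d) * ((∑ x ∈ S, wa (x.1.drop d, x.2) ^ 2) / 2) =
        (P.pk (n0 + d) * ∑ x ∈ S, wa (x.1.drop d, x.2) ^ 2) / 2 := by ring
    rw [h6] at h4
    linarith

/-- The selection of the set `R`: either there is a set for `a` or there is one for `b`. -/
theorem select (A ε τ δ : ℝ) (hε : 0 < ε) (hτ : 0 < τ) (hτε : τ ≤ ε / 16)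
    (hδ : 0 < δ) (hδε : δ ≤ ε ^ 2 / 10 ^ 5) (n0 k1 : ℕ) (hn : n0 ≤ k1) (hκ : A * P.κ k1 ≤ τ)
    (ya yb pa ma pb mb pz mz : Nd → ℝ)
    (ha : P.Lift A τ ya pa ma) (hb : P.Lift A τ yb pb mb) (hpz : P.IsFlow pz) (hmz : P.IsFlow mz)
    (ta : P.lv n0 (fun ν => (pa ν + ma ν) ^ 2) - P.lv (k1 + 1) (fun ν => (pa ν + ma ν) ^ 2) ≤ δ)
    (tb : P.lv n0 (fun ν => (pb ν + mb ν) ^ 2) - P.lv (k1 + 1) (fun ν => (pb ν + mb ν) ^ 2) ≤ δ)
    (tz : P.lv n0 (fun ν => (pz ν + mz ν) ^ 2) - P.lv (k1 + 1) (fun ν => (pz ν + mz ν) ^ 2) ≤ δ)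
    (hp : P.lv n0 (fun ν => (pa ν - pb ν) ^ 2) ≤ 8 * δ)
    (hm : P.lv n0 (fun ν => (ma ν - mb ν) ^ 2) ≤ 8 * δ)
    (hfar : ε / 2 < P.nrm k1 (fun ν => ya ν - yb ν)) :
    (∃ R ⊆ P.Lev (k1 + 1), P.pk (k1 + 1) * ∑ ν ∈ R, (pz ν + mz ν) ^ 2 ≤ δ ∧
      P.pk (k1 + 1) * ∑ ν ∈ R, (pb ν + mb ν) ^ 2 ≤ δ ∧
      ε ^ 2 / 420 - δ ≤ P.pk (k1 + 1) * ∑ ν ∈ R, (pa ν + ma ν) ^ 2) ∨
    (∃ R ⊆ P.Lev (k1 + 1), P.pk (k1 + 1) * ∑ ν ∈ R, (pz ν + mz ν) ^ 2 ≤ δ ∧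
      P.pk (k1 + 1) * ∑ ν ∈ R, (pa ν + ma ν) ^ 2 ≤ δ ∧
      ε ^ 2 / 420 - δ ≤ P.pk (k1 + 1) * ∑ ν ∈ R, (pb ν + mb ν) ^ 2) := by
  classical
  obtain ⟨d, rfl⟩ : ∃ d, k1 = n0 + d := ⟨k1 - n0, by omega⟩
  obtain ⟨hpa, hma, -, hya⟩ := ha
  obtain ⟨hpb, hmb, -, hyb⟩ := hb
  -- maximisers
  obtain ⟨σa, ea, Ha⟩ := P.exists_maxData n0 (d + 1) (hpa.add hma)
  obtain ⟨σb, eb, Hb⟩ := P.exists_maxData n0 (d + 1) (hpb.add hmb)
  obtain ⟨σz, ez, Hz⟩ := P.exists_maxData n0 (d + 1) (hpz.add hmz)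
  have da : P.pk (n0 + (d + 1)) * ∑ x ∈ P.IX n0 (d + 1), ea x ^ 2 ≤ δ := Ha.sum_sq.trans ta
  have db : P.pk (n0 + (d + 1)) * ∑ x ∈ P.IX n0 (d + 1), eb x ^ 2 ≤ δ := Hb.sum_sq.trans tb
  have dz : P.pk (n0 + (d + 1)) * ∑ x ∈ P.IX n0 (d + 1), ez x ^ 2 ≤ δ := Hz.sum_sq.trans tz
  have hpk := P.pk_pos (n0 + (d + 1))
  -- lower bound of the norm of `L u_a - L u_b`
  have hlow : ε ^ 2 / 16 ≤ P.lv (n0 + d)
      (fun ν => ((P.Lop pa ν - P.Lop ma ν) - (P.Lop pb ν - P.Lop mb ν)) ^ 2) := by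
    have h1 : P.nrm (n0 + d) (fun ν => ya ν - yb ν) ≤
        P.nrm (n0 + d) (fun ν => (P.Lop pa ν - P.Lop ma ν) - (P.Lop pb ν - P.Lop mb ν)) +
        (P.nrm (n0 + d) (fun ν => ya ν - (P.Lop pa ν - P.Lop ma ν)) +
          P.nrm (n0 + d) (fun ν => yb ν - (P.Lop pb ν - P.Lop mb ν))) := by
      have h2 : (fun ν => ya ν - yb ν) = fun ν =>
          ((P.Lop pa ν - P.Lop ma ν) - (P.Lop pb ν - P.Lop mb ν)) +
          ((ya ν - (P.Lop pa ν - P.Lop ma ν)) - (yb ν - (P.Lop pb ν - P.Lop mb ν))) := by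
        funext ν; ring
      rw [h2]
      refine (P.nrm_add_le _ _ _).trans (add_le_add le_rfl ?_)
      exact P.nrm_sub_le _ _ _
    have h3 := hya (n0 + d)
    have h4 := hyb (n0 + d)
    have h5 : ε / 4 ≤ P.nrm (n0 + d)
        (fun ν => (P.Lop pa ν - P.Lop ma ν) - (P.Lop pb ν - P.Lop mb ν)) := by linarith
    rw [← P.nrm_sq]
    calc ε ^ 2 / 16 = (ε / 4) ^ 2 := by ring
      _ ≤ _ := pow_le_pow_left₀ (by positivity) h5 2
  have hup := P.lv_Lop_diff_le n0 d pa ma pb mb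
  -- notation
  set X := P.IX n0 (d + 1) with hX
  set Ba : List ℕ × List ℕ → ℝ := fun x => pa (x.1.drop (d + 1), x.2) + ma (x.1.drop (d + 1), x.2)
    with hBa
  set Bb : List ℕ × List ℕ → ℝ := fun x => pb (x.1.drop (d + 1), x.2) + mb (x.1.drop (d + 1), x.2)
    with hBb
  set α : List ℕ × List ℕ → ℝ := fun x => pa (x.1.drop (d + 1), x.2) - pb (x.1.drop (d + 1), x.2)
    with hα
  set β : List ℕ × List ℕ → ℝ := fun x => ma (x.1.drop (d + 1), x.2) - mb (x.1.drop (d + 1), x.2)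
    with hβ
  set c := P.pk (n0 + (d + 1)) with hc
  have hαs : c * ∑ x ∈ X, α x ^ 2 ≤ 8 * δ := by
    have := P.sum_IX_drop n0 (d + 1) (fun ν => (pa ν - pb ν) ^ 2)
    rw [← this] at hp
    exact hp
  have hβs : c * ∑ x ∈ X, β x ^ 2 ≤ 8 * δ := by
    have := P.sum_IX_drop n0 (d + 1) (fun ν => (ma ν - mb ν) ^ 2)
    rw [← this] at hm
    exact hm
  set Pab := X.filter (fun x => σa x ≠ σb x) with hPab
  set Pa := Pab.filter (fun x => σa x ≠ σz x) with hPa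
  set Pb := Pab.filter (fun x => σb x ≠ σz x) with hPb
  have hPaX : Pa ⊆ X := (Finset.filter_subset _ _).trans (Finset.filter_subset _ _)
  have hPbX : Pb ⊆ X := (Finset.filter_subset _ _).trans (Finset.filter_subset _ _)
  -- upper bound of `Z^2`
  have hZ : ∀ x ∈ X, (∑ s ∈ P.Ext n0 (d + 1) x.2,
        (|pa (x.1, s) - pb (x.1, s)| + |ma (x.1, s) - mb (x.1, s)|)) ^ 2 ≤
      16 * ea x ^ 2 + 16 * eb x ^ 2 + 4 * α x ^ 2 + 4 * β x ^ 2 +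
        (if σa x ≠ σb x then 2 * Ba x ^ 2 + 2 * Bb x ^ 2 else 0) := by
    intro x hx
    have h0 : 0 ≤ ∑ s ∈ P.Ext n0 (d + 1) x.2,
        (|pa (x.1, s) - pb (x.1, s)| + |ma (x.1, s) - mb (x.1, s)|) :=
      Finset.sum_nonneg fun s _ => add_nonneg (abs_nonneg _) (abs_nonneg _)
    by_cases hab : σa x = σb x
    · rw [if_neg (not_not.2 hab), add_zero]
      have h1 := Z_le_off hpa hma hpb hmb Ha Hb hx hab
      have h2 : (∑ s ∈ P.Ext n0 (d + 1) x.2,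
          (|pa (x.1, s) - pb (x.1, s)| + |ma (x.1, s) - mb (x.1, s)|)) ^ 2 ≤
          (2 * ea x + 2 * eb x + |α x| + |β x|) ^ 2 := pow_le_pow_left₀ h0 h1 2
      refine h2.trans ?_
      have h3 : |α x| ^ 2 = α x ^ 2 := sq_abs _
      have h4 : |β x| ^ 2 = β x ^ 2 := sq_abs _
      nlinarith [sq_nonneg (2 * ea x - 2 * eb x), sq_nonneg (2 * ea x - |α x|),
        sq_nonneg (2 * ea x - |β x|), sq_nonneg (2 * eb x - |α x|), sq_nonneg (2 * eb x - |β x|),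
        sq_nonneg (|α x| - |β x|)]
    · rw [if_pos hab]
      have h1 : _ ≤ Ba x + Bb x := Z_le_on hpa hma hpb hmb hx
      have h2 := pow_le_pow_left₀ h0 h1 2
      refine h2.trans ?_
      nlinarith [sq_nonneg (Ba x - Bb x), sq_nonneg (ea x), sq_nonneg (eb x), sq_nonneg (α x),
        sq_nonneg (β x)]
  have hZs := Finset.sum_le_sum hZ
  rw [Finset.sum_add_distrib, Finset.sum_add_distrib, Finset.sum_add_distrib,
    Finset.sum_add_distrib, ← Finset.sum_filter, Finset.sum_add_distrib,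
    ← Finset.mul_sum, ← Finset.mul_sum, ← Finset.mul_sum, ← Finset.mul_sum, ← Finset.mul_sum,
    ← Finset.mul_sum] at hZs
  have hZc := mul_le_mul_of_nonneg_left hZs hpk.le
  have hmain : ε ^ 2 / 16 ≤ 2 * (c * ∑ x ∈ Pab, Ba x ^ 2) + 2 * (c * ∑ x ∈ Pab, Bb x ^ 2) +
      96 * δ := by
    refine (hlow.trans (hup.trans hZc)).trans ?_
    have : c * (16 * ∑ x ∈ X, ea x ^ 2 + 16 * ∑ x ∈ X, eb x ^ 2 + 4 * ∑ x ∈ X, α x ^ 2 +
        4 * ∑ x ∈ X, β x ^ 2 + (2 * ∑ x ∈ Pab, Ba x ^ 2 + 2 * ∑ x ∈ Pab, Bb x ^ 2)) =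
        16 * (c * ∑ x ∈ X, ea x ^ 2) + 16 * (c * ∑ x ∈ X, eb x ^ 2) + 4 * (c * ∑ x ∈ X, α x ^ 2) +
        4 * (c * ∑ x ∈ X, β x ^ 2) + (2 * (c * ∑ x ∈ Pab, Ba x ^ 2) +
          2 * (c * ∑ x ∈ Pab, Bb x ^ 2)) := by ring
    rw [this]
    linarith
  -- splitting
  have hsplit : ∀ f : List ℕ × List ℕ → ℝ, (∀ x, 0 ≤ f x) →
      c * ∑ x ∈ Pab, f x ≤ c * ∑ x ∈ Pa, f x + c * ∑ x ∈ Pb, f x := by
    intro f hf
    rw [← mul_add]
    refine mul_le_mul_of_nonneg_left ?_ hpk.le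
    have h1 : Pab ⊆ Pa ∪ Pb := by
      intro x hx
      rw [Finset.mem_union]
      by_cases h2 : σa x = σz x
      · refine Or.inr (Finset.mem_filter.2 ⟨hx, fun h3 => ?_⟩)
        exact (Finset.mem_filter.1 hx).2 (h2.trans h3.symm)
      · exact Or.inl (Finset.mem_filter.2 ⟨hx, h2⟩)
    calc ∑ x ∈ Pab, f x ≤ ∑ x ∈ Pa ∪ Pb, f x :=
          Finset.sum_le_sum_of_subset_of_nonneg h1 fun x _ _ => hf x
      _ ≤ ∑ x ∈ Pa ∪ Pb, f x + ∑ x ∈ Pa ∩ Pb, f x :=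
          le_add_of_nonneg_right (Finset.sum_nonneg fun x _ => hf x)
      _ = _ := Finset.sum_union_inter
  have hcomp : ∀ S ⊆ X, ∀ f g : List ℕ × List ℕ → ℝ,
      (∀ x, (f x - g x) ^ 2 ≤ 2 * α x ^ 2 + 2 * β x ^ 2) →
      c * ∑ x ∈ S, f x ^ 2 ≤ 2 * (c * ∑ x ∈ S, g x ^ 2) + 64 * δ := by
    intro S hS f g hfg
    have h1 : ∑ x ∈ S, f x ^ 2 ≤ 2 * ∑ x ∈ S, g x ^ 2 +
        (4 * ∑ x ∈ X, α x ^ 2 + 4 * ∑ x ∈ X, β x ^ 2) := by
      have h2 : ∑ x ∈ S, (4 * α x ^ 2 + 4 * β x ^ 2) ≤ ∑ x ∈ X, (4 * α x ^ 2 + 4 * β x ^ 2) :=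
        Finset.sum_le_sum_of_subset_of_nonneg hS fun x _ _ => by positivity
      rw [Finset.sum_add_distrib (s := X), ← Finset.mul_sum, ← Finset.mul_sum] at h2
      have h3 : ∑ x ∈ S, f x ^ 2 ≤ ∑ x ∈ S, (2 * g x ^ 2 + (4 * α x ^ 2 + 4 * β x ^ 2)) := by
        refine Finset.sum_le_sum fun x _ => ?_
        nlinarith [hfg x, sq_nonneg (f x - 2 * g x)]
      rw [Finset.sum_add_distrib, ← Finset.mul_sum] at h3
      linarith
    have h4 := mul_le_mul_of_nonneg_left h1 hpk.le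
    have h5 : c * (2 * ∑ x ∈ S, g x ^ 2 + (4 * ∑ x ∈ X, α x ^ 2 + 4 * ∑ x ∈ X, β x ^ 2)) =
        2 * (c * ∑ x ∈ S, g x ^ 2) + 4 * (c * ∑ x ∈ X, α x ^ 2) + 4 * (c * ∑ x ∈ X, β x ^ 2) := by
      ring
    rw [h5] at h4
    linarith
  have hBab : ∀ x, (Ba x - Bb x) ^ 2 ≤ 2 * α x ^ 2 + 2 * β x ^ 2 := by
    intro x
    have : Ba x - Bb x = α x + β x := by simp only [hBa, hBb, hα, hβ]; ring
    rw [this]
    nlinarith [sq_nonneg (α x - β x)]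
  have hBba : ∀ x, (Bb x - Ba x) ^ 2 ≤ 2 * α x ^ 2 + 2 * β x ^ 2 := by
    intro x
    have : (Bb x - Ba x) ^ 2 = (Ba x - Bb x) ^ 2 := by ring
    rw [this]; exact hBab x
  have s1 := hsplit (fun x => Ba x ^ 2) fun x => sq_nonneg _
  have s2 := hsplit (fun x => Bb x ^ 2) fun x => sq_nonneg _
  have s3 := hcomp Pb hPbX Ba Bb hBab
  have s4 := hcomp Pa hPaX Bb Ba hBba
  have hsum : 2 * (ε ^ 2 / 210) ≤ c * ∑ x ∈ Pa, Ba x ^ 2 + c * ∑ x ∈ Pb, Bb x ^ 2 := by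
    have : δ ≤ ε ^ 2 / 100000 := by
      have h : (10 : ℝ) ^ 5 = 100000 := by norm_num
      rw [h] at hδε; exact hδε
    nlinarith [sq_nonneg ε]
  rcases le_or_gt (ε ^ 2 / 210) (c * ∑ x ∈ Pa, Ba x ^ 2) with h | h
  · left
    exact select_side (hpb.add hmb) (hpz.add hmz) Ha Hb Hz da db dz Pa hPaX
      (fun x hx => (Finset.mem_filter.1 (Finset.mem_filter.1 hx).1).2)
      (fun x hx => (Finset.mem_filter.1 hx).2) h
  · right
    have h' : ε ^ 2 / 210 ≤ c * ∑ x ∈ Pb, Bb x ^ 2 := by linarith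
    exact select_side (hpa.add hma) (hpz.add hmz) Hb Ha Hz db da dz Pb hPbX
      (fun x hx => Ne.symm (Finset.mem_filter.1 (Finset.mem_filter.1 hx).1).2)
      (fun x hx => (Finset.mem_filter.1 hx).2) h'

end Par

end Pool.Agent.MPff6db8
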