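import Pool.Agent.MPff6db8.Cut
import Pool.Agent.MPff6db8.Select

/-! MP_ff6db8_an (frozen S06854). The core lemma. -/

set_option autoImplicit false

namespace Pool.Agent.MPff6db8

open Finset

namespace Par

variable (P : Par)

/-- The core lemma (from `cut` and `select`). -/
theorem core (A ε τ δ : ℝ) (hA : 1 ≤ A) (hε : 0 < ε) (hτ : 0 < τ) (hτε : τ ≤ ε / 16)
    (hδ : 0 < δ) (hδτ : δ ≤ τ ^ 2) (hδε : δ ≤ ε ^ 2 / 10 ^ 5)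
    (n0 k1 : ℕ) (hn : n0 ≤ k1) (hκ : ∀ k, k1 ≤ k → A * P.κ k ≤ τ)
    (ya yb pa ma pb mb pz mz : Nd → ℝ)
    (ha : P.Lift A τ ya pa ma) (hb : P.Lift A τ yb pb mb)
    (hz : P.Lift A τ (fun ν => (ya ν + yb ν) / 2) pz mz)
    (ta : ∀ k, n0 ≤ k → P.tot n0 pa ma - P.tot k pa ma ≤ δ)
    (tb : ∀ k, n0 ≤ k → P.tot n0 pb mb - P.tot k pb mb ≤ δ)
    (tz : ∀ k, n0 ≤ k → P.tot n0 pz mz - P.tot k pz mz ≤ δ)
    (hp : P.lv n0 (fun ν => (pa ν - pb ν) ^ 2) ≤ 8 * δ)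
    (hm : P.lv n0 (fun ν => (ma ν - mb ν) ^ 2) ≤ 8 * δ)
    (hfar : ε / 2 < P.nrm k1 (fun ν => ya ν - yb ν)) :
    (∃ p m, P.Lift A (12 * τ) ya p m ∧ P.tot (k1 + 2) p m ≤ P.tot n0 pa ma - ε ^ 2 / 500) ∨
    (∃ p m, P.Lift A (12 * τ) yb p m ∧ P.tot (k1 + 2) p m ≤ P.tot n0 pb mb - ε ^ 2 / 500) := by
  have w1 : ∀ {y p m : Nd → ℝ}, P.Lift A τ y p m → ∀ k l, k ≤ l →
      P.lv k (fun ν => (p ν + m ν) ^ 2) - P.lv l (fun ν => (p ν + m ν) ^ 2) ≤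
        P.tot k p m - P.tot l p m := by
    intro y p m h k l hkl
    obtain ⟨hp', hm', -, -⟩ := h
    have e1 := hp'.lv_sq_anti hkl
    have e2 := hm'.lv_sq_anti hkl
    unfold tot
    linarith
  have hA0 : 0 ≤ A := by linarith
  have hκ1 : A * P.κ k1 ≤ τ := hκ k1 le_rfl
  have hκ2 : ∀ k, k1 + 1 ≤ k → A * P.κ k ≤ τ := fun k hk => hκ k (by omega)
  have hn' : n0 ≤ k1 + 1 := by omega
  have key := P.select A ε τ δ hε hτ hτε hδ hδε n0 k1 hn hκ1 ya yb pa ma pb mb pz mz ha hb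
    hz.1 hz.2.1 ((w1 ha n0 (k1 + 1) hn').trans (ta _ hn')) ((w1 hb n0 (k1 + 1) hn').trans (tb _ hn'))
    ((w1 hz n0 (k1 + 1) hn').trans (tz _ hn')) hp hm hfar
  rcases key with ⟨R, hR, h1, h2, h3⟩ | ⟨R, hR, h1, h2, h3⟩
  · left
    have hloss : P.lv (k1 + 1) (fun ν => (pa ν + ma ν) ^ 2) -
        P.lv (k1 + 1 + 1) (fun ν => (pa ν + ma ν) ^ 2) ≤ δ := by
      refine (w1 ha (k1 + 1) (k1 + 1 + 1) (by omega)).trans ?_
      have e1 := P.tot_anti ha.1 ha.2.1 hn'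
      have e2 := ta (k1 + 1 + 1) (by omega)
      linarith
    obtain ⟨p, m, hl, ht⟩ := P.cut A τ δ (ε ^ 2 / 420 - δ) hA0 hτ hδ.le hδτ (k1 + 1) hκ2
      ya yb pa ma pb mb pz mz ha hb hz R hR h1 h2 h3 hloss
    refine ⟨p, m, hl, ?_⟩
    have e1 := P.tot_anti ha.1 ha.2.1 (show n0 ≤ k1 + 1 + 1 by omega)
    have e3 : P.tot (k1 + 2) p m ≤ P.tot (k1 + 1 + 1) pa ma - (ε ^ 2 / 420 - δ - δ) := ht
    nlinarith [sq_nonneg ε]
  · right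
    have hloss : P.lv (k1 + 1) (fun ν => (pb ν + mb ν) ^ 2) -
        P.lv (k1 + 1 + 1) (fun ν => (pb ν + mb ν) ^ 2) ≤ δ := by
      refine (w1 hb (k1 + 1) (k1 + 1 + 1) (by omega)).trans ?_
      have e1 := P.tot_anti hb.1 hb.2.1 hn'
      have e2 := tb (k1 + 1 + 1) (by omega)
      linarith
    have hz' : P.Lift A τ (fun ν => (yb ν + ya ν) / 2) pz mz := by
      have : (fun ν => (yb ν + ya ν) / 2) = (fun ν => (ya ν + yb ν) / 2) := by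
        funext ν
        ring
      rw [this]
      exact hz
    obtain ⟨p, m, hl, ht⟩ := P.cut A τ δ (ε ^ 2 / 420 - δ) hA0 hτ hδ.le hδτ (k1 + 1) hκ2
      yb ya pb mb pa ma pz mz hb ha hz' R hR h1 h2 h3 hloss
    refine ⟨p, m, hl, ?_⟩
    have e1 := P.tot_anti hb.1 hb.2.1 (show n0 ≤ k1 + 1 + 1 by omega)
    have e3 : P.tot (k1 + 2) p m ≤ P.tot (k1 + 1 + 1) pb mb - (ε ^ 2 / 420 - δ - δ) := ht
    nlinarith [sq_nonneg ε]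

end Par

end Pool.Agent.MPff6db8
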