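import Pool.Agent.MPff6db8.Flow

/-! MP_ff6db8_an (frozen S06854). Cutting a lift below a set of nodes. -/

set_option autoImplicit false

namespace Pool.Agent.MPff6db8

open Finset

/-- the ancestor of level `K` of a node of level at least `K` -/
def cutAnc (K : ℕ) (ν : Nd) : Nd := (ν.1.drop (ν.1.length - K), ν.2.drop (ν.2.length - K))

theorem cutAnc_child {K : ℕ} {ν : Nd} (h1 : K ≤ ν.1.length) (h2 : K ≤ ν.2.length) (i j : ℕ) :
    cutAnc K (i :: ν.1, j :: ν.2) = cutAnc K ν := by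
  unfold cutAnc
  simp only [List.length_cons]
  rw [show ν.1.length + 1 - K = (ν.1.length - K) + 1 by omega,
    show ν.2.length + 1 - K = (ν.2.length - K) + 1 by omega, List.drop_succ_cons,
    List.drop_succ_cons]

theorem cutAnc_self {K : ℕ} {ν : Nd} (h1 : ν.1.length ≤ K) (h2 : ν.2.length ≤ K) :
    cutAnc K ν = ν := by
  unfold cutAnc
  rw [show ν.1.length - K = 0 by omega, show ν.2.length - K = 0 by omega, List.drop_zero,
    List.drop_zero]

/-- cut a function strictly below the set `R` of nodes of level `K` -/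
def cutFun (K : ℕ) (R : Finset Nd) (v : Nd → ℝ) (ν : Nd) : ℝ :=
  if K < ν.1.length ∧ cutAnc K ν ∈ R then 0 else v ν

namespace Par

variable (P : Par)

theorem cut_len {P : Par} {k : ℕ} {ν : Nd} (h : ν ∈ P.Lev k) : ν.1.length = k ∧ ν.2.length = k := by
  rw [P.mem_Lev] at h
  exact ⟨P.length_of_mem_Col h.1, P.length_of_mem_His h.2⟩

/-- a child of `ν` is strictly below `R` iff `ν` is below `R` -/
theorem cut_child_iff {P : Par} {K k : ℕ} {R : Finset Nd} (hR : R ⊆ P.Lev K) {ν : Nd}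
    (h : ν ∈ P.Lev k) (i j : ℕ) :
    (K < (i :: ν.1).length ∧ cutAnc K (i :: ν.1, j :: ν.2) ∈ R) ↔ cutAnc K ν ∈ R := by
  obtain ⟨h1, h2⟩ := cut_len h
  by_cases hk : K ≤ k
  · rw [cutAnc_child (by omega) (by omega)]
    simp only [List.length_cons, h1, and_iff_right_iff_imp]
    intro _; omega
  · constructor
    · rintro ⟨h3, -⟩
      simp only [List.length_cons, h1] at h3
      omega
    · intro h3
      rw [cutAnc_self (by omega) (by omega)] at h3
      have := (cut_len (hR h3)).1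
      omega

theorem cutFun_child_of_mem {P : Par} {K k : ℕ} {R : Finset Nd} (hR : R ⊆ P.Lev K) {ν : Nd}
    (h : ν ∈ P.Lev k) (hν : cutAnc K ν ∈ R) (v : Nd → ℝ) (i j : ℕ) :
    cutFun K R v (i :: ν.1, j :: ν.2) = 0 := by
  unfold cutFun
  rw [if_pos]
  exact (cut_child_iff hR h i j).2 hν

theorem cutFun_child_of_not_mem {P : Par} {K k : ℕ} {R : Finset Nd} (hR : R ⊆ P.Lev K) {ν : Nd}
    (h : ν ∈ P.Lev k) (hν : cutAnc K ν ∉ R) (v : Nd → ℝ) (i j : ℕ) :
    cutFun K R v (i :: ν.1, j :: ν.2) = v (i :: ν.1, j :: ν.2) := by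
  unfold cutFun
  rw [if_neg]
  intro h'
  exact hν ((cut_child_iff hR h i j).1 h')

theorem cutFun_of_not_mem {K : ℕ} {R : Finset Nd} {ν : Nd}
    (hν : cutAnc K ν ∉ R) (v : Nd → ℝ) : cutFun K R v ν = v ν := by
  unfold cutFun
  rw [if_neg]
  exact fun h => hν h.2

theorem cutFun_nonneg {K : ℕ} {R : Finset Nd} {v : Nd → ℝ} (hv : ∀ ν, 0 ≤ v ν) (ν : Nd) :
    0 ≤ cutFun K R v ν := by
  unfold cutFun
  split_ifs
  · exact le_rfl
  · exact hv ν

theorem cutFun_le {K : ℕ} {R : Finset Nd} {v : Nd → ℝ} (hv : ∀ ν, 0 ≤ v ν) (ν : Nd) :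
    cutFun K R v ν ≤ v ν := by
  unfold cutFun
  split_ifs
  · exact hv ν
  · exact le_rfl

theorem IsFlow.cut {P : Par} {v : Nd → ℝ} (hv : P.IsFlow v) {K : ℕ} {R : Finset Nd}
    (hR : R ⊆ P.Lev K) : P.IsFlow (cutFun K R v) := by
  refine ⟨cutFun_nonneg hv.nonneg, ?_, ?_⟩
  · intro ν hν
    unfold cutFun
    split_ifs
    · rfl
    · exact hv.zero_off ν hν
  · intro k c hc s hs i hi
    have hm : ((c, s) : Nd) ∈ P.Lev k := P.mem_Lev.2 ⟨hc, hs⟩
    by_cases h : cutAnc K (c, s) ∈ R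
    · rw [Finset.sum_eq_zero]
      · exact cutFun_nonneg hv.nonneg _
      · intro j _
        exact cutFun_child_of_mem hR hm h v i j
    · rw [cutFun_of_not_mem h v]
      refine le_trans (le_of_eq ?_) (hv.sum_le k c hc s hs i hi)
      refine Finset.sum_congr rfl fun j _ => ?_
      exact cutFun_child_of_not_mem hR hm h v i j

theorem Lop_cutFun_of_mem {P : Par} {K k : ℕ} {R : Finset Nd} (hR : R ⊆ P.Lev K) {ν : Nd}
    (h : ν ∈ P.Lev k) (hν : cutAnc K ν ∈ R) (v : Nd → ℝ) :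
    P.Lop (cutFun K R v) ν = 0 := by
  unfold Lop
  rw [Finset.sum_eq_zero, mul_zero]
  intro i _
  refine Finset.sum_eq_zero fun j _ => ?_
  rw [cutFun_child_of_mem hR h hν v i j, mul_zero]

theorem Lop_cutFun_of_not_mem {P : Par} {K k : ℕ} {R : Finset Nd} (hR : R ⊆ P.Lev K) {ν : Nd}
    (h : ν ∈ P.Lev k) (hν : cutAnc K ν ∉ R) (v : Nd → ℝ) :
    P.Lop (cutFun K R v) ν = P.Lop v ν := by
  unfold Lop
  congr 1
  refine Finset.sum_congr rfl fun i _ => ?_
  refine Finset.sum_congr rfl fun j _ => ?_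
  rw [cutFun_child_of_not_mem hR h hν v i j]

/-- the indicator of the set of nodes equal to or below a node of `R` -/
noncomputable def cutInd (K : ℕ) (R : Finset Nd) (ν : Nd) : ℝ := if cutAnc K ν ∈ R then 1 else 0

/-- monotonicity of the mass below `R` -/
theorem cut_mass {P : Par} {w : Nd → ℝ} (hw : P.IsFlow w) {K : ℕ} {R : Finset Nd} {δ : ℝ}
    (hR : R ⊆ P.Lev K) (h : P.pk K * ∑ ν ∈ R, w ν ^ 2 ≤ δ) {k : ℕ} (hk : K ≤ k) :
    P.lv k (fun ν => (cutInd K R ν * w ν) ^ 2) ≤ δ := by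
  induction k, hk using Nat.le_induction with
  | base =>
    refine le_trans (le_of_eq ?_) h
    unfold lv
    congr 1
    rw [← Finset.sum_subset hR]
    · refine Finset.sum_congr rfl fun ν hν => ?_
      obtain ⟨h1, h2⟩ := cut_len (hR hν)
      unfold cutInd
      rw [cutAnc_self (by omega) (by omega), if_pos hν, one_mul]
    · intro ν hν hν'
      obtain ⟨h1, h2⟩ := cut_len hν
      unfold cutInd
      rw [cutAnc_self (by omega) (by omega), if_neg hν']
      ring
  | succ k hk ih =>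
    refine le_trans ?_ ih
    rw [P.lv_succ]
    refine P.lv_mono fun ν hν => ?_
    obtain ⟨h1, h2⟩ := cut_len hν
    have hch : ∀ i j, cutInd K R (i :: ν.1, j :: ν.2) = cutInd K R ν := by
      intro i j
      unfold cutInd
      rw [cutAnc_child (by omega) (by omega)]
    simp only [hch, mul_pow]
    have hs := hw.sq_child_le hν
    have e1 : (1 / (P.r k : ℝ)) * ∑ i ∈ range (P.r k), ∑ j ∈ range (P.n k),
        cutInd K R ν ^ 2 * w (i :: ν.1, j :: ν.2) ^ 2 = cutInd K R ν ^ 2 *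
        ((1 / (P.r k : ℝ)) * ∑ i ∈ range (P.r k), ∑ j ∈ range (P.n k),
        w (i :: ν.1, j :: ν.2) ^ 2) := by
      simp only [← Finset.mul_sum]
      ring
    rw [e1]
    exact mul_le_mul_of_nonneg_left hs (sq_nonneg _)

/-- the part of `y` below `R` is small -/
theorem cut_small {P : Par} {A τ δ : ℝ} (hτ : 0 < τ) (hδτ : δ ≤ τ ^ 2) {K : ℕ} {R : Finset Nd}
    (hR : R ⊆ P.Lev K) {y p m : Nd → ℝ} (h : P.Lift A τ y p m)
    (hRy : P.pk K * ∑ ν ∈ R, (p ν + m ν) ^ 2 ≤ δ) {k : ℕ} (hk : K ≤ k) :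
    P.nrm k (fun ν => cutInd K R ν * y ν) ≤ (τ + A * P.κ k) + τ := by
  obtain ⟨hp, hm, -, hn⟩ := h
  have hw := hp.add hm
  have h1 : P.nrm k (fun ν => cutInd K R ν * (p ν + m ν)) ≤ τ := by
    rw [P.nrm_le_iff hτ.le]
    exact le_trans (cut_mass hw hR hRy hk) hδτ
  have h2 : P.nrm k (fun ν => cutInd K R ν * (P.Lop p ν - P.Lop m ν)) ≤ τ := by
    refine le_trans (P.nrm_mono fun ν _ => ?_) h1
    rw [abs_mul, abs_mul]
    refine mul_le_mul_of_nonneg_left ?_ (abs_nonneg _)
    have e1 := hp.abs_Lop_le ν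
    have e2 := hm.abs_Lop_le ν
    calc |P.Lop p ν - P.Lop m ν| ≤ |P.Lop p ν| + |P.Lop m ν| := abs_sub _ _
      _ ≤ p ν + m ν := add_le_add e1 e2
      _ ≤ |p ν + m ν| := le_abs_self _
  have h3 : P.nrm k (fun ν => cutInd K R ν * (y ν - (P.Lop p ν - P.Lop m ν))) ≤ τ + A * P.κ k := by
    refine le_trans (P.nrm_mono fun ν _ => ?_) (hn k)
    rw [abs_mul]
    have : |cutInd K R ν| ≤ 1 := by
      unfold cutInd
      split_ifs <;> simp
    calc _ ≤ 1 * |y ν - (P.Lop p ν - P.Lop m ν)| := mul_le_mul_of_nonneg_right this (abs_nonneg _)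
      _ = _ := one_mul _
  have h4 : (fun ν => cutInd K R ν * y ν) = (fun ν =>
      cutInd K R ν * (y ν - (P.Lop p ν - P.Lop m ν)) +
        cutInd K R ν * (P.Lop p ν - P.Lop m ν)) := by
    funext ν; ring
  rw [h4]
  exact le_trans (P.nrm_add_le k _ _) (add_le_add h3 h2)

/-- Cutting a lift below a set `R` of nodes of level `K`. -/
theorem cut (A τ δ μ : ℝ) (hA : 0 ≤ A) (hτ : 0 < τ) (hδ : 0 ≤ δ) (hδτ : δ ≤ τ ^ 2)
    (K : ℕ) (hκ : ∀ k, K ≤ k → A * P.κ k ≤ τ)
    (ya yb pa ma pb mb pz mz : Nd → ℝ)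
    (ha : P.Lift A τ ya pa ma) (hb : P.Lift A τ yb pb mb)
    (hz : P.Lift A τ (fun ν => (ya ν + yb ν) / 2) pz mz)
    (R : Finset Nd) (hR : R ⊆ P.Lev K)
    (hRz : P.pk K * ∑ ν ∈ R, (pz ν + mz ν) ^ 2 ≤ δ)
    (hRb : P.pk K * ∑ ν ∈ R, (pb ν + mb ν) ^ 2 ≤ δ)
    (hRa : μ ≤ P.pk K * ∑ ν ∈ R, (pa ν + ma ν) ^ 2)
    (hloss : P.lv K (fun ν => (pa ν + ma ν) ^ 2) - P.lv (K + 1) (fun ν => (pa ν + ma ν) ^ 2) ≤ δ) :
    ∃ p m, P.Lift A (12 * τ) ya p m ∧ P.tot (K + 1) p m ≤ P.tot (K + 1) pa ma - (μ - δ) := by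
  have hfp := ha.1
  have hfm := ha.2.1
  have hroot := ha.2.2.1
  have hn := ha.2.2.2
  have hw := hfp.add hfm
  refine ⟨cutFun K R pa, cutFun K R ma, ⟨hfp.cut hR, hfm.cut hR, ?_, ?_⟩, ?_⟩
  · exact le_trans (add_le_add (cutFun_le hfp.nonneg _) (cutFun_le hfm.nonneg _)) hroot
  · intro k
    have hκ0 : 0 ≤ A * P.κ k := mul_nonneg hA (P.κ_pos k).le
    by_cases hk : K ≤ k
    · have hzs := cut_small hτ hδτ hR hz hRz hk
      have hbs := cut_small hτ hδτ hR hb hRb hk
      have hκk := hκ k hk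
      have h1 : P.nrm k (fun ν => 2 * (cutInd K R ν * ((ya ν + yb ν) / 2))) ≤
          2 * ((τ + A * P.κ k) + τ) := by
        rw [P.nrm_mul, abs_of_pos (by norm_num : (0:ℝ) < 2)]
        exact mul_le_mul_of_nonneg_left hzs (by norm_num)
      have h2 : P.nrm k (fun ν => cutInd K R ν * ya ν) ≤
          2 * ((τ + A * P.κ k) + τ) + ((τ + A * P.κ k) + τ) := by
        have e : (fun ν => cutInd K R ν * ya ν) = (fun ν =>
            2 * (cutInd K R ν * ((ya ν + yb ν) / 2)) - cutInd K R ν * yb ν) := by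
          funext ν; ring
        rw [e]
        exact le_trans (P.nrm_sub_le k _ _) (add_le_add h1 hbs)
      have h3 : P.nrm k (fun ν => (1 - cutInd K R ν) * (ya ν - (P.Lop pa ν - P.Lop ma ν))) ≤
          τ + A * P.κ k := by
        refine le_trans (P.nrm_mono fun ν _ => ?_) (hn k)
        rw [abs_mul]
        have : |1 - cutInd K R ν| ≤ 1 := by
          unfold cutInd
          split_ifs <;> simp
        calc _ ≤ 1 * |ya ν - (P.Lop pa ν - P.Lop ma ν)| :=
              mul_le_mul_of_nonneg_right this (abs_nonneg _)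
          _ = _ := one_mul _
      have h4 : P.nrm k (fun ν => ya ν - (P.Lop (cutFun K R pa) ν - P.Lop (cutFun K R ma) ν)) =
          P.nrm k (fun ν => (1 - cutInd K R ν) * (ya ν - (P.Lop pa ν - P.Lop ma ν)) +
            cutInd K R ν * ya ν) := by
        refine P.nrm_congr fun ν hν => ?_
        by_cases hm : cutAnc K ν ∈ R
        · rw [Lop_cutFun_of_mem hR hν hm, Lop_cutFun_of_mem hR hν hm]
          unfold cutInd
          rw [if_pos hm]
          ring
        · rw [Lop_cutFun_of_not_mem hR hν hm, Lop_cutFun_of_not_mem hR hν hm]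
          unfold cutInd
          rw [if_neg hm]
          ring
      rw [h4]
      refine le_trans (P.nrm_add_le k _ _) ?_
      linarith
    · have h4 : P.nrm k (fun ν => ya ν - (P.Lop (cutFun K R pa) ν - P.Lop (cutFun K R ma) ν)) =
          P.nrm k (fun ν => ya ν - (P.Lop pa ν - P.Lop ma ν)) := by
        refine P.nrm_congr fun ν hν => ?_
        have hm : cutAnc K ν ∉ R := by
          intro hm
          obtain ⟨h1, h2⟩ := cut_len hν
          rw [cutAnc_self (by omega) (by omega)] at hm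
          have := (cut_len (hR hm)).1
          omega
        rw [Lop_cutFun_of_not_mem hR hν hm, Lop_cutFun_of_not_mem hR hν hm]
      rw [h4]
      have := hn k
      linarith
  · -- mass
    have hK : P.pk K * ∑ ν ∈ R, (pa ν + ma ν) ^ 2 - δ ≤
        P.lv (K + 1) (fun ν => cutInd K R ν * (pa ν + ma ν) ^ 2) := by
      rw [P.lv_succ] at hloss ⊢
      have e1 : ∀ ν ∈ P.Lev K, (1 / (P.r K : ℝ)) * ∑ i ∈ range (P.r K), ∑ j ∈ range (P.n K),
          cutInd K R (i :: ν.1, j :: ν.2) * (pa (i :: ν.1, j :: ν.2) + ma (i :: ν.1, j :: ν.2)) ^ 2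
          = cutInd K R ν * ((1 / (P.r K : ℝ)) * ∑ i ∈ range (P.r K), ∑ j ∈ range (P.n K),
            (pa (i :: ν.1, j :: ν.2) + ma (i :: ν.1, j :: ν.2)) ^ 2) := by
        intro ν hν
        obtain ⟨h1, h2⟩ := cut_len hν
        have hch : ∀ i j, cutInd K R (i :: ν.1, j :: ν.2) = cutInd K R ν := by
          intro i j
          unfold cutInd
          rw [cutAnc_child (by omega) (by omega)]
        simp only [hch, ← Finset.mul_sum]
        ring
      rw [P.lv_congr e1]
      rw [← P.lv_sub] at hloss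
      have e2 : P.pk K * ∑ ν ∈ R, (pa ν + ma ν) ^ 2 =
          P.lv K (fun ν => cutInd K R ν * (pa ν + ma ν) ^ 2) := by
        unfold lv
        congr 1
        rw [← Finset.sum_subset hR]
        · refine Finset.sum_congr rfl fun ν hν => ?_
          obtain ⟨h1, h2⟩ := cut_len (hR hν)
          unfold cutInd
          rw [cutAnc_self (by omega) (by omega), if_pos hν, one_mul]
        · intro ν hν hν'
          obtain ⟨h1, h2⟩ := cut_len hν
          unfold cutInd
          rw [cutAnc_self (by omega) (by omega), if_neg hν']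
          ring
      rw [e2]
      have e3 : P.lv K (fun ν => cutInd K R ν * (pa ν + ma ν) ^ 2) -
          P.lv K (fun ν => cutInd K R ν * ((1 / (P.r K : ℝ)) * ∑ i ∈ range (P.r K),
            ∑ j ∈ range (P.n K), (pa (i :: ν.1, j :: ν.2) + ma (i :: ν.1, j :: ν.2)) ^ 2)) ≤ δ := by
        rw [← P.lv_sub]
        refine le_trans (P.lv_mono fun ν hν => ?_) hloss
        have hs := hw.sq_child_le hν
        have : (0:ℝ) ≤ 1 - cutInd K R ν := by
          unfold cutInd
          split_ifs <;> simp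
        nlinarith
      linarith
    have hT : P.tot (K + 1) (cutFun K R pa) (cutFun K R ma) ≤ P.tot (K + 1) pa ma -
        P.lv (K + 1) (fun ν => cutInd K R ν * (pa ν + ma ν) ^ 2) := by
      unfold tot
      have t1 : P.lv (K + 1) (fun ν => (cutFun K R pa ν + cutFun K R ma ν) ^ 2) =
          P.lv (K + 1) (fun ν => (pa ν + ma ν) ^ 2) -
          P.lv (K + 1) (fun ν => cutInd K R ν * (pa ν + ma ν) ^ 2) := by
        rw [← P.lv_sub]
        refine P.lv_congr fun ν hν => ?_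
        obtain ⟨h1, h2⟩ := cut_len hν
        unfold cutFun cutInd
        by_cases hm : cutAnc K ν ∈ R
        · rw [if_pos ⟨by omega, hm⟩, if_pos ⟨by omega, hm⟩, if_pos hm]
          ring
        · rw [if_neg (fun h => hm h.2), if_neg (fun h => hm h.2), if_neg hm]
          ring
      have t2 : P.lv (K + 1) (fun ν => cutFun K R pa ν ^ 2) ≤ P.lv (K + 1) (fun ν => pa ν ^ 2) := by
        refine P.lv_mono fun ν _ => ?_
        exact pow_le_pow_left₀ (cutFun_nonneg hfp.nonneg ν) (cutFun_le hfp.nonneg ν) 2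
      have t3 : P.lv (K + 1) (fun ν => cutFun K R ma ν ^ 2) ≤ P.lv (K + 1) (fun ν => ma ν ^ 2) := by
        refine P.lv_mono fun ν _ => ?_
        exact pow_le_pow_left₀ (cutFun_nonneg hfm.nonneg ν) (cutFun_le hfm.nonneg ν) 2
      linarith
    linarith

end Par

end Pool.Agent.MPff6db8
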