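import Mathlib

/-!
# MP_ff6db8_an : definitions (helper25)

Nodes are pairs (column, history) of lists, newest entry first: the children of `(c, s)` are
`(i :: c, j :: s)` with `i < r k`, `j < n k`, where `k` is the level of `(c, s)`.
-/

set_option autoImplicit false

namespace Pool.Agent.MPff6db8

open Finset

/-- nodes -/
abbrev Nd := List ℕ × List ℕ

/-- parameters of the tree -/
structure Par where
  r : ℕ → ℕ
  n : ℕ → ℕ
  lab : ℕ → ℕ → ℝ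
  κ : ℕ → ℝ
  r_pos : ∀ k, 0 < r k
  n_pos : ∀ k, 0 < n k
  lab_le : ∀ k j, |lab k j| ≤ 1
  κ_pos : ∀ k, 0 < κ k
  κ_le : ∀ k, κ k ≤ 1
  κ_lim : Filter.Tendsto κ Filter.atTop (nhds 0)

namespace Par

variable (P : Par)

/-- columns of level `k` -/
def Col : ℕ → Finset (List ℕ)
  | 0 => {[]}
  | (k + 1) => (range (P.r k) ×ˢ Col k).image (fun ic => ic.1 :: ic.2)

/-- histories of level `k` -/
def His : ℕ → Finset (List ℕ)
  | 0 => {[]}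
  | (k + 1) => (range (P.n k) ×ˢ His k).image (fun js => js.1 :: js.2)

/-- nodes of level `k` -/
def Lev (k : ℕ) : Finset Nd := P.Col k ×ˢ P.His k

/-- `ν` is a node of the tree -/
def Val (ν : Nd) : Prop := ν ∈ P.Lev ν.1.length

instance (ν : Nd) : Decidable (P.Val ν) := by unfold Val; infer_instance

/-- the weight of each column of level `k` -/
noncomputable def pk (k : ℕ) : ℝ := ∏ m ∈ range k, (1 / (P.r m : ℝ))

/-- level `k` integral -/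
noncomputable def lv (k : ℕ) (φ : Nd → ℝ) : ℝ := P.pk k * ∑ ν ∈ P.Lev k, φ ν

/-- level `k` norm -/
noncomputable def nrm (k : ℕ) (b : Nd → ℝ) : ℝ := Real.sqrt (P.lv k (fun ν => b ν ^ 2))

/-- weight of a node -/
noncomputable def wt (ν : Nd) : ℝ := if P.Val ν then P.pk ν.1.length else 0

/-- flows -/
structure IsFlow (v : Nd → ℝ) : Prop where
  nonneg : ∀ ν, 0 ≤ v ν
  zero_off : ∀ ν, ¬ P.Val ν → v ν = 0
  sum_le : ∀ k, ∀ c ∈ P.Col k, ∀ s ∈ P.His k, ∀ i < P.r k,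
    ∑ j ∈ range (P.n k), v (i :: c, j :: s) ≤ v (c, s)

/-- the operator `L` -/
noncomputable def Lop (v : Nd → ℝ) (ν : Nd) : ℝ :=
  (1 / (P.r ν.1.length : ℝ)) * ∑ i ∈ range (P.r ν.1.length), ∑ j ∈ range (P.n ν.1.length),
    P.lab ν.1.length j * v (i :: ν.1, j :: ν.2)

/-- `(p, m)` is a lift of `y` -/
def Lift (A τ : ℝ) (y p m : Nd → ℝ) : Prop :=
  P.IsFlow p ∧ P.IsFlow m ∧ p ([], []) + m ([], []) ≤ A ∧
    ∀ k, P.nrm k (fun ν => y ν - (P.Lop p ν - P.Lop m ν)) ≤ τ + A * P.κ k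

/-- the total mass -/
noncomputable def tot (k : ℕ) (p m : Nd → ℝ) : ℝ :=
  P.lv k (fun ν => (p ν + m ν) ^ 2) + P.lv k (fun ν => p ν ^ 2) + P.lv k (fun ν => m ν ^ 2)

/-- pairing of a function on the tree with a finitely supported one -/
noncomputable def pair (b : Nd → ℝ) (x : Nd →₀ ℝ) : ℝ := x.sum (fun ν t => P.wt ν * b ν * t)

/-- the set `W` -/
def InW (b : Nd → ℝ) : Prop := ∃ p m, P.Lift 1 0 b p m

/-- `τ_n` -/
noncomputable def tt (n : ℕ) : ℝ := (1 / 12 : ℝ) ^ (8 ^ n)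

/-- the set `U_n` -/
def InU (n : ℕ) (b : Nd → ℝ) : Prop := ∃ p m, P.Lift ((2 : ℝ) ^ n) (tt n) b p m

/-- the set of numbers whose infimum is `q x` -/
def qset (x : Nd →₀ ℝ) : Set ℝ :=
  {M | 0 ≤ M ∧ ∃ (N : ℕ) (ξ : ℕ → (Nd →₀ ℝ)), x = ∑ n ∈ range N, ξ n ∧
    ∀ n < N, ∀ b, P.InU n b → P.pair b (ξ n) ≤ M}

/-- the seminorm -/
noncomputable def q (x : Nd →₀ ℝ) : ℝ := sInf (P.qset x)

end Par

/-- the data of the function -/
structure Stage (P : Par) where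
  η : ℕ → ℝ
  Q : ℕ → ℕ → ℕ → ℝ → ℝ
  Q' : ℕ → ℕ → ℕ → ℝ → ℝ
  η_pos : ∀ k, 0 < η k
  η_succ : ∀ k, 128 * η (k + 1) ≤ η k
  Q_nonneg : ∀ k i j t, 0 ≤ Q k i j t
  Q_sum : ∀ k i t, i < P.r k → ∑ j ∈ range (P.n k), Q k i j t = 1
  Q_deriv : ∀ k i j t, HasDerivAt (Q k i j) (Q' k i j t) t
  Q_sq : ∀ k t, (P.r k : ℝ) - 1 ≤ ∑ i ∈ range (P.r k), ∑ j ∈ range (P.n k), Q k i j t ^ 2
  Q_lab : ∀ k i t, i < P.r k →
    |Real.cos (t / η k) - ∑ j ∈ range (P.n k), P.lab k j * Q k i j t| ≤ P.κ k / 2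
  Q_small : ∀ k t, (∑ i ∈ range (P.r k), ∑ j ∈ range (P.n k), |Q' k i j t|) * (2 * η (k + 1))
    ≤ P.r k * P.κ k / 2
  prod_r : ∀ K, 1 / 2 ≤ ∏ k ∈ range K, (1 - 1 / (P.r k : ℝ))

/-- the limit functions `F_ν`, `ν = (c, s)` of level `k` -/
structure IsLim {P : Par} (S : Stage P) (Φ : ℕ → List ℕ → List ℕ → (Nd → ℝ) → ℝ) : Prop where
  rec_eq : ∀ k c s z, Φ k c s z = S.η k * Real.sin (z (c, s) / S.η k) +
    (1 / (P.r k : ℝ)) * ∑ i ∈ range (P.r k), ∑ j ∈ range (P.n k),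
      S.Q k i j (z (c, s)) * Φ (k + 1) (i :: c) (j :: s) z
  bound : ∀ k c s z, |Φ k c s z| ≤ 2 * S.η k
  cont : ∀ k c s, Continuous (Φ k c s)
  local_eq : ∀ k c s z z', (∀ l l' : List ℕ, z (l ++ c, l' ++ s) = z' (l ++ c, l' ++ s)) →
    Φ k c s z = Φ k c s z'

end Pool.Agent.MPff6db8
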