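import Pool.Agent.MPff6db8.Flow

/-! MP_ff6db8_an (frozen S06854). The pairing and the seminorm. -/

set_option autoImplicit false

namespace Pool.Agent.MPff6db8

open Finset

namespace Par

variable (P : Par)

theorem pair_add (b : Nd → ℝ) (x y : Nd →₀ ℝ) : P.pair b (x + y) = P.pair b x + P.pair b y := by
  unfold pair
  apply Finsupp.sum_add_index'
  · intro ν
    exact mul_zero _
  · intro ν s t
    exact mul_add _ _ _

theorem pair_smul (b : Nd → ℝ) (a : ℝ) (x : Nd →₀ ℝ) : P.pair b (a • x) = a * P.pair b x := by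
  unfold pair
  rw [Finsupp.sum_smul_index (fun ν => mul_zero _), Finsupp.mul_sum]
  apply Finsupp.sum_congr
  intro ν _
  ring

private theorem pair_zero (b : Nd → ℝ) : P.pair b 0 = 0 := Finsupp.sum_zero_index

theorem pair_sum (b : Nd → ℝ) {ι : Type*} (s : Finset ι) (ξ : ι → (Nd →₀ ℝ)) :
    P.pair b (∑ n ∈ s, ξ n) = ∑ n ∈ s, P.pair b (ξ n) := by
  classical
  induction s using Finset.induction_on with
  | empty => simp [pair_zero]
  | insert a s ha ih => rw [Finset.sum_insert ha, Finset.sum_insert ha, pair_add, ih]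

theorem pair_single (b : Nd → ℝ) (ν : Nd) (t : ℝ) :
    P.pair b (Finsupp.single ν t) = P.wt ν * b ν * t := by
  unfold pair
  exact Finsupp.sum_single_index (mul_zero _)

theorem pair_add_left (b b' : Nd → ℝ) (x : Nd →₀ ℝ) :
    P.pair (fun ν => b ν + b' ν) x = P.pair b x + P.pair b' x := by
  unfold pair Finsupp.sum
  rw [← Finset.sum_add_distrib]
  apply Finset.sum_congr rfl
  intro ν _
  ring

theorem pair_sub_left (b b' : Nd → ℝ) (x : Nd →₀ ℝ) :
    P.pair (fun ν => b ν - b' ν) x = P.pair b x - P.pair b' x := by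
  unfold pair Finsupp.sum
  rw [← Finset.sum_sub_distrib]
  apply Finset.sum_congr rfl
  intro ν _
  ring

theorem pair_mul_left (a : ℝ) (b : Nd → ℝ) (x : Nd →₀ ℝ) :
    P.pair (fun ν => a * b ν) x = a * P.pair b x := by
  unfold pair Finsupp.sum
  rw [Finset.mul_sum]
  apply Finset.sum_congr rfl
  intro ν _
  ring

theorem continuous_pair (x : Nd →₀ ℝ) : Continuous (fun b : Nd → ℝ => P.pair b x) := by
  unfold pair Finsupp.sum
  apply continuous_finset_sum
  intro ν _
  exact (continuous_const.mul (continuous_apply ν)).mul continuous_const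

/-- splitting the pairing by levels -/
theorem pair_eq_sum_lv (b : Nd → ℝ) (x : Nd →₀ ℝ) (N : ℕ)
    (hN : ∀ ν, N ≤ ν.1.length → x ν = 0) :
    P.pair b x = ∑ k ∈ range N, P.lv k (fun ν => b ν * x ν) := by
  classical
  have h1 : ∀ k ∈ range N, P.lv k (fun ν => b ν * x ν) =
      ∑ ν ∈ P.Lev k, P.wt ν * b ν * x ν := by
    intro k _
    unfold lv
    rw [Finset.mul_sum]
    apply Finset.sum_congr rfl
    intro ν hν
    rw [P.wt_of_mem hν]
    ring
  rw [Finset.sum_congr rfl h1]
  have hdisj : Set.PairwiseDisjoint (↑(range N)) (fun k => P.Lev k) := by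
    intro k _ l _ hkl
    rw [Function.onFun, Finset.disjoint_left]
    intro ν hν hν'
    exact hkl ((P.mem_Lev_iff.mp hν).2.symm.trans (P.mem_Lev_iff.mp hν').2)
  rw [← Finset.sum_biUnion hdisj]
  unfold pair Finsupp.sum
  have e1 : ∑ ν ∈ x.support, P.wt ν * b ν * x ν =
      ∑ ν ∈ x.support ∪ (range N).biUnion (fun k => P.Lev k), P.wt ν * b ν * x ν := by
    apply Finset.sum_subset Finset.subset_union_left
    intro ν _ hν
    rw [Finsupp.notMem_support_iff.mp hν, mul_zero]
  have e2 : ∑ ν ∈ (range N).biUnion (fun k => P.Lev k), P.wt ν * b ν * x ν =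
      ∑ ν ∈ x.support ∪ (range N).biUnion (fun k => P.Lev k), P.wt ν * b ν * x ν := by
    apply Finset.sum_subset Finset.subset_union_right
    intro ν _ hν
    by_cases hv : P.Val ν
    · have h2 : N ≤ ν.1.length := by
        by_contra hc
        push Not at hc
        apply hν
        rw [Finset.mem_biUnion]
        exact ⟨ν.1.length, Finset.mem_range.mpr hc, hv⟩
      rw [hN ν h2, mul_zero]
    · have h2 : P.wt ν = 0 := by
        unfold wt
        rw [if_neg hv]
      rw [h2, zero_mul, zero_mul]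
  rw [e1, e2]

private theorem exists_level (x : Nd →₀ ℝ) : ∃ N : ℕ, ∀ ν, N ≤ ν.1.length → x ν = 0 := by
  classical
  refine ⟨x.support.sup (fun ν => ν.1.length) + 1, fun ν hν => ?_⟩
  by_contra hc
  have h1 : ν ∈ x.support := Finsupp.mem_support_iff.mpr hc
  have h2 : ν.1.length ≤ x.support.sup (fun ν => ν.1.length) :=
    Finset.le_sup (f := fun ν : Nd => ν.1.length) h1
  omega

private theorem tt_pos (n : ℕ) : 0 < tt n := by
  unfold tt
  positivity

private theorem nrm_of_InU_zero {b : Nd → ℝ} (hb : P.InU 0 b) (k : ℕ) : P.nrm k b ≤ 3 := by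
  obtain ⟨p, m, h⟩ := hb
  have h1 := h.nrm_le k
  have h2 : tt 0 = 1 / 12 := by
    unfold tt
    norm_num
  have h3 := P.κ_le k
  rw [h2] at h1
  norm_num at h1
  linarith

private theorem qset_nonempty (x : Nd →₀ ℝ) : (P.qset x).Nonempty := by
  obtain ⟨N, hN⟩ := exists_level x
  refine ⟨∑ k ∈ range N, 3 * P.nrm k x, ?_, 1, fun _ => x, by simp, ?_⟩
  · exact Finset.sum_nonneg fun k _ => mul_nonneg (by norm_num) (P.nrm_nonneg k x)
  · intro n hn b hb
    have hn0 : n = 0 := by omega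
    rw [hn0] at hb
    rw [P.pair_eq_sum_lv b x N hN]
    apply Finset.sum_le_sum
    intro k _
    refine (P.lv_mul_le k b x).trans ?_
    exact mul_le_mul_of_nonneg_right (P.nrm_of_InU_zero hb k) (P.nrm_nonneg k x)

private theorem qset_bddBelow (x : Nd →₀ ℝ) : BddBelow (P.qset x) := ⟨0, fun _ hM => hM.1⟩

private theorem q_le_of_mem {x : Nd →₀ ℝ} {M : ℝ} (h : M ∈ P.qset x) : P.q x ≤ M :=
  csInf_le (P.qset_bddBelow x) h

private theorem exists_mem_lt {x : Nd →₀ ℝ} {M : ℝ} (h : P.q x < M) :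
    ∃ M' ∈ P.qset x, M' < M := exists_lt_of_csInf_lt (P.qset_nonempty x) h

theorem q_nonneg (x : Nd →₀ ℝ) : 0 ≤ P.q x := Real.sInf_nonneg fun _ hM => hM.1

theorem q_zero : P.q 0 = 0 := by
  apply le_antisymm _ (P.q_nonneg 0)
  apply P.q_le_of_mem
  refine ⟨le_refl _, 0, fun _ => 0, by simp, fun n hn => ?_⟩
  omega

theorem q_add_le (x y : Nd →₀ ℝ) : P.q (x + y) ≤ P.q x + P.q y := by
  have key : ∀ M ∈ P.qset x, ∀ M' ∈ P.qset y, M + M' ∈ P.qset (x + y) := by
    rintro M ⟨hM, N, ξ, hx, hξ⟩ M' ⟨hM', N', ξ', hy, hξ'⟩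
    refine ⟨add_nonneg hM hM', max N N', fun n => (if n < N then ξ n else 0) +
      (if n < N' then ξ' n else 0), ?_, ?_⟩
    · have aux : ∀ (K L : ℕ) (ζ : ℕ → (Nd →₀ ℝ)), K ≤ L →
          ∑ n ∈ range L, (if n < K then ζ n else 0) = ∑ n ∈ range K, ζ n := by
        intro K L ζ hKL
        rw [← Finset.sum_subset (Finset.range_subset_range.mpr hKL)
          (f := fun n => if n < K then ζ n else 0)]
        · apply Finset.sum_congr rfl
          intro n hn
          rw [if_pos (Finset.mem_range.mp hn)]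
        · intro n _ hn
          rw [if_neg (fun h => hn (Finset.mem_range.mpr h))]
      rw [Finset.sum_add_distrib, aux N _ ξ (le_max_left _ _), aux N' _ ξ' (le_max_right _ _),
        ← hx, ← hy]
    · intro n _ b hb
      rw [P.pair_add]
      apply add_le_add
      · by_cases h : n < N
        · rw [if_pos h]
          exact hξ n h b hb
        · rw [if_neg h, P.pair_zero]
          exact hM
      · by_cases h : n < N'
        · rw [if_pos h]
          exact hξ' n h b hb
        · rw [if_neg h, P.pair_zero]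
          exact hM'
  apply le_of_forall_pos_le_add
  intro ε hε
  obtain ⟨M, hM, hM1⟩ := P.exists_mem_lt (x := x) (M := P.q x + ε / 2) (by linarith)
  obtain ⟨M', hM', hM1'⟩ := P.exists_mem_lt (x := y) (M := P.q y + ε / 2) (by linarith)
  have := P.q_le_of_mem (key M hM M' hM')
  linarith

private theorem InU_neg {n : ℕ} {b : Nd → ℝ} (hb : P.InU n b) : P.InU n (fun ν => - b ν) := by
  obtain ⟨p, m, h⟩ := hb
  exact ⟨m, p, h.neg⟩

private theorem pair_neg_left (b : Nd → ℝ) (x : Nd →₀ ℝ) :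
    P.pair (fun ν => - b ν) x = - P.pair b x := by
  have h := P.pair_mul_left (-1) b x
  simp only [neg_mul, one_mul] at h
  exact h

private theorem q_smul_le (a : ℝ) (x : Nd →₀ ℝ) : P.q (a • x) ≤ |a| * P.q x := by
  have key : ∀ M ∈ P.qset x, |a| * M ∈ P.qset (a • x) := by
    rintro M ⟨hM, N, ξ, hx, hξ⟩
    refine ⟨mul_nonneg (abs_nonneg _) hM, N, fun n => a • ξ n, ?_, ?_⟩
    · rw [hx, Finset.smul_sum]
    · intro n hn b hb
      rw [P.pair_smul]
      rcases le_total 0 a with ha | ha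
      · rw [abs_of_nonneg ha]
        exact mul_le_mul_of_nonneg_left (hξ n hn b hb) ha
      · rw [abs_of_nonpos ha]
        have h1 := hξ n hn _ (P.InU_neg hb)
        rw [P.pair_neg_left] at h1
        have h2 := mul_le_mul_of_nonneg_left h1 (neg_nonneg.mpr ha)
        linarith
  rcases eq_or_lt_of_le (abs_nonneg a) with ha | ha
  · have ha0 : a = 0 := abs_eq_zero.mp ha.symm
    rw [ha0, zero_smul, P.q_zero, abs_zero, zero_mul]
  · apply le_of_forall_pos_le_add
    intro ε hε
    obtain ⟨M, hM, hM1⟩ := P.exists_mem_lt (x := x) (M := P.q x + ε / |a|)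
      (by linarith [div_pos hε ha])
    have h1 := P.q_le_of_mem (key M hM)
    have h2 : |a| * M ≤ |a| * (P.q x + ε / |a|) := mul_le_mul_of_nonneg_left hM1.le ha.le
    have h3 : |a| * (P.q x + ε / |a|) = |a| * P.q x + ε := by field_simp
    linarith

theorem q_smul (a : ℝ) (x : Nd →₀ ℝ) : P.q (a • x) = |a| * P.q x := by
  apply le_antisymm (P.q_smul_le a x)
  by_cases ha : a = 0
  · rw [ha, abs_zero, zero_mul]
    exact P.q_nonneg _
  · have h1 := P.q_smul_le a⁻¹ (a • x)
    rw [smul_smul, inv_mul_cancel₀ ha, one_smul, abs_inv] at h1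
    have h2 : 0 < |a| := abs_pos.mpr ha
    calc |a| * P.q x ≤ |a| * (|a|⁻¹ * P.q (a • x)) := mul_le_mul_of_nonneg_left h1 h2.le
      _ = P.q (a • x) := by rw [← mul_assoc, mul_inv_cancel₀ h2.ne', one_mul]

theorem q_le_of (n : ℕ) (x : Nd →₀ ℝ) (M : ℝ) (hM : 0 ≤ M)
    (h : ∀ b, P.InU n b → P.pair b x ≤ M) : P.q x ≤ M := by
  apply P.q_le_of_mem
  refine ⟨hM, n + 1, fun i => if i = n then x else 0, ?_, ?_⟩
  · rw [Finset.sum_ite_eq' (range (n + 1)) n (fun _ => x), if_pos (Finset.mem_range.mpr (by omega))]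
  · intro i _ b hb
    by_cases hi : i = n
    · simp only [if_pos hi]
      rw [hi] at hb
      exact h b hb
    · simp only [if_neg hi]
      rw [P.pair_zero]
      exact hM

theorem exists_of_q_lt (x : Nd →₀ ℝ) (M : ℝ) (h : P.q x < M) :
    ∃ (N : ℕ) (ξ : ℕ → (Nd →₀ ℝ)), x = ∑ n ∈ range N, ξ n ∧
      ∀ n < N, ∀ b, P.InU n b → P.pair b (ξ n) ≤ M := by
  obtain ⟨M', ⟨_, N, ξ, hx, hξ⟩, hM1⟩ := P.exists_mem_lt h
  exact ⟨N, ξ, hx, fun n hn b hb => (hξ n hn b hb).trans hM1.le⟩

private theorem InW_neg {w : Nd → ℝ} (hw : P.InW w) : P.InW (fun ν => - w ν) := by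
  obtain ⟨p, m, h⟩ := hw
  exact ⟨m, p, h.neg⟩

private theorem InW_scale {w : Nd → ℝ} (hw : P.InW w) (n : ℕ) :
    P.InU n (fun ν => (2 : ℝ) ^ n * w ν) := by
  obtain ⟨p, m, h⟩ := hw
  have h1 := h.scale (R := (2 : ℝ) ^ n) (by positivity)
  exact ⟨_, _, h1.mono (by simp) (by simp [(tt_pos n).le])⟩

theorem abs_pair_le {w : Nd → ℝ} (hw : P.InW w) (x : Nd →₀ ℝ) : |P.pair w x| ≤ 2 * P.q x := by
  have key : ∀ M, P.q x < M → |P.pair w x| ≤ 2 * M := by
    intro M hM
    have hM0 : 0 ≤ M := (P.q_nonneg x).trans hM.le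
    obtain ⟨N, ξ, hx, hξ⟩ := P.exists_of_q_lt x M hM
    have h1 : ∀ n ∈ range N, |P.pair w (ξ n)| ≤ M * (1 / 2) ^ n := by
      intro n hn
      have hn' := Finset.mem_range.mp hn
      have h2 := hξ n hn' _ (P.InW_scale hw n)
      have h3 := hξ n hn' _ (P.InW_scale (P.InW_neg hw) n)
      rw [P.pair_mul_left] at h2 h3
      rw [P.pair_neg_left] at h3
      have h4 : (0 : ℝ) < 2 ^ n := by positivity
      have h5 : M * (1 / 2 : ℝ) ^ n = M / 2 ^ n := by
        rw [one_div, inv_pow]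
        rfl
      rw [h5, abs_le]
      constructor
      · rw [neg_le, le_div_iff₀ h4]
        linarith
      · rw [le_div_iff₀ h4]
        linarith
    rw [hx, P.pair_sum]
    calc |∑ n ∈ range N, P.pair w (ξ n)| ≤ ∑ n ∈ range N, |P.pair w (ξ n)| :=
          Finset.abs_sum_le_sum_abs _ _
      _ ≤ ∑ n ∈ range N, M * (1 / 2) ^ n := Finset.sum_le_sum h1
      _ = M * ∑ n ∈ range N, (1 / 2 : ℝ) ^ n := by rw [Finset.mul_sum]
      _ ≤ M * 2 := by
          apply mul_le_mul_of_nonneg_left _ hM0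
          have h6 := geom_sum_eq (x := (1 / 2 : ℝ)) (by norm_num) N
          rw [h6]
          have h7 : (0 : ℝ) < (1 / 2) ^ N := by positivity
          have h8 : (((1 / 2 : ℝ)) ^ N - 1) / (1 / 2 - 1) = 2 * (1 - (1 / 2) ^ N) := by
            ring
          rw [h8]
          linarith
      _ = 2 * M := by ring
  by_contra hc
  push Not at hc
  have h1 := key ((P.q x + |P.pair w x| / 2) / 2) (by linarith)
  linarith

theorem coord_bound (ν : Nd) (hν : P.Val ν) : ∃ C : ℝ, 0 ≤ C ∧ ∀ x : Nd →₀ ℝ, |x ν| ≤ C * P.q x := by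
  classical
  set k := ν.1.length with hk
  have hmem : ν ∈ P.Lev k := hν
  have hκ := P.κ_pos k
  have hpk := P.pk_pos k
  set w : Nd → ℝ := fun μ => if μ = ν then P.κ k else 0 with hw
  have hW : P.InW w := by
    refine ⟨fun _ => 0, fun _ => 0, P.isFlow_zero, P.isFlow_zero, by norm_num, fun l => ?_⟩
    have h0 : ∀ μ, P.Lop (fun _ => 0) μ = 0 := by
      intro μ
      simp [Lop]
    simp only [h0, sub_zero]
    rw [zero_add, one_mul]
    by_cases hl : l = k
    · rw [hl, P.nrm_le_iff hκ.le]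
      unfold lv
      have h1 : ∑ μ ∈ P.Lev k, w μ ^ 2 = P.κ k ^ 2 := by
        rw [Finset.sum_eq_single_of_mem ν hmem]
        · rw [hw]
          simp
        · intro μ _ hμ
          rw [hw]
          simp [hμ]
      rw [h1]
      have h2 := P.pk_le_one k
      nlinarith [sq_nonneg (P.κ k)]
    · have h1 : P.nrm l w = P.nrm l (fun _ => 0) := by
        apply P.nrm_congr
        intro μ hμ
        have h2 : μ ≠ ν := by
          intro h3
          apply hl
          rw [← (P.mem_Lev_iff.mp hμ).2, h3]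
        rw [hw]
        simp [h2]
      rw [h1, P.nrm_zero]
      exact (P.κ_pos l).le
  refine ⟨2 / (P.pk k * P.κ k), by positivity, fun x => ?_⟩
  have h1 := P.abs_pair_le hW x
  have h2 : P.pair w x = P.pk k * P.κ k * x ν := by
    unfold pair Finsupp.sum
    have h3 : ∀ μ ∈ x.support, μ ≠ ν → P.wt μ * w μ * x μ = 0 := by
      intro μ _ hμ
      rw [hw]
      simp [hμ]
    rw [Finset.sum_eq_single ν h3]
    · rw [P.wt_of_mem hmem, hw]
      simp
    · intro h4
      rw [Finsupp.notMem_support_iff.mp h4, mul_zero]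
  rw [h2, abs_mul, abs_of_pos (by positivity : 0 < P.pk k * P.κ k)] at h1
  rw [div_mul_eq_mul_div, le_div_iff₀ (by positivity)]
  linarith

theorem q_eq_zero (x : Nd →₀ ℝ) (h : ∀ ν, P.Val ν → x ν = 0) : P.q x = 0 := by
  apply le_antisymm _ (P.q_nonneg x)
  apply P.q_le_of 0 x 0 (le_refl _)
  intro b _
  apply le_of_eq
  unfold pair Finsupp.sum
  apply Finset.sum_eq_zero
  intro ν _
  by_cases hv : P.Val ν
  · show P.wt ν * b ν * x ν = 0
    rw [h ν hv, mul_zero]
  · have h2 : P.wt ν = 0 := by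
      unfold wt
      rw [if_neg hv]
    show P.wt ν * b ν * x ν = 0
    rw [h2, zero_mul, zero_mul]

theorem q_level (k : ℕ) (h : Nd →₀ ℝ) (hh : ∀ ν, ν ∉ P.Lev k → h ν = 0) :
    P.q h ≤ 4 * P.nrm k h := by
  have hn := P.nrm_nonneg k h
  apply P.q_le_of 0 h _ (by positivity)
  intro b hb
  rw [P.pair_eq_sum_lv b h (k + 1)]
  · have h1 : ∑ l ∈ range (k + 1), P.lv l (fun ν => b ν * h ν) = P.lv k (fun ν => b ν * h ν) := by
      apply Finset.sum_eq_single_of_mem k (Finset.mem_range.mpr (by omega))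
      intro l _ hl
      unfold lv
      rw [Finset.sum_eq_zero, mul_zero]
      intro ν hν
      rw [hh ν, mul_zero]
      intro h2
      exact hl ((P.mem_Lev_iff.mp hν).2.symm.trans (P.mem_Lev_iff.mp h2).2)
    rw [h1]
    refine (P.lv_mul_le k b h).trans ?_
    have h3 := mul_le_mul_of_nonneg_right (P.nrm_of_InU_zero hb k) hn
    linarith
  · intro ν hν
    apply hh
    intro h2
    have := (P.mem_Lev_iff.mp h2).2
    omega

end Par

end Pool.Agent.MPff6db8
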