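import Pool.Agent.MPff6db8.Prop
import Pool.Agent.MPff6db8.Qnorm

/-! MP_ff6db8_an (frozen S06854). The derivative. -/

set_option autoImplicit false

namespace Pool.Agent.MPff6db8

open Finset

theorem abs_BB_sub_le {P : Par} (S : Stage P) (Φ : ℕ → List ℕ → List ℕ → (Nd → ℝ) → ℝ)
    (hΦ : IsLim S Φ) (z : Nd → ℝ) {k : ℕ} {ν : Nd} (hν : ν ∈ P.Lev k) :
    |BB S Φ z ν - P.Lop (PP S z) ν| ≤ P.κ k * PP S z ν := by
  have hl : ν.1.length = k := length_of_mem_Lev hν
  have hr : (0 : ℝ) < P.r k := by exact_mod_cast P.r_pos k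
  have hκ := P.κ_pos k
  have e1 : P.Lop (PP S z) ν = PP S z ν * ((1 / (P.r k : ℝ)) *
      ∑ i ∈ range (P.r k), ∑ j ∈ range (P.n k), P.lab k j * S.Q k i j (z ν)) := by
    simp only [Par.Lop, hl]
    have : ∑ i ∈ range (P.r k), ∑ j ∈ range (P.n k), P.lab k j * PP S z (i :: ν.1, j :: ν.2) =
        PP S z ν * ∑ i ∈ range (P.r k), ∑ j ∈ range (P.n k), P.lab k j * S.Q k i j (z ν) := by
      rw [Finset.mul_sum]
      refine Finset.sum_congr rfl fun i hi => ?_
      rw [Finset.mul_sum]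
      refine Finset.sum_congr rfl fun j hj => ?_
      rw [PP_child S z (c := ν.1) (s := ν.2) hν (Finset.mem_range.1 hi) (Finset.mem_range.1 hj)]
      ring
    rw [this]; ring
  have e2 : BB S Φ z ν = PP S z ν * (Real.cos (z ν / S.η k) + (1 / (P.r k : ℝ)) *
      ∑ i ∈ range (P.r k), ∑ j ∈ range (P.n k),
        S.Q' k i j (z ν) * Φ (k + 1) (i :: ν.1) (j :: ν.2) z) := by
    simp only [BB, hl]
  set C := Real.cos (z ν / S.η k) with hC
  set A1 := ∑ i ∈ range (P.r k), ∑ j ∈ range (P.n k), P.lab k j * S.Q k i j (z ν) with hA1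
  set A2 := ∑ i ∈ range (P.r k), ∑ j ∈ range (P.n k),
        S.Q' k i j (z ν) * Φ (k + 1) (i :: ν.1) (j :: ν.2) z with hA2
  -- first part
  have h1 : |C * P.r k - A1| ≤ P.r k * (P.κ k / 2) := by
    have : C * P.r k - A1 = ∑ i ∈ range (P.r k),
        (C - ∑ j ∈ range (P.n k), P.lab k j * S.Q k i j (z ν)) := by
      rw [Finset.sum_sub_distrib, Finset.sum_const, Finset.card_range, nsmul_eq_mul, hA1]
      ring
    rw [this]
    refine (Finset.abs_sum_le_sum_abs _ _).trans ?_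
    have : ∀ i ∈ range (P.r k), |C - ∑ j ∈ range (P.n k), P.lab k j * S.Q k i j (z ν)| ≤
        P.κ k / 2 := fun i hi => S.Q_lab k i (z ν) (Finset.mem_range.1 hi)
    refine (Finset.sum_le_sum this).trans ?_
    rw [Finset.sum_const, Finset.card_range, nsmul_eq_mul]
  -- second part
  have h2 : |A2| ≤ P.r k * P.κ k / 2 := by
    have : |A2| ≤ (∑ i ∈ range (P.r k), ∑ j ∈ range (P.n k), |S.Q' k i j (z ν)|) *
        (2 * S.η (k + 1)) := by
      rw [hA2, Finset.sum_mul]
      refine (Finset.abs_sum_le_sum_abs _ _).trans (Finset.sum_le_sum fun i _ => ?_)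
      rw [Finset.sum_mul]
      refine (Finset.abs_sum_le_sum_abs _ _).trans (Finset.sum_le_sum fun j _ => ?_)
      rw [abs_mul]
      exact mul_le_mul_of_nonneg_left (hΦ.bound _ _ _ _) (abs_nonneg _)
    exact this.trans (S.Q_small k (z ν))
  rw [e1, e2]
  have e3 : PP S z ν * (C + 1 / (P.r k : ℝ) * A2) - PP S z ν * (1 / (P.r k : ℝ) * A1) =
      PP S z ν * ((1 / (P.r k : ℝ)) * ((C * P.r k - A1) + A2)) := by
    field_simp
    ring
  rw [e3, abs_mul, abs_mul, abs_of_nonneg (PP_nonneg S z ν),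
    abs_of_nonneg (by positivity : (0 : ℝ) ≤ 1 / (P.r k : ℝ)), mul_comm (P.κ k)]
  refine mul_le_mul_of_nonneg_left ?_ (PP_nonneg S z ν)
  have h3 : |(C * P.r k - A1) + A2| ≤ P.r k * P.κ k := by
    refine (abs_add_le _ _).trans ?_
    linarith
  calc 1 / (P.r k : ℝ) * |(C * P.r k - A1) + A2| ≤ 1 / (P.r k : ℝ) * (P.r k * P.κ k) :=
        mul_le_mul_of_nonneg_left h3 (by positivity)
    _ = P.κ k := by field_simp

/-- package G2 (file Deriv.lean) -/
theorem BB_inW {P : Par} (S : Stage P) (Φ : ℕ → List ℕ → List ℕ → (Nd → ℝ) → ℝ)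
    (hΦ : IsLim S Φ) (z : Nd → ℝ) : P.InW (BB S Φ z) := by
  refine ⟨PP S z, fun _ => 0, PP_isFlow S z, P.isFlow_zero, ?_, fun k => ?_⟩
  · rw [PP_root]; norm_num
  · have h0 : ∀ ν, P.Lop (fun _ => 0) ν = 0 := fun ν => by simp [Par.Lop]
    have hκ := P.κ_pos k
    have h1 : P.nrm k (fun ν => BB S Φ z ν - (P.Lop (PP S z) ν - P.Lop (fun _ => 0) ν)) ≤
        P.nrm k (fun ν => P.κ k * PP S z ν) := by
      refine P.nrm_mono fun ν hν => ?_
      rw [h0, sub_zero, abs_of_nonneg (mul_nonneg hκ.le (PP_nonneg S z ν))]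
      exact abs_BB_sub_le S Φ hΦ z hν
    refine h1.trans ?_
    rw [P.nrm_mul, abs_of_pos hκ, zero_add, one_mul]
    have h2 := (PP_isFlow S z).nrm_le_root k
    rw [PP_root] at h2
    calc P.κ k * P.nrm k (PP S z) ≤ P.κ k * 1 := mul_le_mul_of_nonneg_left h2 hκ.le
      _ = P.κ k := mul_one _

/-- the derivatives of the functions `Φ k c s` in the direction `h`; `d` is the distance to the
level below which `h` vanishes -/
noncomputable def DD {P : Par} (S : Stage P) (Φ : ℕ → List ℕ → List ℕ → (Nd → ℝ) → ℝ)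
    (z : Nd → ℝ) (h : Nd →₀ ℝ) : ℕ → Nd → ℝ
  | 0, _ => 0
  | (d + 1), ν => (Real.cos (z ν / S.η ν.1.length) + (1 / (P.r ν.1.length : ℝ)) *
      ∑ i ∈ range (P.r ν.1.length), ∑ j ∈ range (P.n ν.1.length),
        S.Q' ν.1.length i j (z ν) * Φ (ν.1.length + 1) (i :: ν.1) (j :: ν.2) z) * h ν +
      (1 / (P.r ν.1.length : ℝ)) *
      ∑ i ∈ range (P.r ν.1.length), ∑ j ∈ range (P.n ν.1.length),
        S.Q ν.1.length i j (z ν) * DD S Φ z h d (i :: ν.1, j :: ν.2)

theorem hasDerivAt_DD {P : Par} (S : Stage P) (Φ : ℕ → List ℕ → List ℕ → (Nd → ℝ) → ℝ)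
    (hΦ : IsLim S Φ) (z : Nd → ℝ) (h : Nd →₀ ℝ) (N : ℕ)
    (hN : ∀ ν : Nd, N ≤ ν.1.length → h ν = 0) :
    ∀ (d k : ℕ) (ν : Nd), ν.1.length = k → k + d = N →
      HasDerivAt (fun t : ℝ => Φ k ν.1 ν.2 (fun μ => z μ + t * h μ)) (DD S Φ z h d ν) 0 := by
  intro d
  induction d with
  | zero =>
    intro k ν hk hkN
    have : (fun t : ℝ => Φ k ν.1 ν.2 (fun μ => z μ + t * h μ)) = fun _ => Φ k ν.1 ν.2 z := by
      funext t
      refine hΦ.local_eq k ν.1 ν.2 _ _ fun l l' => ?_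
      rw [hN (l ++ ν.1, l' ++ ν.2) (by simp only [List.length_append]; omega)]
      ring
    rw [this]
    exact hasDerivAt_const _ _
  | succ d ih =>
    intro k ν hk hkN
    have hη : S.η k ≠ 0 := (S.η_pos k).ne'
    have hrec : (fun t : ℝ => Φ k ν.1 ν.2 (fun μ => z μ + t * h μ)) = fun t =>
        S.η k * Real.sin ((z ν + t * h ν) / S.η k) +
        (1 / (P.r k : ℝ)) * ∑ i ∈ range (P.r k), ∑ j ∈ range (P.n k),
          S.Q k i j (z ν + t * h ν) *
            Φ (k + 1) (i :: ν.1) (j :: ν.2) (fun μ => z μ + t * h μ) := by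
      funext t
      exact hΦ.rec_eq k ν.1 ν.2 _
    rw [hrec]
    -- the inner affine function
    have ha : HasDerivAt (fun t : ℝ => z ν + t * h ν) (h ν) 0 := by
      have := ((hasDerivAt_id (0 : ℝ)).mul_const (h ν)).const_add (z ν)
      simpa using this
    have hz0 : (fun μ : Nd => z μ + (0 : ℝ) * h μ) = z := by funext μ; ring
    have ha0 : z ν + (0 : ℝ) * h ν = z ν := by ring
    have h1 : HasDerivAt (fun t : ℝ => S.η k * Real.sin ((z ν + t * h ν) / S.η k))
        (Real.cos (z ν / S.η k) * h ν) 0 := by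
      have := ((ha.div_const (S.η k)).sin).const_mul (S.η k)
      rw [ha0] at this
      refine this.congr_deriv ?_
      field_simp
    have h2 : ∀ i ∈ range (P.r k), ∀ j ∈ range (P.n k),
        HasDerivAt (fun t : ℝ => S.Q k i j (z ν + t * h ν) *
            Φ (k + 1) (i :: ν.1) (j :: ν.2) (fun μ => z μ + t * h μ))
          ((S.Q' k i j (z ν) * h ν) * Φ (k + 1) (i :: ν.1) (j :: ν.2) z +
            S.Q k i j (z ν) * DD S Φ z h d (i :: ν.1, j :: ν.2)) 0 := by
      intro i _ j _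
      have hq : HasDerivAt (fun t : ℝ => S.Q k i j (z ν + t * h ν)) (S.Q' k i j (z ν) * h ν) 0 := by
        have hQ := S.Q_deriv k i j (z ν + (0 : ℝ) * h ν)
        have := hQ.comp (0 : ℝ) ha
        rw [ha0] at this
        exact this
      have hp := ih (k + 1) (i :: ν.1, j :: ν.2) (by simp [hk]) (by omega)
      have := hq.mul hp
      simp only [hz0, ha0] at this
      exact this
    have h3 := HasDerivAt.fun_sum (u := range (P.r k)) fun i hi =>
      HasDerivAt.fun_sum (u := range (P.n k)) fun j hj => h2 i hi j hj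
    have h4 := h1.add (h3.const_mul (1 / (P.r k : ℝ)))
    refine h4.congr_deriv ?_
    simp only [DD, hk]
    rw [add_mul, add_assoc]
    congr 1
    rw [mul_assoc, ← mul_add]
    congr 1
    rw [Finset.sum_mul, ← Finset.sum_add_distrib]
    refine Finset.sum_congr rfl fun i _ => ?_
    rw [Finset.sum_mul, ← Finset.sum_add_distrib]
    refine Finset.sum_congr rfl fun j _ => ?_
    ring

theorem DD_telescope {P : Par} (S : Stage P) (Φ : ℕ → List ℕ → List ℕ → (Nd → ℝ) → ℝ)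
    (z : Nd → ℝ) (h : Nd →₀ ℝ) (N : ℕ) :
    ∀ m ≤ N, DD S Φ z h N ([], []) = ∑ k ∈ range m, P.lv k (fun ν => BB S Φ z ν * h ν) +
      P.lv m (fun ν => PP S z ν * DD S Φ z h (N - m) ν) := by
  intro m
  induction m with
  | zero =>
    intro _
    rw [P.lv_zero, PP_root]; simp
  | succ m ih =>
    intro hm
    rw [ih (by omega), Finset.sum_range_succ, add_assoc]
    congr 1
    rw [P.lv_succ, ← P.lv_add]
    refine P.lv_congr fun ν hν => ?_
    have hl : ν.1.length = m := length_of_mem_Lev hν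
    obtain ⟨d, hd⟩ : ∃ d, N - m = d + 1 := ⟨N - m - 1, by omega⟩
    have hd' : N - (m + 1) = d := by omega
    rw [hd, hd']
    have e : ∑ i ∈ range (P.r m), ∑ j ∈ range (P.n m),
        PP S z (i :: ν.1, j :: ν.2) * DD S Φ z h d (i :: ν.1, j :: ν.2) =
        PP S z ν * ∑ i ∈ range (P.r m), ∑ j ∈ range (P.n m),
          S.Q m i j (z ν) * DD S Φ z h d (i :: ν.1, j :: ν.2) := by
      rw [Finset.mul_sum]
      refine Finset.sum_congr rfl fun i hi => ?_
      rw [Finset.mul_sum]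
      refine Finset.sum_congr rfl fun j hj => ?_
      rw [PP_child S z (c := ν.1) (s := ν.2) hν (Finset.mem_range.1 hi) (Finset.mem_range.1 hj),
        mul_assoc]
    rw [e]
    simp only [DD, BB, hl]
    ring

/-- package G2 (file Deriv.lean) -/
theorem hasDerivAt_BB {P : Par} (S : Stage P) (Φ : ℕ → List ℕ → List ℕ → (Nd → ℝ) → ℝ)
    (hΦ : IsLim S Φ) (z : Nd → ℝ) (h : Nd →₀ ℝ) :
    HasDerivAt (fun t : ℝ => Φ 0 [] [] (fun ν => z ν + t * h ν)) (P.pair (BB S Φ z) h) 0 := by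
  -- a level below which `h` vanishes
  obtain ⟨N, hN⟩ : ∃ N : ℕ, ∀ ν : Nd, N ≤ ν.1.length → h ν = 0 := by
    refine ⟨(h.support.sup fun ν => ν.1.length) + 1, fun ν hν => ?_⟩
    by_contra hne
    have : ν.1.length ≤ h.support.sup fun ν => ν.1.length :=
      Finset.le_sup (f := fun ν : Nd => ν.1.length) (Finsupp.mem_support_iff.2 hne)
    omega
  have h1 := hasDerivAt_DD S Φ hΦ z h N hN N 0 ([], []) rfl (by omega)
  have h2 := DD_telescope S Φ z h N N le_rfl
  have h3 : P.lv N (fun ν => PP S z ν * DD S Φ z h (N - N) ν) = 0 := by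
    have : P.lv N (fun ν => PP S z ν * DD S Φ z h (N - N) ν) = P.lv N (fun ν => 0 * PP S z ν) := by
      refine P.lv_congr fun ν _ => ?_
      simp [DD]
    rw [this, P.lv_mul, zero_mul]
  rw [h3, add_zero] at h2
  rw [P.pair_eq_sum_lv (BB S Φ z) h N hN, ← h2]
  exact h1

end Pool.Agent.MPff6db8
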