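import Pool.Agent.MPff6db8.Prop
import Pool.Agent.MPff6db8.Qnorm

/-! MP_ff6db8_an (frozen S06854). Second differences. -/

set_option autoImplicit false

namespace Pool.Agent.MPff6db8

open Finset

private lemma Second_shift (η t : ℝ) (hη : 0 < η) :
    ∃ u : ℝ, |u| ≤ 7 * η ∧ ((0 ≤ Real.sin (t / η) ∧
      2 * η ≤ η * Real.sin ((t + 2 * u) / η) - 2 * (η * Real.sin ((t + u) / η))
        + η * Real.sin (t / η)) ∨ (Real.sin (t / η) < 0 ∧
      2 * η ≤ - (η * Real.sin ((t + 2 * u) / η) - 2 * (η * Real.sin ((t + u) / η))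
        + η * Real.sin (t / η)))) := by
  have hpi := Real.pi_pos
  have hpi4 := Real.pi_le_four
  set θ := t / η with hθ
  -- a shift moving `θ` to `τ` modulo `2π`
  have key : ∀ τ : ℝ, ∃ φ : ℝ, |φ| ≤ 4 ∧ ∃ n : ℤ, θ + φ = τ + n * (2 * Real.pi) := by
    intro τ
    refine ⟨-(((θ - τ) / (2 * Real.pi) - round ((θ - τ) / (2 * Real.pi))) * (2 * Real.pi)), ?_,
      round ((θ - τ) / (2 * Real.pi)), ?_⟩
    · rw [abs_neg, abs_mul, abs_of_pos (by positivity : (0:ℝ) < 2 * Real.pi)]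
      have := abs_sub_round ((θ - τ) / (2 * Real.pi))
      nlinarith
    · field_simp
      ring
  have hsum : ∀ φ : ℝ, Real.sin (θ + 2 * φ) + Real.sin θ = 2 * Real.sin (θ + φ) * Real.cos φ := by
    intro φ
    have h1 : Real.sin (θ + 2 * φ) = Real.sin ((θ + φ) + φ) := by ring_nf
    have h2 : Real.sin θ = Real.sin ((θ + φ) - φ) := by ring_nf
    rw [h1, h2, Real.sin_add, Real.sin_sub]
    ring
  have hu : ∀ φ : ℝ, (t + 2 * (η * φ)) / η = θ + 2 * φ ∧ (t + η * φ) / η = θ + φ := by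
    intro φ
    rw [hθ]
    constructor <;> field_simp
  rcases lt_or_ge (Real.sin θ) 0 with hs | hs
  · obtain ⟨φ, hφ, n, hn⟩ := key (Real.pi / 2)
    have e1 : Real.sin (θ + φ) = 1 := by
      rw [hn, Real.sin_add_int_mul_two_pi, Real.sin_pi_div_two]
    have e2 : Real.cos (θ + φ) = 0 := by
      rw [hn, Real.cos_add_int_mul_two_pi, Real.cos_pi_div_two]
    have e3 : Real.sin θ = Real.cos φ := by
      have h2 : Real.sin θ = Real.sin ((θ + φ) - φ) := by ring_nf
      rw [h2, Real.sin_sub, e1, e2]; ring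
    have e4 := hsum φ
    rw [e1] at e4
    refine ⟨η * φ, ?_, Or.inr ⟨hs, ?_⟩⟩
    · rw [abs_mul, abs_of_pos hη]; nlinarith
    · rw [(hu φ).1, (hu φ).2, e1]
      have e5 : Real.sin (θ + 2 * φ) = Real.sin θ := by linarith
      rw [e5]
      nlinarith
  · obtain ⟨φ, hφ, n, hn⟩ := key (-(Real.pi / 2))
    have e1 : Real.sin (θ + φ) = -1 := by
      rw [hn, Real.sin_add_int_mul_two_pi, Real.sin_neg, Real.sin_pi_div_two]
    have e2 : Real.cos (θ + φ) = 0 := by
      rw [hn, Real.cos_add_int_mul_two_pi, Real.cos_neg, Real.cos_pi_div_two]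
    have e3 : Real.sin θ = - Real.cos φ := by
      have h2 : Real.sin θ = Real.sin ((θ + φ) - φ) := by ring_nf
      rw [h2, Real.sin_sub, e1, e2]; ring
    have e4 := hsum φ
    rw [e1] at e4
    refine ⟨η * φ, ?_, Or.inl ⟨hs, ?_⟩⟩
    · rw [abs_mul, abs_of_pos hη]; nlinarith
    · rw [(hu φ).1, (hu φ).2, e1]
      have e5 : Real.sin (θ + 2 * φ) = Real.sin θ := by linarith
      rw [e5]
      nlinarith

private lemma Second_child {P : Par} (S : Stage P)
    (Φ : ℕ → List ℕ → List ℕ → (Nd → ℝ) → ℝ) (hΦ : IsLim S Φ) (z : Nd → ℝ) (k : ℕ)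
    (c s : List ℕ) :
    |Φ k c s z - S.η k * Real.sin (z (c, s) / S.η k)| ≤ 2 * S.η (k + 1) := by
  have hr : (0 : ℝ) < P.r k := by exact_mod_cast P.r_pos k
  have h1 : Φ k c s z - S.η k * Real.sin (z (c, s) / S.η k) =
      (1 / (P.r k : ℝ)) * ∑ i ∈ range (P.r k), ∑ j ∈ range (P.n k),
      S.Q k i j (z (c, s)) * Φ (k + 1) (i :: c) (j :: s) z := by
    rw [hΦ.rec_eq k c s z]; ring
  rw [h1, abs_mul, abs_of_pos (by positivity : (0:ℝ) < 1 / (P.r k : ℝ))]
  have h2 : |∑ i ∈ range (P.r k), ∑ j ∈ range (P.n k),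
      S.Q k i j (z (c, s)) * Φ (k + 1) (i :: c) (j :: s) z| ≤ P.r k * (2 * S.η (k + 1)) := by
    calc |∑ i ∈ range (P.r k), ∑ j ∈ range (P.n k),
        S.Q k i j (z (c, s)) * Φ (k + 1) (i :: c) (j :: s) z|
        ≤ ∑ i ∈ range (P.r k), |∑ j ∈ range (P.n k),
        S.Q k i j (z (c, s)) * Φ (k + 1) (i :: c) (j :: s) z| := Finset.abs_sum_le_sum_abs _ _
      _ ≤ ∑ _i ∈ range (P.r k), (2 * S.η (k + 1)) := by
        refine Finset.sum_le_sum (fun i hi => ?_)
        calc |∑ j ∈ range (P.n k), S.Q k i j (z (c, s)) * Φ (k + 1) (i :: c) (j :: s) z|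
            ≤ ∑ j ∈ range (P.n k), |S.Q k i j (z (c, s)) * Φ (k + 1) (i :: c) (j :: s) z| :=
              Finset.abs_sum_le_sum_abs _ _
          _ ≤ ∑ j ∈ range (P.n k), S.Q k i j (z (c, s)) * (2 * S.η (k + 1)) := by
              refine Finset.sum_le_sum (fun j _ => ?_)
              rw [abs_mul, abs_of_nonneg (S.Q_nonneg k i j _)]
              exact mul_le_mul_of_nonneg_left (hΦ.bound _ _ _ _) (S.Q_nonneg k i j _)
          _ = 2 * S.η (k + 1) := by
              rw [← Finset.sum_mul, S.Q_sum k i _ (Finset.mem_range.mp hi), one_mul]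
      _ = P.r k * (2 * S.η (k + 1)) := by simp
  calc 1 / (P.r k : ℝ) * |∑ i ∈ range (P.r k), ∑ j ∈ range (P.n k),
      S.Q k i j (z (c, s)) * Φ (k + 1) (i :: c) (j :: s) z|
      ≤ 1 / (P.r k : ℝ) * (P.r k * (2 * S.η (k + 1))) :=
        mul_le_mul_of_nonneg_left h2 (by positivity)
    _ = 2 * S.η (k + 1) := by field_simp

private lemma Second_core {P : Par} (S : Stage P)
    (Φ : ℕ → List ℕ → List ℕ → (Nd → ℝ) → ℝ) (hΦ : IsLim S Φ) (z : Nd → ℝ) (k : ℕ)
    (σ : ℝ) (hσ : |σ| = 1) (T : Finset Nd) (hT : T ⊆ P.Lev k) (u : Nd → ℝ)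
    (hu : ∀ ν ∈ T, |u ν| ≤ 7 * S.η k)
    (hs : ∀ ν ∈ T, 2 * S.η k ≤ σ * (S.η k * Real.sin ((z ν + 2 * u ν) / S.η k)
      - 2 * (S.η k * Real.sin ((z ν + u ν) / S.η k)) + S.η k * Real.sin (z ν / S.η k)))
    (hPP : ∀ ν ∈ T, 1 / 4 ≤ PP S z ν)
    (hT8 : 1 / 8 ≤ P.lv k (fun ν => if ν ∈ T then PP S z ν else 0)) :
    ∃ h : Nd →₀ ℝ, P.q h ≤ 56 * S.η k ∧
      S.η k / 8 ≤ |Φ 0 [] [] (fun ν => z ν + 2 * h ν) - 2 * Φ 0 [] [] (fun ν => z ν + h ν)
        + Φ 0 [] [] z| := by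
  classical
  have hη := S.η_pos k
  set h : Nd →₀ ℝ := Finsupp.onFinset T (fun ν => if ν ∈ T then u ν else 0)
    (fun ν hν => by by_contra hn; exact hν (if_neg hn)) with hh
  have hval : ∀ ν, h ν = if ν ∈ T then u ν else 0 := fun ν => rfl
  have hoff : ∀ ν, ν ∉ P.Lev k → h ν = 0 := fun ν hν => by
    rw [hval, if_neg (fun hh => hν (hT hh))]
  refine ⟨h, ?_, ?_⟩
  · -- the seminorm
    have h1 := P.q_level k h hoff
    have h2 : P.nrm k h ≤ 14 * S.η k := by
      rw [P.nrm_le_iff (by positivity)]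
      have h3 : P.lv k (fun ν => h ν ^ 2) ≤ P.lv k (fun ν => (49 * S.η k ^ 2 * 4) * PP S z ν) := by
        refine P.lv_mono (fun ν hν => ?_)
        have hP0 : 0 ≤ PP S z ν := (PP_isFlow S z).nonneg ν
        rw [hval]
        by_cases hνT : ν ∈ T
        · rw [if_pos hνT]
          have a1 := hu ν hνT
          have a2 := hPP ν hνT
          have a3 : u ν ^ 2 ≤ (7 * S.η k) ^ 2 := by
            rw [← sq_abs]; exact pow_le_pow_left₀ (abs_nonneg _) a1 2
          nlinarith [sq_nonneg (S.η k)]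
        · rw [if_neg hνT, zero_pow two_ne_zero]
          exact mul_nonneg (by positivity) hP0
      rw [P.lv_mul, lv_PP, mul_one] at h3
      linarith
    linarith
  · -- the second difference
    set z1 : Nd → ℝ := fun ν => z ν + h ν with hz1
    set z2 : Nd → ℝ := fun ν => z ν + 2 * h ν with hz2
    have hlow : ∀ m < k, ∀ ν ∈ P.Lev m, h ν = 0 := by
      intro m hm ν hν
      refine hoff ν (fun hν' => ?_)
      have a1 := (P.mem_Lev_iff.mp hν).2
      have a2 := (P.mem_Lev_iff.mp hν').2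
      omega
    have hPP1 : ∀ m ≤ k, ∀ ν ∈ P.Lev m, PP S z1 ν = PP S z ν := by
      intro m hm
      refine PP_congr S z1 z m (fun m' hm' ν hν => ?_)
      simp only [hz1]
      rw [hlow m' (lt_of_lt_of_le hm' hm) ν hν, add_zero]
    have hPP2 : ∀ m ≤ k, ∀ ν ∈ P.Lev m, PP S z2 ν = PP S z ν := by
      intro m hm
      refine PP_congr S z2 z m (fun m' hm' ν hν => ?_)
      simp only [hz2]
      rw [hlow m' (lt_of_lt_of_le hm' hm) ν hν, mul_zero, add_zero]
    have hU := unroll S Φ hΦ z k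
    have hU1 := unroll S Φ hΦ z1 k
    have hU2 := unroll S Φ hΦ z2 k
    have s1 : ∑ m ∈ range k, P.lv m (fun ν => PP S z1 ν * (S.η m * Real.sin (z1 ν / S.η m))) =
        ∑ m ∈ range k, P.lv m (fun ν => PP S z ν * (S.η m * Real.sin (z ν / S.η m))) := by
      refine Finset.sum_congr rfl (fun m hm => P.lv_congr (fun ν hν => ?_))
      have hm' := Finset.mem_range.mp hm
      rw [hPP1 m hm'.le ν hν]
      simp only [hz1]
      rw [hlow m hm' ν hν, add_zero]
    have s2 : ∑ m ∈ range k, P.lv m (fun ν => PP S z2 ν * (S.η m * Real.sin (z2 ν / S.η m))) =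
        ∑ m ∈ range k, P.lv m (fun ν => PP S z ν * (S.η m * Real.sin (z ν / S.η m))) := by
      refine Finset.sum_congr rfl (fun m hm => P.lv_congr (fun ν hν => ?_))
      have hm' := Finset.mem_range.mp hm
      rw [hPP2 m hm'.le ν hν]
      simp only [hz2]
      rw [hlow m hm' ν hν, mul_zero, add_zero]
    have l1 : P.lv k (fun ν => PP S z1 ν * Φ k ν.1 ν.2 z1) =
        P.lv k (fun ν => PP S z ν * Φ k ν.1 ν.2 z1) :=
      P.lv_congr (fun ν hν => by rw [hPP1 k le_rfl ν hν])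
    have l2 : P.lv k (fun ν => PP S z2 ν * Φ k ν.1 ν.2 z2) =
        P.lv k (fun ν => PP S z ν * Φ k ν.1 ν.2 z2) :=
      P.lv_congr (fun ν hν => by rw [hPP2 k le_rfl ν hν])
    rw [s1, l1] at hU1
    rw [s2, l2] at hU2
    have hD : Φ 0 [] [] z2 - 2 * Φ 0 [] [] z1 + Φ 0 [] [] z =
        P.lv k (fun ν => PP S z ν * (Φ k ν.1 ν.2 z2 - 2 * Φ k ν.1 ν.2 z1 + Φ k ν.1 ν.2 z)) := by
      have e1 : P.lv k (fun ν => PP S z ν * (Φ k ν.1 ν.2 z2 - 2 * Φ k ν.1 ν.2 z1
          + Φ k ν.1 ν.2 z)) = P.lv k (fun ν => (PP S z ν * Φ k ν.1 ν.2 z2 -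
            2 * (PP S z ν * Φ k ν.1 ν.2 z1)) + PP S z ν * Φ k ν.1 ν.2 z) :=
        P.lv_congr (fun ν _ => by ring)
      rw [e1, P.lv_add, P.lv_sub, P.lv_mul, hU, hU1, hU2]
      ring
    have hnode : ∀ ν ∈ P.Lev k, (2 * S.η k - 8 * S.η (k + 1)) *
        (if ν ∈ T then PP S z ν else 0) ≤
        σ * (PP S z ν * (Φ k ν.1 ν.2 z2 - 2 * Φ k ν.1 ν.2 z1 + Φ k ν.1 ν.2 z)) := by
      intro ν hν
      have hP0 : 0 ≤ PP S z ν := (PP_isFlow S z).nonneg ν
      by_cases hνT : ν ∈ T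
      · rw [if_pos hνT]
        have b0 := Second_child S Φ hΦ z k ν.1 ν.2
        have b1 := Second_child S Φ hΦ z1 k ν.1 ν.2
        have b2 := Second_child S Φ hΦ z2 k ν.1 ν.2
        have v1 : z1 (ν.1, ν.2) = z ν + u ν := by
          simp only [hz1, Prod.mk.eta, hval, if_pos hνT]
        have v2 : z2 (ν.1, ν.2) = z ν + 2 * u ν := by
          simp only [hz2, Prod.mk.eta, hval, if_pos hνT]
        rw [v1] at b1
        rw [v2] at b2
        rw [Prod.mk.eta] at b0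
        have hsν := hs ν hνT
        have b0' := abs_le.mp b0
        have b1' := abs_le.mp b1
        have b2' := abs_le.mp b2
        have key : 2 * S.η k - 8 * S.η (k + 1) ≤
            σ * (Φ k ν.1 ν.2 z2 - 2 * Φ k ν.1 ν.2 z1 + Φ k ν.1 ν.2 z) := by
          rcases (abs_eq (by norm_num : (0:ℝ) ≤ 1)).mp hσ with h1 | h1
          · rw [h1] at hsν ⊢
            linarith [b0'.1, b0'.2, b1'.1, b1'.2, b2'.1, b2'.2]
          · rw [h1] at hsν ⊢
            linarith [b0'.1, b0'.2, b1'.1, b1'.2, b2'.1, b2'.2]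
        calc (2 * S.η k - 8 * S.η (k + 1)) * PP S z ν
            ≤ (σ * (Φ k ν.1 ν.2 z2 - 2 * Φ k ν.1 ν.2 z1 + Φ k ν.1 ν.2 z)) * PP S z ν :=
              mul_le_mul_of_nonneg_right key hP0
          _ = _ := by ring
      · rw [if_neg hνT, mul_zero]
        have hz0 : ∀ l l' : List ℕ, h (l ++ ν.1, l' ++ ν.2) = 0 := by
          intro l l'
          by_cases hm : ((l ++ ν.1, l' ++ ν.2) : Nd) ∈ P.Lev k
          · have a1 := (P.mem_Lev.mp hν)
            have a2 := (P.mem_Lev.mp hm)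
            have c1 := P.length_of_mem_Col a1.1
            have c2 := P.length_of_mem_His a1.2
            have d1 := P.length_of_mem_Col a2.1
            have d2 := P.length_of_mem_His a2.2
            simp only [List.length_append] at d1 d2
            have e1 : l = [] := List.length_eq_zero_iff.mp (by omega)
            have e2 : l' = [] := List.length_eq_zero_iff.mp (by omega)
            rw [hval, e1, e2, List.nil_append, List.nil_append, Prod.mk.eta, if_neg hνT]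
          · exact hoff _ hm
        have e1 : Φ k ν.1 ν.2 z1 = Φ k ν.1 ν.2 z :=
          hΦ.local_eq k ν.1 ν.2 z1 z (fun l l' => by simp only [hz1, hz0, add_zero])
        have e2 : Φ k ν.1 ν.2 z2 = Φ k ν.1 ν.2 z :=
          hΦ.local_eq k ν.1 ν.2 z2 z (fun l l' => by simp only [hz2, hz0, mul_zero, add_zero])
        rw [e1, e2]
        have : σ * (PP S z ν * (Φ k ν.1 ν.2 z - 2 * Φ k ν.1 ν.2 z + Φ k ν.1 ν.2 z)) = 0 := by ring
        rw [this]
    have hsum := P.lv_mono hnode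
    rw [P.lv_mul, P.lv_mul, ← hD] at hsum
    have hη1 := S.η_succ k
    have hη1' := S.η_pos (k + 1)
    have hlow' : S.η k / 8 ≤ (2 * S.η k - 8 * S.η (k + 1)) *
        P.lv k (fun ν => if ν ∈ T then PP S z ν else 0) := by
      have : 0 ≤ 2 * S.η k - 8 * S.η (k + 1) := by linarith
      calc S.η k / 8 ≤ (2 * S.η k - 8 * S.η (k + 1)) * (1 / 8) := by linarith
        _ ≤ _ := mul_le_mul_of_nonneg_left hT8 this
    calc S.η k / 8 ≤ σ * (Φ 0 [] [] z2 - 2 * Φ 0 [] [] z1 + Φ 0 [] [] z) := hlow'.trans hsum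
      _ ≤ |σ * (Φ 0 [] [] z2 - 2 * Φ 0 [] [] z1 + Φ 0 [] [] z)| := le_abs_self _
      _ = |Φ 0 [] [] z2 - 2 * Φ 0 [] [] z1 + Φ 0 [] [] z| := by rw [abs_mul, hσ, one_mul]

theorem second_diff {P : Par} (S : Stage P) (Φ : ℕ → List ℕ → List ℕ → (Nd → ℝ) → ℝ)
    (hΦ : IsLim S Φ) (z : Nd → ℝ) (k : ℕ) :
    ∃ h : Nd →₀ ℝ, P.q h ≤ 56 * S.η k ∧
      S.η k / 8 ≤ |Φ 0 [] [] (fun ν => z ν + 2 * h ν) - 2 * Φ 0 [] [] (fun ν => z ν + h ν)
        + Φ 0 [] [] z| := by
  classical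
  have hη := S.η_pos k
  choose u hu hu' using fun ν : Nd => Second_shift (S.η k) (z ν) hη
  set Tp : Finset Nd := (P.Lev k).filter (fun ν => 1 / 4 ≤ PP S z ν ∧
    0 ≤ Real.sin (z ν / S.η k)) with hTp
  set Tm : Finset Nd := (P.Lev k).filter (fun ν => 1 / 4 ≤ PP S z ν ∧
    Real.sin (z ν / S.η k) < 0) with hTm
  have hsplit : 1 / 4 ≤ P.lv k (fun ν => if ν ∈ Tp then PP S z ν else 0) +
      P.lv k (fun ν => if ν ∈ Tm then PP S z ν else 0) := by
    have h1 := lv_PP_sq S z k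
    have h2 : P.lv k (fun ν => PP S z ν ^ 2) ≤ P.lv k (fun ν =>
        ((if ν ∈ Tp then PP S z ν else 0) + (if ν ∈ Tm then PP S z ν else 0)) +
          (1 / 4) * PP S z ν) := by
      refine P.lv_mono (fun ν hν => ?_)
      have hP0 : 0 ≤ PP S z ν := (PP_isFlow S z).nonneg ν
      have hP1 := PP_le_one S z ν
      by_cases hq : 1 / 4 ≤ PP S z ν
      · rcases lt_or_ge (Real.sin (z ν / S.η k)) 0 with hs | hs
        · have hm : ν ∈ Tm := Finset.mem_filter.mpr ⟨hν, hq, hs⟩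
          have hp : ν ∉ Tp := fun hp => absurd (Finset.mem_filter.mp hp).2.2 (not_le.mpr hs)
          rw [if_pos hm, if_neg hp]
          nlinarith
        · have hp : ν ∈ Tp := Finset.mem_filter.mpr ⟨hν, hq, hs⟩
          have hm : ν ∉ Tm := fun hm => absurd (Finset.mem_filter.mp hm).2.2 (not_lt.mpr hs)
          rw [if_pos hp, if_neg hm]
          nlinarith
      · have hp : ν ∉ Tp := fun hp => hq (Finset.mem_filter.mp hp).2.1
        have hm : ν ∉ Tm := fun hm => hq (Finset.mem_filter.mp hm).2.1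
        rw [if_neg hp, if_neg hm]
        push Not at hq
        nlinarith
    rw [P.lv_add, P.lv_add, P.lv_mul, lv_PP] at h2
    linarith
  rcases le_or_gt (1 / 8) (P.lv k (fun ν => if ν ∈ Tp then PP S z ν else 0)) with h8 | h8
  · refine Second_core S Φ hΦ z k 1 (by simp) Tp (Finset.filter_subset _ _) u (fun ν _ => hu ν)
      (fun ν hν => ?_) (fun ν hν => (Finset.mem_filter.mp hν).2.1) h8
    have hs := (Finset.mem_filter.mp hν).2.2
    rcases hu' ν with h1 | h1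
    · rw [one_mul]; exact h1.2
    · exact absurd h1.1 (not_lt.mpr hs)
  · refine Second_core S Φ hΦ z k (-1) (by simp) Tm (Finset.filter_subset _ _) u (fun ν _ => hu ν)
      (fun ν hν => ?_) (fun ν hν => (Finset.mem_filter.mp hν).2.1) (by linarith)
    have hs := (Finset.mem_filter.mp hν).2.2
    rcases hu' ν with h1 | h1
    · exact absurd h1.1 (not_le.mpr hs)
    · rw [neg_one_mul]; exact h1.2

end Pool.Agent.MPff6db8
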