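import Pool.Agent.MPff6db8.Lim
import Pool.Agent.MPff6db8.Deriv
import Pool.Agent.MPff6db8.Second
import Pool.Agent.MPff6db8.Space

/-! MP_ff6db8_an (frozen S06854). The function on the space. -/

set_option autoImplicit false

namespace Pool.Agent.MPff6db8

open Finset

theorem Stage.eta_le {P : Par} (S : Stage P) (k : ℕ) : S.η k ≤ S.η 0 * (1 / 128 : ℝ) ^ k := by
  induction k with
  | zero => simp
  | succ k ih =>
    have h := S.η_succ k
    rw [pow_succ]
    linarith

theorem Stage.eta_tendsto {P : Par} (S : Stage P) :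
    Filter.Tendsto S.η Filter.atTop (nhds 0) := by
  have h1 : Filter.Tendsto (fun k => S.η 0 * (1 / 128 : ℝ) ^ k) Filter.atTop (nhds 0) := by
    have := (tendsto_pow_atTop_nhds_zero_of_lt_one (r := (1 / 128 : ℝ)) (by norm_num)
      (by norm_num)).const_mul (S.η 0)
    simpa using this
  exact squeeze_zero (fun k => (S.η_pos k).le) (fun k => S.eta_le k) h1

/-- the root function only depends on the valid nodes -/
theorem root_congr {P : Par} (S : Stage P) (Φ : ℕ → List ℕ → List ℕ → (Nd → ℝ) → ℝ)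
    (hΦ : IsLim S Φ) (z z' : Nd → ℝ) (h : ∀ ν, P.Val ν → z ν = z' ν) :
    Φ 0 [] [] z = Φ 0 [] [] z' := by
  have hz : ∀ m, ∀ ν ∈ P.Lev m, z ν = z' ν := fun m ν hν => h ν (P.mem_Lev_iff.1 hν).1
  have hPP : ∀ m, ∀ ν ∈ P.Lev m, PP S z ν = PP S z' ν := fun m =>
    PP_congr S z z' m (fun l _ => hz l)
  have hb : ∀ (y : Nd → ℝ) (k : ℕ), |P.lv k (fun ν => PP S y ν * Φ k ν.1 ν.2 y)| ≤ 2 * S.η k := by
    intro y k
    refine (P.abs_lv_le _ _).trans ?_
    have h1 : P.lv k (fun ν => |PP S y ν * Φ k ν.1 ν.2 y|) ≤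
        P.lv k (fun ν => (2 * S.η k) * PP S y ν) := by
      refine P.lv_mono fun ν _ => ?_
      have h0 := (PP_isFlow S y).nonneg ν
      rw [abs_mul, abs_of_nonneg h0, mul_comm]
      exact mul_le_mul_of_nonneg_right (hΦ.bound k _ _ y) h0
    rw [P.lv_mul, lv_PP, mul_one] at h1
    exact h1
  have hk : ∀ k, |Φ 0 [] [] z - Φ 0 [] [] z'| ≤ 4 * S.η k := by
    intro k
    rw [unroll S Φ hΦ z k, unroll S Φ hΦ z' k]
    have e1 : ∑ m ∈ range k, P.lv m (fun ν => PP S z ν * (S.η m * Real.sin (z ν / S.η m))) =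
        ∑ m ∈ range k, P.lv m (fun ν => PP S z' ν * (S.η m * Real.sin (z' ν / S.η m))) := by
      refine sum_congr rfl fun m _ => P.lv_congr fun ν hν => ?_
      rw [hPP m ν hν, hz m ν hν]
    rw [e1]
    have e2 := hb z k
    have e3 := hb z' k
    rw [abs_le] at e2 e3 ⊢
    constructor <;> linarith [e2.1, e2.2, e3.1, e3.2]
  have h0 : |Φ 0 [] [] z - Φ 0 [] [] z'| ≤ 0 := by
    have ht := (S.eta_tendsto).const_mul 4
    rw [mul_zero] at ht
    exact ge_of_tendsto' ht hk
  have := abs_nonpos_iff.1 h0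
  linarith

theorem exists_function {P : Par} (S : Stage P) {X : Type} [NormedAddCommGroup X]
    [NormedSpace ℝ X] [CompleteSpace X]
    (ι : (Nd →₀ ℝ) →ₗ[ℝ] X) (hd : DenseRange ι) (hι : ∀ x, ‖ι x‖ = P.q x) :
    ∃ f : X → ℝ, (∃ K, LipschitzWith K f) ∧
      (∀ x : X, ∃ L : X →L[ℝ] ℝ, ∀ v : X, HasLineDerivAt ℝ f (L v) x v) ∧
      ¬ ∃ x : X, DifferentiableAt ℝ f x := by
  obtain ⟨Φ, hΦ⟩ := exists_lim S
  -- coordinates
  have hco : ∀ ν : Nd, ∃ L : X →L[ℝ] ℝ, P.Val ν → ∀ h : Nd →₀ ℝ, L (ι h) = h ν := by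
    intro ν
    by_cases hν : P.Val ν
    · obtain ⟨C, hC, hb⟩ := P.coord_bound ν hν
      obtain ⟨L, hL, -⟩ := extend_fun ι hd hι (Finsupp.lapply ν) C hC (fun x => hb x)
      exact ⟨L, fun _ h => hL h⟩
    · exact ⟨0, fun h => absurd h hν⟩
  choose co hco using hco
  set zz : X → Nd → ℝ := fun x ν => co ν x with hzz
  have hzzc : Continuous zz := continuous_pi fun ν => (co ν).continuous
  set f : X → ℝ := fun x => Φ 0 [] [] (zz x) with hf
  have hfc : Continuous f := (hΦ.cont 0 [] []).comp hzzc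
  have key : ∀ (x : X) (t : ℝ) (h : Nd →₀ ℝ),
      f (x + t • ι h) = Φ 0 [] [] (fun ν => zz x ν + t * h ν) := by
    intro x t h
    refine root_congr S Φ hΦ _ _ fun ν hν => ?_
    simp only [hzz, map_add, map_smul, smul_eq_mul]
    rw [hco ν hν h]
  -- derivatives in the directions `ι h`
  have hder : ∀ (x : X) (h : Nd →₀ ℝ),
      HasDerivAt (fun t : ℝ => f (x + t • ι h)) (P.pair (BB S Φ (zz x)) h) 0 := by
    intro x h
    have := hasDerivAt_BB S Φ hΦ (zz x) h
    refine this.congr_of_eventuallyEq (Filter.Eventually.of_forall fun t => ?_)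
    exact key x t h
  have hbd : ∀ (x : X) (h : Nd →₀ ℝ), |P.pair (BB S Φ (zz x)) h| ≤ 2 * ‖ι h‖ := by
    intro x h
    rw [hι]
    exact P.abs_pair_le (BB_inW S Φ hΦ (zz x)) h
  have hder' : ∀ (x : X) (h : Nd →₀ ℝ) (t : ℝ),
      HasDerivAt (fun t : ℝ => f (x + t • ι h)) (P.pair (BB S Φ (zz (x + t • ι h))) h) t := by
    intro x h t
    have h1 := hder (x + t • ι h) h
    have h2 : HasDerivAt (fun s : ℝ => s - t) 1 t := (hasDerivAt_id t).sub_const t
    have h3 : HasDerivAt (fun s : ℝ => f (x + t • ι h + s • ι h))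
        (P.pair (BB S Φ (zz (x + t • ι h))) h) (t - t) := by
      rw [sub_self]
      exact h1
    have h4 := HasDerivAt.comp (h := fun s : ℝ => s - t)
      (h₂ := fun s : ℝ => f (x + t • ι h + s • ι h)) t h3 h2
    rw [mul_one] at h4
    refine h4.congr_of_eventuallyEq (Filter.Eventually.of_forall fun s => ?_)
    simp only [Function.comp]
    congr 1
    rw [add_assoc, ← add_smul]
    congr 2
    ring
  have hlip1 : ∀ (x : X) (h : Nd →₀ ℝ), |f (x + ι h) - f x| ≤ 2 * ‖ι h‖ := by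
    intro x h
    have := norm_image_sub_le_of_norm_deriv_le_segment_01' (f := fun t : ℝ => f (x + t • ι h))
      (f' := fun t => P.pair (BB S Φ (zz (x + t • ι h))) h) (C := 2 * ‖ι h‖)
      (fun t _ => (hder' x h t).hasDerivWithinAt) (fun t _ => by
        rw [Real.norm_eq_abs]
        exact hbd _ h)
    simpa using this
  have hlip2 : ∀ (x v : X), |f (x + v) - f x| ≤ 2 * ‖v‖ := by
    intro x v
    refine hd.induction_on (p := fun v => |f (x + v) - f x| ≤ 2 * ‖v‖) v ?_ (fun h => hlip1 x h)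
    refine isClosed_le ?_ ?_
    · exact ((hfc.comp (continuous_const.add continuous_id)).sub continuous_const).abs
    · exact continuous_const.mul continuous_norm
  refine ⟨f, ⟨2, ?_⟩, ?_, ?_⟩
  · refine LipschitzWith.of_dist_le_mul fun x y => ?_
    rw [Real.dist_eq, dist_eq_norm]
    have := hlip2 y (x - y)
    rw [add_sub_cancel] at this
    simpa using this
  · intro x
    have hW := BB_inW S Φ hΦ (zz x)
    let ℓ : (Nd →₀ ℝ) →ₗ[ℝ] ℝ :=
      { toFun := fun h => P.pair (BB S Φ (zz x)) h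
        map_add' := fun h h' => P.pair_add _ h h'
        map_smul' := fun a h => by simpa using P.pair_smul _ a h }
    obtain ⟨L, hL, hLn⟩ := extend_fun ι hd hι ℓ 2 (by norm_num) (fun h => P.abs_pair_le hW h)
    refine ⟨L, fun v => ?_⟩
    unfold HasLineDerivAt
    rw [hasDerivAt_iff_isLittleO, Asymptotics.isLittleO_iff]
    intro c hc
    obtain ⟨h, hh⟩ := hd.exists_dist_lt v (show 0 < c / 8 by linarith)
    rw [dist_eq_norm] at hh
    have h1 := hder x h
    rw [hasDerivAt_iff_isLittleO, Asymptotics.isLittleO_iff] at h1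
    have h2 := h1 (show 0 < c / 2 by linarith)
    filter_upwards [h2] with t ht
    simp only [zero_smul, add_zero, sub_zero, smul_eq_mul, Real.norm_eq_abs] at ht ⊢
    have h3 : |f (x + t • v) - f (x + t • ι h)| ≤ 2 * (|t| * ‖v - ι h‖) := by
      have := hlip2 (x + t • ι h) (t • (v - ι h))
      rw [norm_smul, Real.norm_eq_abs] at this
      have e : x + t • ι h + t • (v - ι h) = x + t • v := by
        rw [add_assoc, ← smul_add]
        congr 2
        abel
      rw [e] at this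
      exact this
    have h4 : |t * L v - t * L (ι h)| ≤ 2 * (|t| * ‖v - ι h‖) := by
      rw [← mul_sub, ← map_sub, abs_mul]
      have := L.le_opNorm (v - ι h)
      rw [Real.norm_eq_abs] at this
      have h5 : |L (v - ι h)| ≤ 2 * ‖v - ι h‖ :=
        this.trans (mul_le_mul_of_nonneg_right hLn (norm_nonneg _))
      nlinarith [abs_nonneg t]
    have h6 : L (ι h) = P.pair (BB S Φ (zz x)) h := hL h
    rw [h6] at h4
    have h7 : |t| * ‖v - ι h‖ ≤ |t| * (c / 8) := mul_le_mul_of_nonneg_left hh.le (abs_nonneg t)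
    have h8 : f (x + t • v) - f x - t * L v = (f (x + t • v) - f (x + t • ι h)) +
        (f (x + t • ι h) - f x - t * P.pair (BB S Φ (zz x)) h) -
        (t * L v - t * P.pair (BB S Φ (zz x)) h) := by ring
    rw [h8]
    calc _ ≤ |f (x + t • v) - f (x + t • ι h)| +
        |f (x + t • ι h) - f x - t * P.pair (BB S Φ (zz x)) h| +
        |t * L v - t * P.pair (BB S Φ (zz x)) h| := by
          refine (abs_sub _ _).trans ?_
          gcongr
          exact abs_add_le _ _
      _ ≤ 2 * (|t| * ‖v - ι h‖) + c / 2 * |t| + 2 * (|t| * ‖v - ι h‖) := by gcongr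
      _ ≤ c * |t| := by nlinarith [abs_nonneg t]
  · rintro ⟨x, hx⟩
    have h1 := hx.hasFDerivAt
    rw [hasFDerivAt_iff_isLittleO_nhds_zero, Asymptotics.isLittleO_iff] at h1
    have h2 := h1 (show (0 : ℝ) < 1 / 2000 by norm_num)
    rw [Metric.eventually_nhds_iff] at h2
    obtain ⟨δ, hδ, h2⟩ := h2
    set L := fderiv ℝ f x
    obtain ⟨k, hk⟩ : ∃ k, S.η k < δ / 112 := by
      have := (S.eta_tendsto).eventually (gt_mem_nhds (show (0 : ℝ) < δ / 112 by positivity))
      exact this.exists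
    obtain ⟨h, hq, hs⟩ := second_diff S Φ hΦ (zz x) k
    have e1 := key x 2 h
    have e2 := key x 1 h
    simp only [one_smul, one_mul] at e2
    rw [← e1, ← e2] at hs
    have hfx : Φ 0 [] [] (zz x) = f x := rfl
    rw [hfx] at hs
    rw [← hι] at hq
    have n1 : ‖ι h‖ < δ := by linarith [S.η_pos k]
    have n2 : ‖(2 : ℝ) • ι h‖ < δ := by
      rw [norm_smul]
      norm_num
      linarith
    have a1 := h2 (y := ι h) (by simpa using n1)
    have a2 := h2 (y := (2 : ℝ) • ι h) (by simpa using n2)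
    rw [norm_smul, map_smul, smul_eq_mul] at a2
    norm_num at a1 a2
    have hη := S.η_pos k
    have a3 : |f (x + (2 : ℝ) • ι h) - 2 * f (x + ι h) + f x| ≤ 4 * (1 / 2000 * ‖ι h‖) := by
      have e : f (x + (2 : ℝ) • ι h) - 2 * f (x + ι h) + f x =
        (f (x + (2 : ℝ) • ι h) - f x - 2 * L (ι h)) - 2 * (f (x + ι h) - f x - L (ι h)) := by ring
      rw [e]
      refine (abs_sub _ _).trans ?_
      rw [abs_mul, abs_two]
      linarith
    linarith
end Pool.Agent.MPff6db8
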