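import Pool.Agent.MPff6db8.StageEx
import Pool.Agent.MPff6db8.DualPC
import Pool.Agent.MPff6db8.Fun

/-! MP_ff6db8_an (frozen S06854). The final theorem. -/

set_option autoImplicit false

namespace Pool.Agent.MPff6db8

open Finset

theorem final :
    ¬ (∀ (X : Type) [NormedAddCommGroup X] [NormedSpace ℝ X] [CompleteSpace X]
      [TopologicalSpace.SeparableSpace X],
      (∀ C : Set (X →L[ℝ] ℝ), C.Nonempty → Convex ℝ C →
        @IsCompact (X →L[ℝ] ℝ)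
          (TopologicalSpace.induced (fun (φ : X →L[ℝ] ℝ) (x : X) => φ x) inferInstance) C →
        ∃ φ ∈ C, ∀ ε : ℝ, 0 < ε → ∃ U : Set (X →L[ℝ] ℝ),
          @IsOpen (X →L[ℝ] ℝ)
            (TopologicalSpace.induced (fun (φ : X →L[ℝ] ℝ) (x : X) => φ x) inferInstance) U ∧
          φ ∈ U ∧ ∀ ψ ∈ U ∩ C, ‖ψ - φ‖ < ε) →
      ∀ f : X → ℝ, (∃ K, LipschitzWith K f) →
        (∀ x : X, ∃ L : X →L[ℝ] ℝ, ∀ v : X, HasLineDerivAt ℝ f (L v) x v) →
        ∃ x : X, DifferentiableAt ℝ f x) := by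
  intro H
  obtain ⟨P, ⟨S⟩⟩ := exists_stage
  obtain ⟨X, i1, i2, i3, i4, ι, hd, hι⟩ := exists_space P
  obtain ⟨f, hf1, hf2, hf3⟩ := exists_function S ι hd hι
  exact hf3 (H X (dual_pc ι hd hι) f hf1 hf2)

end Pool.Agent.MPff6db8
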