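import Pool.Agent.MPff6db8.Basic

/-! MP_ff6db8_an (frozen S06854). Flows and the operator L. -/

set_option autoImplicit false

namespace Pool.Agent.MPff6db8

open Finset

namespace Par

variable (P : Par)

theorem Lop_add (u v : Nd → ℝ) (ν : Nd) :
    P.Lop (fun μ => u μ + v μ) ν = P.Lop u ν + P.Lop v ν := by
  unfold Lop
  rw [← mul_add, ← Finset.sum_add_distrib]
  congr 1
  refine Finset.sum_congr rfl fun i _ => ?_
  rw [← Finset.sum_add_distrib]
  refine Finset.sum_congr rfl fun j _ => ?_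
  ring

theorem Lop_mul (a : ℝ) (v : Nd → ℝ) (ν : Nd) : P.Lop (fun μ => a * v μ) ν = a * P.Lop v ν := by
  have h : ∑ i ∈ range (P.r ν.1.length), ∑ j ∈ range (P.n ν.1.length),
      P.lab ν.1.length j * (a * v (i :: ν.1, j :: ν.2)) =
      a * ∑ i ∈ range (P.r ν.1.length), ∑ j ∈ range (P.n ν.1.length),
      P.lab ν.1.length j * v (i :: ν.1, j :: ν.2) := by
    rw [Finset.mul_sum]
    refine Finset.sum_congr rfl fun i _ => ?_
    rw [Finset.mul_sum]
    refine Finset.sum_congr rfl fun j _ => ?_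
    ring
  unfold Lop
  rw [h]
  ring

theorem isFlow_zero : P.IsFlow (fun _ => 0) where
  nonneg := fun _ => le_refl _
  zero_off := fun _ _ => rfl
  sum_le := by
    intro k c _ s _ i _
    simp

theorem IsFlow.add {P : Par} {u v : Nd → ℝ} (hu : P.IsFlow u) (hv : P.IsFlow v) :
    P.IsFlow (fun ν => u ν + v ν) where
  nonneg := fun ν => add_nonneg (hu.nonneg ν) (hv.nonneg ν)
  zero_off := fun ν h => by
    show u ν + v ν = 0
    rw [hu.zero_off ν h, hv.zero_off ν h, add_zero]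
  sum_le := by
    intro k c hc s hs i hi
    show ∑ j ∈ range (P.n k), (u (i :: c, j :: s) + v (i :: c, j :: s)) ≤ u (c, s) + v (c, s)
    rw [Finset.sum_add_distrib]
    exact add_le_add (hu.sum_le k c hc s hs i hi) (hv.sum_le k c hc s hs i hi)

theorem IsFlow.mul {P : Par} {v : Nd → ℝ} (hv : P.IsFlow v) {a : ℝ} (ha : 0 ≤ a) :
    P.IsFlow (fun ν => a * v ν) where
  nonneg := fun ν => mul_nonneg ha (hv.nonneg ν)
  zero_off := fun ν h => by
    show a * v ν = 0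
    rw [hv.zero_off ν h, mul_zero]
  sum_le := by
    intro k c hc s hs i hi
    show ∑ j ∈ range (P.n k), a * v (i :: c, j :: s) ≤ a * v (c, s)
    rw [← Finset.mul_sum]
    exact mul_le_mul_of_nonneg_left (hv.sum_le k c hc s hs i hi) ha

/-- the average over the columns of a quantity bounded by `C` is bounded by `C` -/
theorem avg_le (k : ℕ) (f : ℕ → ℝ) (C : ℝ) (h : ∀ i < P.r k, f i ≤ C) :
    (1 / (P.r k : ℝ)) * ∑ i ∈ range (P.r k), f i ≤ C := by
  have hr : (0 : ℝ) < P.r k := by exact_mod_cast P.r_pos k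
  have h1 : ∑ i ∈ range (P.r k), f i ≤ ∑ _i ∈ range (P.r k), C :=
    Finset.sum_le_sum fun i hi => h i (Finset.mem_range.mp hi)
  rw [Finset.sum_const, Finset.card_range, nsmul_eq_mul] at h1
  calc (1 / (P.r k : ℝ)) * ∑ i ∈ range (P.r k), f i
      ≤ (1 / (P.r k : ℝ)) * (P.r k * C) := mul_le_mul_of_nonneg_left h1 (by positivity)
    _ = C := by field_simp

/-- `|Lv| ≤ v` -/
theorem IsFlow.abs_Lop_le {P : Par} {v : Nd → ℝ} (hv : P.IsFlow v) (ν : Nd) :
    |P.Lop v ν| ≤ v ν := by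
  have hr : (0 : ℝ) < P.r ν.1.length := by exact_mod_cast P.r_pos ν.1.length
  by_cases hval : P.Val ν
  · unfold Lop
    rw [abs_mul, abs_of_nonneg (by positivity : (0 : ℝ) ≤ 1 / (P.r ν.1.length : ℝ))]
    refine le_trans (mul_le_mul_of_nonneg_left (Finset.abs_sum_le_sum_abs _ _)
      (by positivity)) ?_
    refine P.avg_le ν.1.length _ _ fun i hi => ?_
    refine le_trans (Finset.abs_sum_le_sum_abs _ _) ?_
    have hm := (P.mem_Lev (k := ν.1.length) (ν := ν)).mp hval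
    refine le_trans ?_ (hv.sum_le ν.1.length ν.1 hm.1 ν.2 hm.2 i hi)
    refine Finset.sum_le_sum fun j _ => ?_
    rw [abs_mul, abs_of_nonneg (hv.nonneg _)]
    exact mul_le_of_le_one_left (hv.nonneg _) (P.lab_le _ _)
  · have h0 : P.Lop v ν = 0 := by
      unfold Lop
      have : ∑ i ∈ range (P.r ν.1.length), ∑ j ∈ range (P.n ν.1.length),
          P.lab ν.1.length j * v (i :: ν.1, j :: ν.2) = 0 := by
        refine Finset.sum_eq_zero fun i _ => Finset.sum_eq_zero fun j _ => ?_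
        have hc : ¬ P.Val (i :: ν.1, j :: ν.2) := by
          intro hc
          have hc' : ((i :: ν.1, j :: ν.2) : Nd) ∈ P.Lev (ν.1.length + 1) := hc
          exact hval ((P.mem_Lev_child).mp hc').2.2
        rw [hv.zero_off _ hc, mul_zero]
      rw [this, mul_zero]
    rw [h0, abs_zero]
    exact hv.nonneg ν

/-- local form of the monotonicity of the masses -/
theorem IsFlow.sq_child_le {P : Par} {v : Nd → ℝ} (hv : P.IsFlow v) {k : ℕ} {ν : Nd}
    (h : ν ∈ P.Lev k) :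
    (1 / (P.r k : ℝ)) * ∑ i ∈ range (P.r k), ∑ j ∈ range (P.n k), v (i :: ν.1, j :: ν.2) ^ 2
      ≤ v ν ^ 2 := by
  refine P.avg_le k _ _ fun i hi => ?_
  have hm := (P.mem_Lev).mp h
  have h1 := hv.sum_le k ν.1 hm.1 ν.2 hm.2 i hi
  have h2 : ∑ j ∈ range (P.n k), v (i :: ν.1, j :: ν.2) ^ 2
      ≤ (∑ j ∈ range (P.n k), v (i :: ν.1, j :: ν.2)) ^ 2 :=
    Finset.sum_sq_le_sq_sum_of_nonneg fun j _ => hv.nonneg _
  refine le_trans h2 ?_
  exact pow_le_pow_left₀ (Finset.sum_nonneg fun j _ => hv.nonneg _) h1 2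

theorem IsFlow.lv_sq_anti {P : Par} {v : Nd → ℝ} (hv : P.IsFlow v) {k l : ℕ} (h : k ≤ l) :
    P.lv l (fun ν => v ν ^ 2) ≤ P.lv k (fun ν => v ν ^ 2) := by
  induction l, h using Nat.le_induction with
  | base => exact le_refl _
  | succ l _ ih =>
    refine le_trans ?_ ih
    rw [P.lv_succ]
    exact P.lv_mono fun ν hν => hv.sq_child_le hν

theorem IsFlow.nrm_le_root {P : Par} {v : Nd → ℝ} (hv : P.IsFlow v) (k : ℕ) :
    P.nrm k v ≤ v ([], []) := by
  rw [P.nrm_le_iff (hv.nonneg _)]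
  have h := hv.lv_sq_anti (Nat.zero_le k)
  rwa [P.lv_zero] at h

theorem tot_nonneg (k : ℕ) (p m : Nd → ℝ) : 0 ≤ P.tot k p m := by
  unfold tot
  have h1 : 0 ≤ P.lv k (fun ν => (p ν + m ν) ^ 2) := P.lv_nonneg fun ν _ => sq_nonneg _
  have h2 : 0 ≤ P.lv k (fun ν => p ν ^ 2) := P.lv_nonneg fun ν _ => sq_nonneg _
  have h3 : 0 ≤ P.lv k (fun ν => m ν ^ 2) := P.lv_nonneg fun ν _ => sq_nonneg _
  linarith

theorem tot_anti {p m : Nd → ℝ} (hp : P.IsFlow p) (hm : P.IsFlow m) {k l : ℕ} (h : k ≤ l) :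
    P.tot l p m ≤ P.tot k p m := by
  unfold tot
  have h1 := (hp.add hm).lv_sq_anti h
  have h2 := hp.lv_sq_anti h
  have h3 := hm.lv_sq_anti h
  exact add_le_add (add_le_add h1 h2) h3

theorem tot_zero_le {A τ : ℝ} {y p m : Nd → ℝ} (h : P.Lift A τ y p m) :
    P.tot 0 p m ≤ 3 * A ^ 2 := by
  obtain ⟨hp, hm, hA, -⟩ := h
  unfold tot
  rw [P.lv_zero, P.lv_zero, P.lv_zero]
  have hp0 := hp.nonneg ([], [])
  have hm0 := hm.nonneg ([], [])
  have h1 : (p ([], []) + m ([], [])) ^ 2 ≤ A ^ 2 := pow_le_pow_left₀ (add_nonneg hp0 hm0) hA 2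
  have h2 : p ([], []) ^ 2 ≤ A ^ 2 := pow_le_pow_left₀ hp0 (by linarith) 2
  have h3 : m ([], []) ^ 2 ≤ A ^ 2 := pow_le_pow_left₀ hm0 (by linarith) 2
  linarith

theorem Lift.mono {P : Par} {A A' τ τ' : ℝ} {y p m : Nd → ℝ} (h : P.Lift A τ y p m)
    (hA : A ≤ A') (hτ : τ ≤ τ') : P.Lift A' τ' y p m := by
  obtain ⟨hp, hm, hA0, hk⟩ := h
  refine ⟨hp, hm, hA0.trans hA, fun k => (hk k).trans ?_⟩
  exact add_le_add hτ (mul_le_mul_of_nonneg_right hA (P.κ_pos k).le)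

theorem Lift.scale {P : Par} {A τ R : ℝ} {y p m : Nd → ℝ} (h : P.Lift A τ y p m) (hR : 0 ≤ R) :
    P.Lift (R * A) (R * τ) (fun ν => R * y ν) (fun ν => R * p ν) (fun ν => R * m ν) := by
  obtain ⟨hp, hm, hA0, hk⟩ := h
  refine ⟨hp.mul hR, hm.mul hR, ?_, fun k => ?_⟩
  · show R * p ([], []) + R * m ([], []) ≤ R * A
    rw [← mul_add]
    exact mul_le_mul_of_nonneg_left hA0 hR
  · have h1 : P.nrm k (fun ν => R * y ν - (P.Lop (fun μ => R * p μ) ν
        - P.Lop (fun μ => R * m μ) ν)) =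
        R * P.nrm k (fun ν => y ν - (P.Lop p ν - P.Lop m ν)) := by
      rw [← abs_of_nonneg hR, ← P.nrm_mul, abs_of_nonneg hR]
      refine P.nrm_congr fun ν _ => ?_
      rw [P.Lop_mul, P.Lop_mul]
      ring
    rw [h1]
    calc R * P.nrm k (fun ν => y ν - (P.Lop p ν - P.Lop m ν))
        ≤ R * (τ + A * P.κ k) := mul_le_mul_of_nonneg_left (hk k) hR
      _ = R * τ + R * A * P.κ k := by ring

theorem Lift.neg {P : Par} {A τ : ℝ} {y p m : Nd → ℝ} (h : P.Lift A τ y p m) :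
    P.Lift A τ (fun ν => - y ν) m p := by
  obtain ⟨hp, hm, hA0, hk⟩ := h
  refine ⟨hm, hp, by linarith, fun k => ?_⟩
  have h1 : P.nrm k (fun ν => - y ν - (P.Lop m ν - P.Lop p ν)) =
      |(-1 : ℝ)| * P.nrm k (fun ν => y ν - (P.Lop p ν - P.Lop m ν)) := by
    rw [← P.nrm_mul]
    refine P.nrm_congr fun ν _ => ?_
    ring
  rw [h1, abs_neg, abs_one, one_mul]
  exact hk k

theorem Lift.convex {P : Par} {A τ a b : ℝ} {y p m y' p' m' : Nd → ℝ} (h : P.Lift A τ y p m)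
    (h' : P.Lift A τ y' p' m') (ha : 0 ≤ a) (hb : 0 ≤ b) (hab : a + b = 1) :
    P.Lift A τ (fun ν => a * y ν + b * y' ν) (fun ν => a * p ν + b * p' ν)
      (fun ν => a * m ν + b * m' ν) := by
  obtain ⟨hp, hm, hA0, hk⟩ := h
  obtain ⟨hp', hm', hA0', hk'⟩ := h'
  refine ⟨(hp.mul ha).add (hp'.mul hb), (hm.mul ha).add (hm'.mul hb), ?_, fun k => ?_⟩
  · show a * p ([], []) + b * p' ([], []) + (a * m ([], []) + b * m' ([], [])) ≤ A
    have h1 := mul_le_mul_of_nonneg_left hA0 ha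
    have h2 := mul_le_mul_of_nonneg_left hA0' hb
    have h3 : a * A + b * A = A := by rw [← add_mul, hab, one_mul]
    linarith
  · have h1 : P.nrm k (fun ν => a * y ν + b * y' ν -
        (P.Lop (fun μ => a * p μ + b * p' μ) ν - P.Lop (fun μ => a * m μ + b * m' μ) ν)) =
        P.nrm k (fun ν => a * (y ν - (P.Lop p ν - P.Lop m ν)) +
          b * (y' ν - (P.Lop p' ν - P.Lop m' ν))) := by
      refine P.nrm_congr fun ν _ => ?_
      rw [P.Lop_add, P.Lop_add, P.Lop_mul, P.Lop_mul, P.Lop_mul, P.Lop_mul]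
      ring
    rw [h1]
    have h2 := P.nrm_add_le k (fun ν => a * (y ν - (P.Lop p ν - P.Lop m ν)))
      (fun ν => b * (y' ν - (P.Lop p' ν - P.Lop m' ν)))
    rw [P.nrm_mul, P.nrm_mul, abs_of_nonneg ha, abs_of_nonneg hb] at h2
    refine h2.trans ?_
    have h3 := mul_le_mul_of_nonneg_left (hk k) ha
    have h4 := mul_le_mul_of_nonneg_left (hk' k) hb
    have h5 : a * (τ + A * P.κ k) + b * (τ + A * P.κ k) = τ + A * P.κ k := by
      rw [← add_mul, hab, one_mul]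
    linarith

theorem Lift.nrm_le {P : Par} {A τ : ℝ} {y p m : Nd → ℝ} (h : P.Lift A τ y p m) (k : ℕ) :
    P.nrm k y ≤ τ + A * P.κ k + A := by
  obtain ⟨hp, hm, hA0, hk⟩ := h
  have h1 : P.nrm k y = P.nrm k (fun ν => (y ν - (P.Lop p ν - P.Lop m ν)) +
      (P.Lop p ν - P.Lop m ν)) := by
    refine P.nrm_congr fun ν _ => ?_
    ring
  have h2 := P.nrm_add_le k (fun ν => y ν - (P.Lop p ν - P.Lop m ν))
    (fun ν => P.Lop p ν - P.Lop m ν)
  have h3 := P.nrm_sub_le k (P.Lop p) (P.Lop m)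
  have h4 : P.nrm k (P.Lop p) ≤ P.nrm k p := P.nrm_mono fun ν _ => by
    rw [abs_of_nonneg (hp.nonneg ν)]
    exact hp.abs_Lop_le ν
  have h5 : P.nrm k (P.Lop m) ≤ P.nrm k m := P.nrm_mono fun ν _ => by
    rw [abs_of_nonneg (hm.nonneg ν)]
    exact hm.abs_Lop_le ν
  have h6 := hp.nrm_le_root k
  have h7 := hm.nrm_le_root k
  have h8 := hk k
  rw [h1]
  linarith

end Par

end Pool.Agent.MPff6db8
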