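import Pool.Agent.MPff6db8.Compact
import Pool.Agent.MPff6db8.Qnorm

/-! MP_ff6db8_an (frozen S06854). Hahn-Banach. -/

set_option autoImplicit false

namespace Pool.Agent.MPff6db8

open Finset

namespace Par

variable (P : Par)

/-- a continuous linear functional on `Nd → ℝ` depends on finitely many coordinates -/
theorem hb_finite_support (g : (Nd → ℝ) →L[ℝ] ℝ) :
    ∃ F : Finset Nd, ∀ b : Nd → ℝ, g b = ∑ ν ∈ F, b ν * g (Pi.single ν 1) := by
  have hcont : Continuous (fun b : Nd → ℝ => g b) := g.continuous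
  have hopen : IsOpen {b : Nd → ℝ | |g b| < 1} :=
    isOpen_lt (continuous_abs.comp hcont) continuous_const
  have h0 : (0 : Nd → ℝ) ∈ {b : Nd → ℝ | |g b| < 1} := by simp
  rw [isOpen_pi_iff] at hopen
  obtain ⟨I, u, hu, hsub⟩ := hopen 0 h0
  refine ⟨I, fun b => ?_⟩
  have key : ∀ w : Nd → ℝ, (∀ ν ∈ I, w ν = 0) → g w = 0 := by
    intro w hw
    by_contra hne
    have h1 : (fun ν => (2 / g w) * w ν) ∈ {b : Nd → ℝ | |g b| < 1} := by
      apply hsub
      intro ν hν
      have : (2 / g w) * w ν = 0 := by rw [hw ν hν, mul_zero]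
      simp only [this]
      exact (hu ν hν).2
    have h2 : g (fun ν => (2 / g w) * w ν) = 2 := by
      have : (fun ν => (2 / g w) * w ν) = (2 / g w) • w := by
        funext ν; simp
      rw [this, map_smul, smul_eq_mul]
      field_simp
    change |g (fun ν => (2 / g w) * w ν)| < 1 at h1
    rw [h2] at h1
    norm_num at h1
  have h3 := key (b - ∑ ν ∈ I, b ν • (Pi.single ν (1 : ℝ) : Nd → ℝ)) (by
    intro ν hν
    simp only [Pi.sub_apply, Finset.sum_apply, Pi.smul_apply, smul_eq_mul, Pi.single_apply]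
    rw [Finset.sum_eq_single ν]
    · simp
    · intro μ _ hμ
      rw [if_neg (Ne.symm hμ), mul_zero]
    · intro h; exact absurd hν h)
  rw [map_sub, map_sum, sub_eq_zero] at h3
  rw [h3]
  refine sum_congr rfl fun ν _ => ?_
  rw [map_smul, smul_eq_mul]

theorem hb_lift_zero (A τ : ℝ) (hA : 0 ≤ A) (hτ : 0 ≤ τ) (w : Nd → ℝ)
    (hw : ∀ ν, P.Val ν → w ν = 0) : P.Lift A τ w (fun _ => 0) (fun _ => 0) := by
  refine ⟨P.isFlow_zero, P.isFlow_zero, by simpa using hA, fun k => ?_⟩
  have h1 : P.nrm k (fun ν => w ν - (P.Lop (fun _ => 0) ν - P.Lop (fun _ => 0) ν)) = 0 := by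
    unfold nrm
    have : P.lv k (fun ν => (w ν - (P.Lop (fun _ => 0) ν - P.Lop (fun _ => 0) ν)) ^ 2)
        = P.lv k (fun _ => 0) := by
      apply P.lv_congr
      intro ν hν
      rw [hw ν (P.mem_Lev_iff.1 hν).1]
      ring
    rw [this]
    simp [lv]
  rw [h1]
  have := P.κ_pos k
  positivity

theorem exists_lift_of_le (A τ R : ℝ) (hA : 0 ≤ A) (hτ : 0 < τ) (hR : 0 < R) (y : Nd → ℝ)
    (h : ∀ (x : Nd →₀ ℝ) (M : ℝ), (∀ b, (∃ p m, P.Lift A τ b p m) → P.pair b x ≤ M) →
      P.pair y x ≤ R * M) :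
    ∃ p m, P.Lift (R * A) (R * τ) y p m := by
  classical
  set S : Set (Nd → ℝ) := {b | ∃ p m, P.Lift A τ b p m} with hS
  have hclosed : IsClosed S := by
    have h1 := P.isClosed_lift A τ Set.univ isClosed_univ
    have h2 : {y : Nd → ℝ | ∃ p m, P.Lift A τ y p m ∧ (p, m) ∈ (Set.univ : Set _)} = S := by
      ext b
      simp [hS]
    rw [h2] at h1
    exact h1
  have hconv : Convex ℝ S := by
    rintro b ⟨p, m, hb⟩ b' ⟨p', m', hb'⟩ s t hs ht hst
    exact ⟨_, _, hb.convex hb' hs ht hst⟩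
  have hzero : ∀ w : Nd → ℝ, (∀ ν, P.Val ν → w ν = 0) → w ∈ S := fun w hw =>
    ⟨_, _, P.hb_lift_zero A τ hA hτ.le w hw⟩
  by_cases hz : (fun ν => (1 / R) * y ν) ∈ S
  · obtain ⟨p, m, hpm⟩ := hz
    refine ⟨fun ν => R * p ν, fun ν => R * m ν, ?_⟩
    have h1 := hpm.scale hR.le
    have h2 : (fun ν => R * ((1 / R) * y ν)) = y := by
      funext ν
      field_simp
    rw [h2] at h1
    exact h1
  · exfalso
    obtain ⟨g, u, hgS, hgz⟩ := geometric_hahn_banach_closed_point hconv hclosed hz
    obtain ⟨F, hF⟩ := hb_finite_support g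
    have hinv : ∀ ν, ¬ P.Val ν → g (Pi.single ν 1) = 0 := by
      intro ν hν
      by_contra hne
      have hu : 0 < u := by
        have := hgS 0 (hzero 0 (fun _ _ => rfl))
        simpa using this
      have h1 : ((2 * u / g (Pi.single ν 1)) • (Pi.single ν (1 : ℝ) : Nd → ℝ)) ∈ S := by
        apply hzero
        intro μ hμ
        have : μ ≠ ν := fun h => hν (h ▸ hμ)
        simp [this]
      have h2 := hgS _ h1
      rw [map_smul, smul_eq_mul] at h2
      have h3 : 2 * u / g (Pi.single ν 1) * g (Pi.single ν 1) = 2 * u := by field_simp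
      rw [h3] at h2
      linarith
    set x : Nd →₀ ℝ := ∑ ν ∈ F, Finsupp.single ν (g (Pi.single ν 1) / P.wt ν) with hx
    have hpair : ∀ b, P.pair b x = g b := by
      intro b
      rw [hx, P.pair_sum, hF b]
      refine sum_congr rfl fun ν _ => ?_
      rw [P.pair_single]
      by_cases hv : P.Val ν
      · have hw : P.wt ν ≠ 0 := by
          unfold wt
          rw [if_pos hv]
          exact (P.pk_pos _).ne'
        field_simp
      · rw [hinv ν hv]
        simp
    have h1 := h x u (fun b hb => by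
      rw [hpair]
      exact (hgS b hb).le)
    rw [hpair] at h1
    have h2 : (fun ν => (1 / R) * y ν) = (1 / R) • y := by
      funext ν; simp
    rw [h2, map_smul, smul_eq_mul] at hgz
    have h3 : R * u < g y := by
      have := mul_lt_mul_of_pos_left hgz hR
      rw [← mul_assoc, mul_one_div_cancel hR.ne', one_mul] at this
      exact this
    linarith

end Par

end Pool.Agent.MPff6db8
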