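import Pool.Agent.MPff6db8.Defs

/-! MP_ff6db8_an (frozen S06854). The limit functions. -/

set_option autoImplicit false

namespace Pool.Agent.MPff6db8

open Finset Filter Topology

/-- the finite stages -/
private noncomputable def FF {P : Par} (S : Stage P) :
    ℕ → ℕ → List ℕ → List ℕ → (Nd → ℝ) → ℝ
  | 0, _, _, _, _ => 0
  | (d + 1), k, c, s, z => S.η k * Real.sin (z (c, s) / S.η k) +
    (1 / (P.r k : ℝ)) * ∑ i ∈ range (P.r k), ∑ j ∈ range (P.n k),
      S.Q k i j (z (c, s)) * FF S d (k + 1) (i :: c) (j :: s) z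

/-- averages are bounded by the supremum -/
private theorem avg_le {P : Par} (S : Stage P) (k : ℕ) (t C : ℝ) (hC : 0 ≤ C)
    (g : ℕ → ℕ → ℝ) (hg : ∀ i j, |g i j| ≤ C) :
    |(1 / (P.r k : ℝ)) * ∑ i ∈ range (P.r k), ∑ j ∈ range (P.n k), S.Q k i j t * g i j| ≤ C := by
  have hr : (0 : ℝ) < P.r k := by exact_mod_cast P.r_pos k
  rw [abs_mul, abs_of_pos (by positivity : (0 : ℝ) < 1 / (P.r k : ℝ))]
  have h1 : |∑ i ∈ range (P.r k), ∑ j ∈ range (P.n k), S.Q k i j t * g i j| ≤ P.r k * C := by
    calc _ ≤ ∑ i ∈ range (P.r k), |∑ j ∈ range (P.n k), S.Q k i j t * g i j| :=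
          Finset.abs_sum_le_sum_abs _ _
      _ ≤ ∑ i ∈ range (P.r k), C := by
          refine Finset.sum_le_sum fun i hi => ?_
          calc _ ≤ ∑ j ∈ range (P.n k), |S.Q k i j t * g i j| := Finset.abs_sum_le_sum_abs _ _
            _ ≤ ∑ j ∈ range (P.n k), S.Q k i j t * C := by
                refine Finset.sum_le_sum fun j _ => ?_
                rw [abs_mul, abs_of_nonneg (S.Q_nonneg k i j t)]
                exact mul_le_mul_of_nonneg_left (hg i j) (S.Q_nonneg k i j t)
            _ = C := by
                rw [← Finset.sum_mul, S.Q_sum k i t (Finset.mem_range.1 hi), one_mul]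
      _ = P.r k * C := by rw [Finset.sum_const, Finset.card_range, nsmul_eq_mul]
  calc (1 / (P.r k : ℝ)) * _ ≤ (1 / (P.r k : ℝ)) * (P.r k * C) := by gcongr
    _ = C := by field_simp

private theorem sin_le {P : Par} (S : Stage P) (k : ℕ) (t : ℝ) :
    |S.η k * Real.sin (t / S.η k)| ≤ S.η k := by
  rw [abs_mul, abs_of_pos (S.η_pos k)]
  have := Real.abs_sin_le_one (t / S.η k)
  nlinarith [S.η_pos k]

private theorem FF_bound {P : Par} (S : Stage P) (d : ℕ) : ∀ k c s z,
    |FF S d k c s z| ≤ 2 * S.η k := by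
  induction d with
  | zero =>
    intro k c s z
    have := S.η_pos k
    simp only [FF, abs_zero]
    linarith
  | succ d ih =>
    intro k c s z
    rw [FF]
    have h1 := S.η_pos k
    have h2 := S.η_pos (k + 1)
    have h3 := S.η_succ k
    have h4 := avg_le S k (z (c, s)) (2 * S.η (k + 1)) (by linarith)
      (fun i j => FF S d (k + 1) (i :: c) (j :: s) z) (fun i j => ih _ _ _ _)
    have h5 := sin_le S k (z (c, s))
    refine (abs_add_le _ _).trans ?_
    linarith

private theorem FF_diff {P : Par} (S : Stage P) (d : ℕ) : ∀ k c s z,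
    |FF S (d + 1) k c s z - FF S d k c s z| ≤ 2 * S.η (k + d) := by
  induction d with
  | zero =>
    intro k c s z
    have h := FF_bound S 1 k c s z
    simpa [FF] using h
  | succ d ih =>
    intro k c s z
    have e : FF S (d + 1 + 1) k c s z - FF S (d + 1) k c s z
        = (1 / (P.r k : ℝ)) * ∑ i ∈ range (P.r k), ∑ j ∈ range (P.n k),
          S.Q k i j (z (c, s)) * (FF S (d + 1) (k + 1) (i :: c) (j :: s) z -
            FF S d (k + 1) (i :: c) (j :: s) z) := by
      rw [FF, FF]
      simp only [mul_sub, Finset.sum_sub_distrib]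
      ring
    rw [e]
    have h2 := S.η_pos (k + 1 + d)
    refine avg_le S k (z (c, s)) (2 * S.η (k + (d + 1))) ?_ _ fun i j => ?_
    · rw [show k + (d + 1) = k + 1 + d by ring]; linarith
    · rw [show k + (d + 1) = k + 1 + d by ring]
      exact ih _ _ _ _

private theorem eta_geo {P : Par} (S : Stage P) (k d : ℕ) :
    2 * S.η (k + d) ≤ 2 * S.η k * (1 / 128) ^ d := by
  induction d with
  | zero => simp
  | succ d ih =>
    have h := S.η_succ (k + d)
    have h2 : 2 * S.η (k + (d + 1)) ≤ 2 * S.η (k + d) * (1 / 128) := by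
      rw [show k + (d + 1) = k + d + 1 by ring]
      linarith
    calc _ ≤ 2 * S.η (k + d) * (1 / 128) := h2
      _ ≤ 2 * S.η k * (1 / 128) ^ d * (1 / 128) := by gcongr
      _ = _ := by rw [pow_succ]; ring

private theorem FF_dist {P : Par} (S : Stage P) (d k : ℕ) (c s : List ℕ) (z : Nd → ℝ) :
    dist (FF S d k c s z) (FF S (d + 1) k c s z) ≤ 2 * S.η k * (1 / 128) ^ d := by
  rw [dist_comm, Real.dist_eq]
  exact (FF_diff S d k c s z).trans (eta_geo S k d)

private theorem FF_exists {P : Par} (S : Stage P) (k : ℕ) (c s : List ℕ) (z : Nd → ℝ) :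
    ∃ x, Tendsto (fun d => FF S d k c s z) atTop (𝓝 x) :=
  cauchySeq_tendsto_of_complete
    (cauchySeq_of_le_geometric (1 / 128) (2 * S.η k) (by norm_num) (fun d => FF_dist S d k c s z))

private noncomputable def PH {P : Par} (S : Stage P) (k : ℕ) (c s : List ℕ) (z : Nd → ℝ) : ℝ :=
  (FF_exists S k c s z).choose

private theorem PH_lim {P : Par} (S : Stage P) (k : ℕ) (c s : List ℕ) (z : Nd → ℝ) :
    Tendsto (fun d => FF S d k c s z) atTop (𝓝 (PH S k c s z)) :=
  (FF_exists S k c s z).choose_spec

private theorem FF_cont {P : Par} (S : Stage P) (d : ℕ) : ∀ k c s,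
    Continuous (FF S d k c s) := by
  induction d with
  | zero =>
    intro k c s
    have : FF S 0 k c s = fun _ => 0 := by
      funext z
      rw [FF]
    rw [this]
    exact continuous_const
  | succ d ih =>
    intro k c s
    have : FF S (d + 1) k c s = fun z => S.η k * Real.sin (z (c, s) / S.η k) +
      (1 / (P.r k : ℝ)) * ∑ i ∈ range (P.r k), ∑ j ∈ range (P.n k),
        S.Q k i j (z (c, s)) * FF S d (k + 1) (i :: c) (j :: s) z := by
      funext z
      rw [FF]
    rw [this]
    have hz : Continuous fun z : Nd → ℝ => z (c, s) := continuous_apply _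
    have hQ : ∀ i j, Continuous (S.Q k i j) := fun i j =>
      continuous_iff_continuousAt.2 fun t => (S.Q_deriv k i j t).continuousAt
    refine (continuous_const.mul (Real.continuous_sin.comp (hz.div_const _))).add
      (continuous_const.mul (continuous_finsetSum _ fun i _ => continuous_finsetSum _ fun j _ =>
        ((hQ i j).comp hz).mul (ih _ _ _)))

private theorem FF_local {P : Par} (S : Stage P) (d : ℕ) : ∀ k c s (z z' : Nd → ℝ),
    (∀ l l' : List ℕ, z (l ++ c, l' ++ s) = z' (l ++ c, l' ++ s)) →
    FF S d k c s z = FF S d k c s z' := by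
  induction d with
  | zero => intros; rw [FF, FF]
  | succ d ih =>
    intro k c s z z' h
    rw [FF, FF]
    have h0 : z (c, s) = z' (c, s) := by simpa using h [] []
    rw [h0]
    congr 1
    congr 1
    refine Finset.sum_congr rfl fun i _ => Finset.sum_congr rfl fun j _ => ?_
    rw [ih (k + 1) (i :: c) (j :: s) z z']
    intro l l'
    have := h (l ++ [i]) (l' ++ [j])
    simpa using this

theorem exists_lim {P : Par} (S : Stage P) :
    ∃ Φ : ℕ → List ℕ → List ℕ → (Nd → ℝ) → ℝ, IsLim S Φ := by
  refine ⟨PH S, ?_, ?_, ?_, ?_⟩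
  · intro k c s z
    have h1 : Tendsto (fun d => FF S (d + 1) k c s z) atTop (𝓝 (PH S k c s z)) :=
      (PH_lim S k c s z).comp (tendsto_add_atTop_nat 1)
    have h2 : Tendsto (fun d => FF S (d + 1) k c s z) atTop
        (𝓝 (S.η k * Real.sin (z (c, s) / S.η k) +
          (1 / (P.r k : ℝ)) * ∑ i ∈ range (P.r k), ∑ j ∈ range (P.n k),
            S.Q k i j (z (c, s)) * PH S (k + 1) (i :: c) (j :: s) z)) := by
      simp only [FF]
      refine tendsto_const_nhds.add (tendsto_const_nhds.mul ?_)
      refine tendsto_finsetSum _ fun i _ => tendsto_finsetSum _ fun j _ => ?_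
      exact tendsto_const_nhds.mul (PH_lim S _ _ _ _)
    exact tendsto_nhds_unique h1 h2
  · intro k c s z
    exact le_of_tendsto (PH_lim S k c s z).abs
      (Eventually.of_forall fun d => FF_bound S d k c s z)
  · intro k c s
    have hu : TendstoUniformly (fun d => FF S d k c s) (PH S k c s) atTop := by
      rw [Metric.tendstoUniformly_iff]
      intro ε hε
      have hlim : Tendsto (fun d : ℕ => 2 * S.η k * (1 / 128 : ℝ) ^ d / (1 - 1 / 128)) atTop
          (𝓝 (2 * S.η k * 0 / (1 - 1 / 128))) :=
        (tendsto_const_nhds.mul (tendsto_pow_atTop_nhds_zero_of_lt_one (by norm_num)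
          (by norm_num))).div_const _
      rw [mul_zero, zero_div] at hlim
      filter_upwards [hlim.eventually (gt_mem_nhds hε)] with d hd z
      rw [dist_comm]
      exact (dist_le_of_le_geometric_of_tendsto (1 / 128) (2 * S.η k) (by norm_num)
        (fun d => FF_dist S d k c s z) (PH_lim S k c s z) d).trans_lt hd
    exact hu.continuous (Eventually.of_forall fun d => FF_cont S d k c s).frequently
  · intro k c s z z' h
    refine tendsto_nhds_unique (PH_lim S k c s z) ?_
    have := PH_lim S k c s z'
    refine this.congr fun d => ?_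
    exact (FF_local S d k c s z z' h).symm

end Pool.Agent.MPff6db8
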