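import Pool.Agent.MPff6db8.SmallOsc
import Pool.Agent.MPff6db8.HB

/-! MP_ff6db8_an (frozen S06854). The point of continuity theorem. -/

set_option autoImplicit false

namespace Pool.Agent.MPff6db8

open Finset

namespace Par

variable (P : Par)

theorem tt_pos (n : ℕ) : 0 < tt n := by
  unfold tt
  positivity

theorem exists_nJ (R ε : ℝ) (hR : 1 ≤ R) (hε : 0 < ε) :
    ∃ n J : ℕ, 3000 * (R * (2 : ℝ) ^ n) ^ 2 / ε ^ 2 < J ∧ 12 ^ J * (R * tt n) ≤ ε / 16 := by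
  obtain ⟨K, hK⟩ := pow_unbounded_of_one_lt (16 * R / ε) (by norm_num : (1 : ℝ) < 12)
  set c : ℝ := 3000 * R ^ 2 / ε ^ 2 with hc
  have hc0 : 0 ≤ c := by positivity
  obtain ⟨n, hn⟩ := pow_unbounded_of_one_lt (c + 1 + K) (by norm_num : (1 : ℝ) < 2)
  set a : ℝ := 3000 * (R * (2 : ℝ) ^ n) ^ 2 / ε ^ 2 with ha
  have ha0 : 0 ≤ a := by positivity
  have hac : a = c * (2 : ℝ) ^ n * (2 : ℝ) ^ n := by
    rw [ha, hc]; ring
  have h1 : (1 : ℝ) ≤ (2 : ℝ) ^ n := one_le_pow₀ (by norm_num)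
  refine ⟨n, ⌊a⌋₊ + 1, by push_cast; exact Nat.lt_floor_add_one a, ?_⟩
  have hJ : ((⌊a⌋₊ : ℕ) : ℝ) ≤ a := Nat.floor_le ha0
  have hJK : ⌊a⌋₊ + 1 + K ≤ 8 ^ n := by
    have h2 : (((⌊a⌋₊ + 1 + K : ℕ)) : ℝ) ≤ ((8 ^ n : ℕ) : ℝ) := by
      push_cast
      have h8 : (8 : ℝ) ^ n = (2 : ℝ) ^ n * ((2 : ℝ) ^ n * (2 : ℝ) ^ n) := by
        rw [show (8 : ℝ) = 2 * (2 * 2) by norm_num, mul_pow, mul_pow]
      rw [h8]
      have h3 : (1 : ℝ) ≤ (2 : ℝ) ^ n * (2 : ℝ) ^ n := by nlinarith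
      have h4 : (c + 1 + K) * ((2 : ℝ) ^ n * (2 : ℝ) ^ n)
          ≤ (2 : ℝ) ^ n * ((2 : ℝ) ^ n * (2 : ℝ) ^ n) :=
        mul_le_mul_of_nonneg_right hn.le (by positivity)
      have hK0 : (0 : ℝ) ≤ (K : ℝ) := Nat.cast_nonneg K
      have h5 : c * (2 : ℝ) ^ n * (2 : ℝ) ^ n + 1 + K
          ≤ (c + 1 + K) * ((2 : ℝ) ^ n * (2 : ℝ) ^ n) := by nlinarith
      linarith
    exact_mod_cast h2
  obtain ⟨d, hd⟩ := Nat.exists_eq_add_of_le hJK
  have h12 : (12 : ℝ) ^ (8 ^ n) = 12 ^ (⌊a⌋₊ + 1) * 12 ^ K * 12 ^ d := by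
    rw [hd, pow_add, pow_add]
  have htt : tt n = 1 / (12 : ℝ) ^ (8 ^ n) := by
    unfold tt
    rw [div_pow, one_pow]
  rw [htt, h12]
  have hd1 : (1 : ℝ) ≤ (12 : ℝ) ^ d := one_le_pow₀ (by norm_num)
  have e1 : (12 : ℝ) ^ (⌊a⌋₊ + 1) * (R * (1 / (12 ^ (⌊a⌋₊ + 1) * 12 ^ K * 12 ^ d)))
      = R / (12 ^ K * 12 ^ d) := by
    field_simp
  rw [e1, div_le_div_iff₀ (by positivity) (by norm_num)]
  have h6 : 16 * R < 12 ^ K * ε := by
    rwa [div_lt_iff₀ hε] at hK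
  have h7 : 12 ^ K * ε ≤ 12 ^ K * ε * 12 ^ d := by
    have : 0 < (12 : ℝ) ^ K * ε := by positivity
    nlinarith
  nlinarith

theorem zero_add_zero_le (n : ℕ) : (0 : ℝ) + 0 ≤ (2 : ℝ) ^ n := by
  rw [add_zero]; positivity

theorem inU_zero (n : ℕ) : P.InU n (fun _ => 0) := by
  refine ⟨fun _ => 0, fun _ => 0, P.isFlow_zero, P.isFlow_zero, zero_add_zero_le n, fun k => ?_⟩
  have h : P.nrm k (fun ν => (0 : ℝ) - (P.Lop (fun _ => 0) ν - P.Lop (fun _ => 0) ν)) = 0 := by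
    have : (fun ν : Nd => (0 : ℝ) - (P.Lop (fun _ => 0) ν - P.Lop (fun _ => 0) ν))
        = fun _ => 0 := by
      funext ν; ring
    rw [this, P.nrm_zero]
  rw [h]
  have h1 := P.κ_pos k
  have h2 := tt_pos n
  positivity

theorem inU_small (n : ℕ) (b : Nd → ℝ) (h : ∀ k, P.nrm k b ≤ tt n) : P.InU n b := by
  refine ⟨fun _ => 0, fun _ => 0, P.isFlow_zero, P.isFlow_zero, zero_add_zero_le n, fun k => ?_⟩
  have h3 : (fun ν : Nd => b ν - (P.Lop (fun _ => 0) ν - P.Lop (fun _ => 0) ν)) = b := by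
    funext ν; ring
  rw [h3]
  have h1 := P.κ_pos k
  have h2 := h k
  have : 0 ≤ (2 : ℝ) ^ n * P.κ k := by positivity
  linarith

theorem inU_neg (n : ℕ) (b : Nd → ℝ) (h : P.InU n b) : P.InU n (fun ν => - b ν) := by
  obtain ⟨p, m, hl⟩ := h
  exact ⟨m, p, hl.neg⟩

theorem pair_zero (b : Nd → ℝ) : P.pair b 0 = 0 := by
  simp [pair]

theorem pair_fun_zero (x : Nd →₀ ℝ) : P.pair (fun _ => 0) x = 0 := by
  simp [pair, Finsupp.sum]

theorem pair_neg_left (b : Nd → ℝ) (x : Nd →₀ ℝ) :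
    P.pair (fun ν => - b ν) x = - P.pair b x := by
  have := P.pair_mul_left (-1) b x
  simpa using this

theorem q_le_one_of (M : ℕ) (ξ : ℕ → (Nd →₀ ℝ))
    (h : ∀ n b, P.InU n b → P.pair b (ξ n) ≤ 1) : P.q (∑ n ∈ range M, ξ n) ≤ 1 := by
  unfold q
  refine csInf_le ⟨0, fun t ht => ht.1⟩ ?_
  exact ⟨zero_le_one, M, ξ, rfl, fun n _ b hb => h n b hb⟩

/-- the closed sets `F_N` -/
def FN (δ : ℝ) (N : ℕ) : Set (Nd → ℝ) :=
  {y | ∀ (M' : ℕ) (ξ : ℕ → (Nd →₀ ℝ)), (∀ n b, P.InU n b → P.pair b (ξ n) ≤ 1) →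
    ∑ n ∈ Ico N M', P.pair y (ξ n) ≤ δ}

theorem isClosed_FN (δ : ℝ) (N : ℕ) : IsClosed (P.FN δ N) := by
  have : P.FN δ N = ⋂ (M' : ℕ), ⋂ (ξ : ℕ → (Nd →₀ ℝ)),
      ⋂ (_ : ∀ n b, P.InU n b → P.pair b (ξ n) ≤ 1),
        {y : Nd → ℝ | ∑ n ∈ Ico N M', P.pair y (ξ n) ≤ δ} := by
    ext y
    simp only [FN, Set.mem_iInter]
    rfl
  rw [this]
  refine isClosed_iInter fun M' => isClosed_iInter fun ξ => isClosed_iInter fun _ => ?_
  refine isClosed_le ?_ continuous_const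
  exact continuous_finsetSum _ fun n _ => P.continuous_pair (ξ n)

theorem exists_blocks (δ : ℝ) (hδ : 0 < δ) (y : Nd → ℝ) (h : ∀ N, y ∉ P.FN δ N) (m : ℕ) :
    ∃ (M : ℕ) (ξ : ℕ → (Nd →₀ ℝ)), (∀ n b, P.InU n b → P.pair b (ξ n) ≤ 1) ∧
      m * δ ≤ ∑ n ∈ range M, P.pair y (ξ n) := by
  induction m with
  | zero =>
    refine ⟨0, fun _ => 0, fun n b _ => ?_, by simp⟩
    rw [P.pair_zero]; exact zero_le_one
  | succ m ih =>
    obtain ⟨M, ξ, h1, h2⟩ := ih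
    have h3 := h M
    simp only [FN] at h3
    have h3' : ¬ ∀ (M' : ℕ) (ξ : ℕ → (Nd →₀ ℝ)), (∀ n b, P.InU n b → P.pair b (ξ n) ≤ 1) →
        ∑ n ∈ Ico M M', P.pair y (ξ n) ≤ δ := h3
    push Not at h3'
    obtain ⟨M', ξ', h4, h5⟩ := h3'
    have hMM : M ≤ M' := by
      by_contra hlt
      push Not at hlt
      rw [Finset.Ico_eq_empty_of_le hlt.le] at h5
      simp at h5
      linarith
    refine ⟨M', fun n => if n < M then ξ n else ξ' n, ?_, ?_⟩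
    · intro n b hb
      by_cases hn : n < M
      · simp only [hn, if_true]; exact h1 n b hb
      · simp only [hn, if_false]; exact h4 n b hb
    · rw [← Finset.sum_range_add_sum_Ico _ hMM]
      have e1 : ∑ n ∈ range M, P.pair y (if n < M then ξ n else ξ' n)
          = ∑ n ∈ range M, P.pair y (ξ n) := by
        refine Finset.sum_congr rfl fun n hn => ?_
        rw [if_pos (Finset.mem_range.1 hn)]
      have e2 : ∑ n ∈ Ico M M', P.pair y (if n < M then ξ n else ξ' n)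
          = ∑ n ∈ Ico M M', P.pair y (ξ' n) := by
        refine Finset.sum_congr rfl fun n hn => ?_
        rw [if_neg (not_lt.2 (Finset.mem_Ico.1 hn).1)]
      rw [e1, e2]
      push_cast
      nlinarith

theorem cover_FN (R δ : ℝ) (hR : 0 ≤ R) (hδ : 0 < δ) (y : Nd → ℝ)
    (hy : ∀ x, P.pair y x ≤ R * P.q x) : ∃ N, y ∈ P.FN δ N := by
  by_contra hcon
  push Not at hcon
  obtain ⟨m, hm⟩ := exists_nat_gt (R / δ)
  obtain ⟨M, ξ, h1, h2⟩ := P.exists_blocks δ hδ y hcon m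
  have h3 := P.q_le_one_of M ξ h1
  have h4 := hy (∑ n ∈ range M, ξ n)
  rw [P.pair_sum] at h4
  have h5 : R < m * δ := by rwa [div_lt_iff₀ hδ] at hm
  nlinarith

theorem exists_closed_convex_nhd (y : Nd → ℝ) (V : Set (Nd → ℝ)) (hV : IsOpen V) (hy : y ∈ V) :
    ∃ D : Set (Nd → ℝ), IsClosed D ∧ Convex ℝ D ∧ D ⊆ V ∧ y ∈ interior D := by
  obtain ⟨W, hW, hWc, hWV⟩ := exists_mem_nhds_isClosed_subset (hV.mem_nhds hy)
  obtain ⟨D, ⟨hD, hDc⟩, hDW⟩ := (LocallyConvexSpace.convex_basis (𝕜 := ℝ) y).mem_iff.1 hW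
  refine ⟨closure D, isClosed_closure, hDc.closure, (closure_minimal hDW hWc).trans hWV, ?_⟩
  exact mem_interior_iff_mem_nhds.2 (Filter.mem_of_superset hD subset_closure)

/-- the estimate of the difference of two pairings -/
theorem diff_bound (δ ε2 : ℝ) (N : ℕ) (hε2 : 0 < ε2) (y y' : Nd → ℝ)
    (hy : y ∈ P.FN δ N) (hy' : y' ∈ P.FN δ N)
    (hosc : ∀ k, P.nrm k (fun ν => y' ν - y ν) ≤ ε2) (x : Nd →₀ ℝ) (M : ℝ) (hM : P.q x < M) :
    P.pair y' x - P.pair y x ≤ (∑ n ∈ range N, ε2 / tt n + 2 * δ) * M := by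
  have hM0 : 0 < M := lt_of_le_of_lt (P.q_nonneg x) hM
  obtain ⟨N', ξ0, hx, hξ0⟩ := P.exists_of_q_lt x M hM
  set L := max N N' with hL
  set ξ : ℕ → (Nd →₀ ℝ) := fun n => if n < N' then ξ0 n else 0 with hξdef
  have hξ : ∀ n b, P.InU n b → P.pair b (ξ n) ≤ M := by
    intro n b hb
    by_cases hn : n < N'
    · simp only [hξdef, hn, if_true]; exact hξ0 n hn b hb
    · simp only [hξdef, hn, if_false]; rw [P.pair_zero]; exact hM0.le
  have hxL : x = ∑ n ∈ range L, ξ n := by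
    rw [hx, ← Finset.sum_range_add_sum_Ico ξ (le_max_right N N')]
    have e1 : ∑ n ∈ range N', ξ n = ∑ n ∈ range N', ξ0 n := by
      refine Finset.sum_congr rfl fun n hn => ?_
      simp only [hξdef]
      rw [if_pos (Finset.mem_range.1 hn)]
    have e2 : ∑ n ∈ Ico N' (max N N'), ξ n = 0 := by
      refine Finset.sum_eq_zero fun n hn => ?_
      simp only [hξdef]
      rw [if_neg (not_lt.2 (Finset.mem_Ico.1 hn).1)]
    rw [e1, e2, add_zero]
  have hNL : N ≤ L := le_max_left N N'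
  -- the first part
  have hfirst : ∀ n, P.pair y' (ξ n) - P.pair y (ξ n) ≤ ε2 / tt n * M := by
    intro n
    have ht := tt_pos n
    have h1 : P.InU n (fun ν => tt n / ε2 * (y' ν - y ν)) := by
      refine P.inU_small n _ fun k => ?_
      rw [P.nrm_mul, abs_of_pos (by positivity)]
      calc tt n / ε2 * P.nrm k (fun ν => y' ν - y ν) ≤ tt n / ε2 * ε2 :=
            mul_le_mul_of_nonneg_left (hosc k) (by positivity)
        _ = tt n := by field_simp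
    have h2 := hξ n _ h1
    have h3 : P.pair (fun ν => tt n / ε2 * (y' ν - y ν)) (ξ n)
        = tt n / ε2 * (P.pair y' (ξ n) - P.pair y (ξ n)) := by
      rw [P.pair_mul_left (tt n / ε2) (fun ν => y' ν - y ν), P.pair_sub_left]
    rw [h3] at h2
    have h4 : P.pair y' (ξ n) - P.pair y (ξ n)
        = ε2 / tt n * (tt n / ε2 * (P.pair y' (ξ n) - P.pair y (ξ n))) := by
      field_simp
    rw [h4]
    exact mul_le_mul_of_nonneg_left h2 (by positivity)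
  -- the tails
  have htail1 : ∑ n ∈ Ico N L, P.pair y' (ξ n) ≤ δ * M := by
    have h1 := hy' L (fun n => (1 / M) • ξ n) (fun n b hb => by
      rw [P.pair_smul]
      have := hξ n b hb
      rw [one_div, inv_mul_le_iff₀ hM0]
      linarith)
    have h2 : ∑ n ∈ Ico N L, P.pair y' ((1 / M) • ξ n) = (1 / M) * ∑ n ∈ Ico N L, P.pair y' (ξ n) := by
      rw [Finset.mul_sum]
      exact Finset.sum_congr rfl fun n _ => P.pair_smul _ _ _
    rw [h2, one_div, inv_mul_le_iff₀ hM0] at h1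
    linarith
  have htail2 : - ∑ n ∈ Ico N L, P.pair y (ξ n) ≤ δ * M := by
    have h1 := hy L (fun n => (-(1 / M)) • ξ n) (fun n b hb => by
      rw [P.pair_smul]
      have h3 := hξ n _ (P.inU_neg n b hb)
      rw [P.pair_neg_left] at h3
      have h4 : -(1 / M) * P.pair b (ξ n) = M⁻¹ * (- P.pair b (ξ n)) := by
        rw [one_div]; ring
      rw [h4, inv_mul_le_iff₀ hM0]
      linarith)
    have h2 : ∑ n ∈ Ico N L, P.pair y ((-(1 / M)) • ξ n)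
        = M⁻¹ * (- ∑ n ∈ Ico N L, P.pair y (ξ n)) := by
      rw [← Finset.sum_neg_distrib, Finset.mul_sum]
      refine Finset.sum_congr rfl fun n _ => ?_
      rw [P.pair_smul, one_div]; ring
    rw [h2, inv_mul_le_iff₀ hM0] at h1
    linarith
  have hsum : P.pair y' x - P.pair y x
      = ∑ n ∈ range N, (P.pair y' (ξ n) - P.pair y (ξ n))
        + (∑ n ∈ Ico N L, P.pair y' (ξ n) - ∑ n ∈ Ico N L, P.pair y (ξ n)) := by
    have h1 : P.pair y' x = ∑ n ∈ range L, P.pair y' (ξ n) := by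
      rw [hxL, P.pair_sum]
    have h2 : P.pair y x = ∑ n ∈ range L, P.pair y (ξ n) := by
      rw [hxL, P.pair_sum]
    rw [h1, h2, ← Finset.sum_range_add_sum_Ico _ hNL, ← Finset.sum_range_add_sum_Ico _ hNL,
      Finset.sum_sub_distrib]
    ring
  have hA : ∑ n ∈ range N, (P.pair y' (ξ n) - P.pair y (ξ n)) ≤ (∑ n ∈ range N, ε2 / tt n) * M := by
    rw [Finset.sum_mul]
    exact Finset.sum_le_sum fun n _ => hfirst n
  rw [hsum]
  have e : (∑ n ∈ range N, ε2 / tt n + 2 * δ) * M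
      = (∑ n ∈ range N, ε2 / tt n) * M + (δ * M + δ * M) := by ring
  rw [e]
  linarith

/-- small oscillation sets are dense -/
theorem osc_dense (R : ℝ) (hR : 1 ≤ R) (C : Set (Nd → ℝ)) (hC : IsCompact C)
    (hc : Convex ℝ C) (hb : ∀ y ∈ C, ∀ x, P.pair y x ≤ R * P.q x) (ε : ℝ) (hε : 0 < ε)
    (O : Set (Nd → ℝ)) (hO : IsOpen O) (hOC : (O ∩ C).Nonempty) :
    ∃ O' : Set (Nd → ℝ), IsOpen O' ∧ O' ⊆ O ∧ (O' ∩ C).Nonempty ∧
      ∀ y ∈ O' ∩ C, ∀ y' ∈ O' ∩ C, ∀ x, |P.pair y' x - P.pair y x| ≤ ε * P.q x := by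
  set δ := ε / 8 with hδ
  have hδ0 : 0 < δ := by positivity
  obtain ⟨N, V, hV, hVO, ⟨y1, hy1V, hy1C⟩, hVF⟩ := baire_closed C hC (P.FN δ) (P.isClosed_FN δ)
    O hO hOC (fun y hy => Set.mem_iUnion.2
      (P.cover_FN R δ (by linarith) hδ0 y (hb y hy.2)))
  obtain ⟨C1, hC1, hC1c, hC1V, hy1⟩ := exists_closed_convex_nhd y1 V hV hy1V
  set S := ∑ n ∈ range N, 1 / tt n with hS
  have hS0 : 0 ≤ S := Finset.sum_nonneg fun n _ => by
    have := tt_pos n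
    positivity
  set ε2 := (ε / 8) / (1 + S) with hε2
  have hε20 : 0 < ε2 := by positivity
  obtain ⟨n, J, hJ1, hJ2⟩ := exists_nJ R ε2 hR hε20
  have hlift : ∀ y ∈ C ∩ C1, ∃ p m, P.Lift (R * (2 : ℝ) ^ n) (R * tt n) y p m := by
    intro y hy
    refine P.exists_lift_of_le ((2 : ℝ) ^ n) (tt n) R (by positivity) (tt_pos n) (by linarith) y ?_
    intro x M hM
    have hM0 : 0 ≤ M := by
      have := hM _ (P.inU_zero n)
      rwa [P.pair_fun_zero] at this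
    have hq : P.q x ≤ M := P.q_le_of n x M hM0 hM
    exact (hb y hy.1 x).trans (mul_le_mul_of_nonneg_left hq (by linarith))
  have h1n : (1 : ℝ) ≤ R * (2 : ℝ) ^ n := by
    have h2 : (1 : ℝ) ≤ (2 : ℝ) ^ n := one_le_pow₀ (by norm_num)
    nlinarith
  obtain ⟨O2, hO2, ⟨y2, hy2O, hy2C, hy2C1⟩, hosc⟩ := P.small_osc (R * (2 : ℝ) ^ n) ε2 (R * tt n) J
    h1n hε20 (by have := tt_pos n; positivity) hJ1 hJ2 (C ∩ C1)
    ⟨y1, hy1C, interior_subset hy1⟩ (hC.inter_right hC1) (hc.inter hC1c) hlift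
  refine ⟨O2 ∩ interior C1, hO2.inter isOpen_interior, ?_, ?_, ?_⟩
  · exact fun z hz => hVO (hC1V (interior_subset hz.2))
  · -- the segment from `y2` to `y1`
    have hcont : Filter.Tendsto (fun t : ℝ => (1 - t) • y2 + t • y1) (nhdsWithin 0 (Set.Ioi 0))
        (nhds y2) := by
      have h1 : Continuous (fun t : ℝ => (1 - t) • y2 + t • y1) := by fun_prop
      have h2 := h1.tendsto 0
      simp only [sub_zero, one_smul, zero_smul, add_zero] at h2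
      exact h2.mono_left nhdsWithin_le_nhds
    have h3 : ∀ᶠ t in nhdsWithin (0 : ℝ) (Set.Ioi 0), (1 - t) • y2 + t • y1 ∈ O2 :=
      hcont.eventually (hO2.mem_nhds hy2O)
    have h4 : ∀ᶠ t in nhdsWithin (0 : ℝ) (Set.Ioi 0), t < 1 :=
      (eventually_lt_nhds (zero_lt_one)).filter_mono nhdsWithin_le_nhds
    have h5 : ∀ᶠ t in nhdsWithin (0 : ℝ) (Set.Ioi 0), 0 < t := self_mem_nhdsWithin
    obtain ⟨t, ht1, ht2, ht3⟩ := (h3.and (h4.and h5)).exists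
    refine ⟨(1 - t) • y2 + t • y1, ⟨ht1, ?_⟩, ?_⟩
    · exact hC1c.combo_self_interior_mem_interior hy2C1 hy1 (by linarith) ht3 (by ring)
    · exact hc hy2C hy1C (by linarith) ht3.le (by ring)
  · have key : ∀ y ∈ (O2 ∩ interior C1) ∩ C, ∀ y' ∈ (O2 ∩ interior C1) ∩ C, ∀ x,
        P.pair y' x - P.pair y x ≤ ε * P.q x := by
      intro y hy y' hy' x
      have hyF : y ∈ P.FN δ N := hVF ⟨hC1V (interior_subset hy.1.2), hy.2⟩
      have hyF' : y' ∈ P.FN δ N := hVF ⟨hC1V (interior_subset hy'.1.2), hy'.2⟩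
      have ho := hosc y' ⟨hy'.1.1, hy'.2, interior_subset hy'.1.2⟩ y
        ⟨hy.1.1, hy.2, interior_subset hy.1.2⟩
      have hcoef : ∑ n ∈ range N, ε2 / tt n + 2 * δ ≤ ε := by
        have e1 : ∑ n ∈ range N, ε2 / tt n = ε2 * S := by
          rw [hS, Finset.mul_sum]
          exact Finset.sum_congr rfl fun n _ => by ring
        have e2 : ε2 * S ≤ ε / 8 := by
          rw [hε2, div_mul_eq_mul_div, div_le_iff₀ (by positivity)]
          nlinarith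
        rw [e1]
        have : δ = ε / 8 := hδ
        linarith
      refine le_of_forall_pos_le_add fun θ hθ => ?_
      have hM : P.q x < P.q x + θ / ε := by
        have : 0 < θ / ε := by positivity
        linarith
      have h1 := P.diff_bound δ ε2 N hε20 y y' hyF hyF' ho x _ hM
      have hq0 := P.q_nonneg x
      have h2 : (∑ n ∈ range N, ε2 / tt n + 2 * δ) * (P.q x + θ / ε) ≤ ε * (P.q x + θ / ε) :=
        mul_le_mul_of_nonneg_right hcoef (by positivity)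
      have h3 : ε * (P.q x + θ / ε) = ε * P.q x + θ := by
        field_simp
      linarith
    intro y hy y' hy' x
    rw [abs_le]
    have h1 := key y hy y' hy' x
    have h2 := key y' hy' y hy x
    constructor <;> linarith

theorem pc (R : ℝ) (hR : 1 ≤ R) (C : Set (Nd → ℝ)) (hne : C.Nonempty) (hC : IsCompact C)
    (hc : Convex ℝ C) (hb : ∀ y ∈ C, ∀ x, P.pair y x ≤ R * P.q x) :
    ∃ y ∈ C, ∀ ε : ℝ, 0 < ε → ∃ U : Set (Nd → ℝ), IsOpen U ∧ y ∈ U ∧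
      ∀ y' ∈ U ∩ C, ∀ x, |P.pair y' x - P.pair y x| ≤ ε * P.q x := by
  set G : ℕ → Set (Nd → ℝ) := fun m => ⋃₀ {O | IsOpen O ∧
    ∀ y ∈ O ∩ C, ∀ y' ∈ O ∩ C, ∀ x, |P.pair y' x - P.pair y x| ≤ 1 / ((m : ℝ) + 1) * P.q x} with hG
  have hGo : ∀ m, IsOpen (G m) := fun m => isOpen_sUnion fun O hO => hO.1
  have hex : ∃ y ∈ C, ∀ m, y ∈ G m := by
    by_contra hcon
    push Not at hcon
    obtain ⟨m, V, hV, -, hVC, hVG⟩ := baire_closed C hC (fun m => (G m)ᶜ)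
      (fun m => (hGo m).isClosed_compl) Set.univ isOpen_univ (by
        obtain ⟨y, hy⟩ := hne
        exact ⟨y, Set.mem_univ y, hy⟩) (by
        intro y hy
        obtain ⟨m, hm⟩ := hcon y hy.2
        exact Set.mem_iUnion.2 ⟨m, hm⟩)
    obtain ⟨O', hO', hO'V, ⟨z, hzO, hzC⟩, hosc⟩ := P.osc_dense R hR C hC hc hb
      (1 / ((m : ℝ) + 1)) (by positivity) V hV hVC
    exact hVG ⟨hO'V hzO, hzC⟩ (Set.mem_sUnion.2 ⟨O', ⟨hO', hosc⟩, hzO⟩)
  obtain ⟨y, hyC, hy⟩ := hex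
  refine ⟨y, hyC, fun ε hε => ?_⟩
  obtain ⟨m, hm⟩ := exists_nat_one_div_lt hε
  obtain ⟨O, ⟨hO, hosc⟩, hyO⟩ := Set.mem_sUnion.1 (hy m)
  refine ⟨O, hO, hyO, fun y' hy' x => ?_⟩
  exact (hosc y ⟨hyO, hyC⟩ y' hy' x).trans (mul_le_mul_of_nonneg_right hm.le (P.q_nonneg x))

end Par

end Pool.Agent.MPff6db8
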