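import Pool.Agent.MPff6db8.Flow

/-! MP_ff6db8_an (frozen S06854). The flow of propagation coefficients. -/

set_option autoImplicit false

namespace Pool.Agent.MPff6db8

open Finset

/-- `P(ν; z)` : `P(root) = 1`, `P(i::c, j::s) = P(c,s) Q_{k,i,j}(z(c,s))`. -/
noncomputable def PPaux {P : Par} (S : Stage P) (z : Nd → ℝ) : List ℕ → List ℕ → ℝ
  | [], [] => 1
  | (i :: c), (j :: s) => PPaux S z c s * S.Q c.length i j (z (c, s))
  | _, _ => 0

noncomputable def PP {P : Par} (S : Stage P) (z : Nd → ℝ) (ν : Nd) : ℝ :=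
  if P.Val ν then PPaux S z ν.1 ν.2 else 0

theorem root_mem_Lev (P : Par) : (([], []) : Nd) ∈ P.Lev 0 := by
  rw [Par.mem_Lev]
  simp [Par.Col, Par.His]

theorem val_of_mem_Lev {P : Par} {k : ℕ} {ν : Nd} (h : ν ∈ P.Lev k) : P.Val ν :=
  ((P.mem_Lev_iff).1 h).1

theorem length_of_mem_Lev {P : Par} {k : ℕ} {ν : Nd} (h : ν ∈ P.Lev k) : ν.1.length = k :=
  ((P.mem_Lev_iff).1 h).2

/-- decomposition of a node of level `k + 1` -/
theorem exists_child_of_mem_Lev {P : Par} {k : ℕ} {ν : Nd} (h : ν ∈ P.Lev (k + 1)) :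
    ∃ (i j : ℕ) (c s : List ℕ), ν = (i :: c, j :: s) ∧ i < P.r k ∧ j < P.n k ∧
      ((c, s) : Nd) ∈ P.Lev k := by
  obtain ⟨a, b⟩ := ν
  have h' := (P.mem_Lev).1 h
  have ha := P.length_of_mem_Col h'.1
  have hb := P.length_of_mem_His h'.2
  simp only at ha hb
  match a, b, ha, hb, h with
  | i :: c, j :: s, _, _, h =>
    have := (P.mem_Lev_child (ν := (c, s))).1 h
    exact ⟨i, j, c, s, rfl, this.1, this.2.1, this.2.2⟩

theorem PPaux_nonneg {P : Par} (S : Stage P) (z : Nd → ℝ) :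
    ∀ c s : List ℕ, 0 ≤ PPaux S z c s
  | [], [] => by simp [PPaux]
  | (i :: c), (j :: s) => by
    rw [PPaux]
    exact mul_nonneg (PPaux_nonneg S z c s) (S.Q_nonneg _ _ _ _)
  | [], (_ :: _) => by simp [PPaux]
  | (_ :: _), [] => by simp [PPaux]

theorem PP_nonneg {P : Par} (S : Stage P) (z : Nd → ℝ) (ν : Nd) : 0 ≤ PP S z ν := by
  unfold PP
  split_ifs
  · exact PPaux_nonneg S z _ _
  · exact le_refl _

theorem PP_root {P : Par} (S : Stage P) (z : Nd → ℝ) : PP S z ([], []) = 1 := by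
  unfold PP
  rw [if_pos (val_of_mem_Lev (root_mem_Lev P))]
  simp [PPaux]

theorem PP_child {P : Par} (S : Stage P) (z : Nd → ℝ) {k i j : ℕ} {c s : List ℕ}
    (h : ((c, s) : Nd) ∈ P.Lev k) (hi : i < P.r k) (hj : j < P.n k) :
    PP S z (i :: c, j :: s) = PP S z (c, s) * S.Q k i j (z (c, s)) := by
  have hc : ((i :: c, j :: s) : Nd) ∈ P.Lev (k + 1) :=
    (P.mem_Lev_child (ν := (c, s))).2 ⟨hi, hj, h⟩
  have hl : c.length = k := length_of_mem_Lev h
  unfold PP
  rw [if_pos (val_of_mem_Lev hc), if_pos (val_of_mem_Lev h)]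
  simp only [PPaux, hl]

/-- the sum over the labels of the children in one column -/
theorem sum_PP_child {P : Par} (S : Stage P) (z : Nd → ℝ) {k i : ℕ} {c s : List ℕ}
    (h : ((c, s) : Nd) ∈ P.Lev k) (hi : i < P.r k) :
    ∑ j ∈ range (P.n k), PP S z (i :: c, j :: s) = PP S z (c, s) := by
  have : ∑ j ∈ range (P.n k), PP S z (i :: c, j :: s) =
      ∑ j ∈ range (P.n k), PP S z (c, s) * S.Q k i j (z (c, s)) := by
    refine Finset.sum_congr rfl fun j hj => ?_
    exact PP_child S z h hi (Finset.mem_range.1 hj)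
  rw [this, ← Finset.mul_sum, S.Q_sum k i _ hi, mul_one]

theorem PP_isFlow {P : Par} (S : Stage P) (z : Nd → ℝ) : P.IsFlow (PP S z) where
  nonneg := PP_nonneg S z
  zero_off := fun ν hν => by unfold PP; rw [if_neg hν]
  sum_le := fun k c hc s hs i hi =>
    le_of_eq (sum_PP_child S z ((P.mem_Lev (ν := (c, s))).2 ⟨hc, hs⟩) hi)

theorem PP_le_one_aux {P : Par} (S : Stage P) (z : Nd → ℝ) :
    ∀ k : ℕ, ∀ ν ∈ P.Lev k, PP S z ν ≤ 1 := by
  intro k
  induction k with
  | zero =>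
    intro ν hν
    obtain ⟨a, b⟩ := ν
    have h' := (P.mem_Lev).1 hν
    have ha : a = [] := by simpa [Par.Col] using h'.1
    have hb : b = [] := by simpa [Par.His] using h'.2
    subst ha; subst hb
    exact le_of_eq (PP_root S z)
  | succ k ih =>
    intro ν hν
    obtain ⟨i, j, c, s, rfl, hi, hj, hcs⟩ := exists_child_of_mem_Lev hν
    have h1 : PP S z (i :: c, j :: s) ≤ ∑ j ∈ range (P.n k), PP S z (i :: c, j :: s) :=
      Finset.single_le_sum (f := fun j => PP S z (i :: c, j :: s))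
        (fun j _ => PP_nonneg S z _) (Finset.mem_range.2 hj)
    rw [sum_PP_child S z hcs hi] at h1
    exact h1.trans (ih _ hcs)

theorem PP_le_one {P : Par} (S : Stage P) (z : Nd → ℝ) (ν : Nd) : PP S z ν ≤ 1 := by
  by_cases h : P.Val ν
  · exact PP_le_one_aux S z _ ν h
  · have : PP S z ν = 0 := (PP_isFlow S z).zero_off ν h
    rw [this]; exact zero_le_one

theorem r_ne {P : Par} (k : ℕ) : (P.r k : ℝ) ≠ 0 := by
  have := P.r_pos k
  positivity

theorem lv_PP {P : Par} (S : Stage P) (z : Nd → ℝ) (k : ℕ) : P.lv k (PP S z) = 1 := by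
  induction k with
  | zero => rw [P.lv_zero, PP_root]
  | succ k ih =>
    rw [P.lv_succ]
    refine (P.lv_congr (g := PP S z) fun ν hν => ?_).trans ih
    have : ∑ i ∈ range (P.r k), ∑ j ∈ range (P.n k), PP S z (i :: ν.1, j :: ν.2) =
        ∑ i ∈ range (P.r k), PP S z ν := by
      refine Finset.sum_congr rfl fun i hi => ?_
      exact sum_PP_child S z (c := ν.1) (s := ν.2) hν (Finset.mem_range.1 hi)
    rw [this, Finset.sum_const, Finset.card_range, nsmul_eq_mul]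
    field_simp [r_ne (P := P) k]

theorem lv_PP_sq_aux {P : Par} (S : Stage P) (z : Nd → ℝ) (k : ℕ) :
    ∏ m ∈ range k, (1 - 1 / (P.r m : ℝ)) ≤ P.lv k (fun ν => PP S z ν ^ 2) := by
  induction k with
  | zero => rw [P.lv_zero, PP_root]; simp
  | succ k ih =>
    rw [P.lv_succ, Finset.prod_range_succ]
    have hr : (1 : ℝ) ≤ P.r k := by exact_mod_cast P.r_pos k
    have hr0 : (0 : ℝ) < P.r k := by linarith
    have h0 : 0 ≤ 1 - 1 / (P.r k : ℝ) := by
      rw [sub_nonneg, div_le_one hr0]; exact hr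
    have h1 : (1 - 1 / (P.r k : ℝ)) * P.lv k (fun ν => PP S z ν ^ 2) ≤
        P.lv k (fun ν => (1 / (P.r k : ℝ)) *
          ∑ i ∈ range (P.r k), ∑ j ∈ range (P.n k), PP S z (i :: ν.1, j :: ν.2) ^ 2) := by
      rw [← P.lv_mul]
      refine P.lv_mono fun ν hν => ?_
      have : ∑ i ∈ range (P.r k), ∑ j ∈ range (P.n k), PP S z (i :: ν.1, j :: ν.2) ^ 2 =
          PP S z ν ^ 2 * ∑ i ∈ range (P.r k), ∑ j ∈ range (P.n k), S.Q k i j (z ν) ^ 2 := by
        rw [Finset.mul_sum]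
        refine Finset.sum_congr rfl fun i hi => ?_
        rw [Finset.mul_sum]
        refine Finset.sum_congr rfl fun j hj => ?_
        rw [PP_child S z (c := ν.1) (s := ν.2) hν (Finset.mem_range.1 hi) (Finset.mem_range.1 hj),
          mul_pow]
      rw [this]
      have hq := S.Q_sq k (z ν)
      have hp : 0 ≤ PP S z ν ^ 2 := sq_nonneg _
      have e1 : (1 - 1 / (P.r k : ℝ)) = (1 / (P.r k : ℝ)) * ((P.r k : ℝ) - 1) := by
        field_simp
      rw [e1]
      have : (1 / (P.r k : ℝ)) * ((P.r k : ℝ) - 1) * PP S z ν ^ 2 =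
        (1 / (P.r k : ℝ)) * (PP S z ν ^ 2 * ((P.r k : ℝ) - 1)) := by ring
      rw [this]
      exact mul_le_mul_of_nonneg_left (mul_le_mul_of_nonneg_left hq hp) (by positivity)
    calc (∏ m ∈ range k, (1 - 1 / (P.r m : ℝ))) * (1 - 1 / (P.r k : ℝ))
        ≤ P.lv k (fun ν => PP S z ν ^ 2) * (1 - 1 / (P.r k : ℝ)) :=
          mul_le_mul_of_nonneg_right ih h0
      _ = (1 - 1 / (P.r k : ℝ)) * P.lv k (fun ν => PP S z ν ^ 2) := mul_comm _ _
      _ ≤ _ := h1

theorem lv_PP_sq {P : Par} (S : Stage P) (z : Nd → ℝ) (k : ℕ) :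
    1 / 2 ≤ P.lv k (fun ν => PP S z ν ^ 2) :=
  (S.prod_r k).trans (lv_PP_sq_aux S z k)

/-- `PP` at levels `≤ k` only depends on the coordinates of level `< k` -/
theorem PP_congr {P : Par} (S : Stage P) (z z' : Nd → ℝ) (k : ℕ)
    (h : ∀ m < k, ∀ ν ∈ P.Lev m, z ν = z' ν) : ∀ ν ∈ P.Lev k, PP S z ν = PP S z' ν := by
  induction k with
  | zero =>
    intro ν hν
    obtain ⟨a, b⟩ := ν
    have h' := (P.mem_Lev).1 hν
    have ha : a = [] := by simpa [Par.Col] using h'.1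
    have hb : b = [] := by simpa [Par.His] using h'.2
    subst ha; subst hb
    rw [PP_root, PP_root]
  | succ k ih =>
    intro ν hν
    obtain ⟨i, j, c, s, rfl, hi, hj, hcs⟩ := exists_child_of_mem_Lev hν
    rw [PP_child S z hcs hi hj, PP_child S z' hcs hi hj,
      ih (fun m hm => h m (by omega)) _ hcs, h k (by omega) _ hcs]

/-- unrolling the recursion down to level `k` -/
theorem unroll {P : Par} (S : Stage P) (Φ : ℕ → List ℕ → List ℕ → (Nd → ℝ) → ℝ)
    (hΦ : IsLim S Φ) (z : Nd → ℝ) (k : ℕ) :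
    Φ 0 [] [] z = ∑ m ∈ range k, P.lv m (fun ν => PP S z ν * (S.η m * Real.sin (z ν / S.η m))) +
      P.lv k (fun ν => PP S z ν * Φ k ν.1 ν.2 z) := by
  induction k with
  | zero => rw [P.lv_zero, PP_root]; simp
  | succ k ih =>
    rw [Finset.sum_range_succ, add_assoc]
    have key : P.lv k (fun ν => PP S z ν * Φ k ν.1 ν.2 z) =
        P.lv k (fun ν => PP S z ν * (S.η k * Real.sin (z ν / S.η k))) +
        P.lv (k + 1) (fun ν => PP S z ν * Φ (k + 1) ν.1 ν.2 z) := by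
      rw [P.lv_succ, ← P.lv_add]
      refine P.lv_congr fun ν hν => ?_
      have e : ∑ i ∈ range (P.r k), ∑ j ∈ range (P.n k),
          PP S z (i :: ν.1, j :: ν.2) * Φ (k + 1) (i :: ν.1) (j :: ν.2) z =
          PP S z ν * ∑ i ∈ range (P.r k), ∑ j ∈ range (P.n k),
            S.Q k i j (z ν) * Φ (k + 1) (i :: ν.1) (j :: ν.2) z := by
        rw [Finset.mul_sum]
        refine Finset.sum_congr rfl fun i hi => ?_
        rw [Finset.mul_sum]
        refine Finset.sum_congr rfl fun j hj => ?_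
        rw [PP_child S z (c := ν.1) (s := ν.2) hν (Finset.mem_range.1 hi) (Finset.mem_range.1 hj),
          mul_assoc]
      rw [e, hΦ.rec_eq k ν.1 ν.2 z]
      ring
    rw [← key]
    exact ih

/-- the derivative coefficients -/
noncomputable def BB {P : Par} (S : Stage P) (Φ : ℕ → List ℕ → List ℕ → (Nd → ℝ) → ℝ)
    (z : Nd → ℝ) (ν : Nd) : ℝ :=
  PP S z ν * (Real.cos (z ν / S.η ν.1.length) + (1 / (P.r ν.1.length : ℝ)) *
    ∑ i ∈ range (P.r ν.1.length), ∑ j ∈ range (P.n ν.1.length),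
      S.Q' ν.1.length i j (z ν) * Φ (ν.1.length + 1) (i :: ν.1) (j :: ν.2) z)

end Pool.Agent.MPff6db8
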