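import Pool.Agent.MPff6db8.Core
import Pool.Agent.MPff6db8.Compact
import Pool.Agent.MPff6db8.Baire

/-! MP_ff6db8_an (frozen S06854). Small oscillation. -/

set_option autoImplicit false

namespace Pool.Agent.MPff6db8

open Finset Filter Topology

/-- `S` contains a nonempty relatively open subset of `K` -/
def osc_fat {E : Type*} [TopologicalSpace E] (K S : Set E) : Prop :=
  ∃ U : Set E, IsOpen U ∧ (U ∩ K).Nonempty ∧ U ∩ K ⊆ S

theorem osc_fat_mono {E : Type*} [TopologicalSpace E] {K S S' : Set E} (h : osc_fat K S)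
    (hS : S ⊆ S') : osc_fat K S' := by
  obtain ⟨U, hU, hne, hsub⟩ := h
  exact ⟨U, hU, hne, hsub.trans hS⟩

/-- countably many closed non-fat sets have dense complement -/
theorem osc_dense {E : Type*} [TopologicalSpace E] [T2Space E] (K : Set E) (hK : IsCompact K)
    {ι : Type*} [Countable ι] (C : ι → Set E) (hC : ∀ i, IsClosed (C i))
    (hn : ∀ i, ¬ osc_fat K (C i)) (U : Set E) (hU : IsOpen U) (hne : (U ∩ K).Nonempty) :
    ∃ y ∈ U ∩ K, ∀ i, y ∉ C i := by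
  by_contra hcon
  push Not at hcon
  obtain ⟨x, hx⟩ := hne
  obtain ⟨i0, _⟩ := hcon x hx
  have : Nonempty ι := ⟨i0⟩
  obtain ⟨e, he⟩ := exists_surjective_nat ι
  obtain ⟨n, V, hV, _, hVne, hVsub⟩ := baire_closed K hK (fun n => C (e n)) (fun n => hC (e n))
    U hU ⟨x, hx⟩ (by
      intro y hy
      obtain ⟨i, hi⟩ := hcon y hy
      obtain ⟨n, rfl⟩ := he i
      exact Set.mem_iUnion.2 ⟨n, hi⟩)
  exact hn (e n) ⟨V, hV, hVne, hVsub⟩

/-- pigeonhole for a nonincreasing sequence in `[0, B]` -/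
theorem osc_pigeon (α : ℕ → ℝ) (B c : ℝ) (J : ℕ) (h0 : α 0 ≤ B) (hJ0 : 0 ≤ α J)
    (hJ : B < J * c) : ∃ j < J, α j - α (j + 1) < c := by
  by_contra hcon
  push Not at hcon
  have h1 : (J : ℝ) * c ≤ ∑ j ∈ range J, (α j - α (j + 1)) := by
    calc (J : ℝ) * c = ∑ j ∈ range J, c := by simp
      _ ≤ _ := Finset.sum_le_sum fun j hj => hcon j (Finset.mem_range.1 hj)
  rw [Finset.sum_range_sub'] at h1
  linarith

/-- an open convex neighbourhood inside a given open set -/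
theorem osc_convex_nhd {x : Nd → ℝ} {V : Set (Nd → ℝ)} (hV : IsOpen V) (hx : x ∈ V) :
    ∃ W : Set (Nd → ℝ), IsOpen W ∧ Convex ℝ W ∧ x ∈ W ∧ W ⊆ V := by
  obtain ⟨s, ⟨hs, hcs⟩, hsV⟩ := (LocallyConvexSpace.convex_basis (𝕜 := ℝ) x).mem_iff.1
    (hV.mem_nhds hx)
  exact ⟨interior s, isOpen_interior, hcs.interior, mem_interior_iff_mem_nhds.2 hs,
    interior_subset.trans hsV⟩

namespace Par

variable (P : Par)

/-- parallelogram law for `tot` -/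
theorem osc_parallelogram (k : ℕ) (p m p' m' : Nd → ℝ) :
    P.lv k (fun ν => (p ν - p' ν) ^ 2) + P.lv k (fun ν => (m ν - m' ν) ^ 2) ≤
      2 * P.tot k p m + 2 * P.tot k p' m' -
        4 * P.tot k (fun ν => (1 / 2 : ℝ) * p ν + (1 / 2 : ℝ) * p' ν)
          (fun ν => (1 / 2 : ℝ) * m ν + (1 / 2 : ℝ) * m' ν) := by
  have e1 : ∀ f g : Nd → ℝ, P.lv k (fun ν => (f ν - g ν) ^ 2) =
      2 * P.lv k (fun ν => f ν ^ 2) + 2 * P.lv k (fun ν => g ν ^ 2) -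
        4 * P.lv k (fun ν => ((1 / 2 : ℝ) * f ν + (1 / 2 : ℝ) * g ν) ^ 2) := by
    intro f g
    rw [← P.lv_mul, ← P.lv_mul, ← P.lv_mul, ← P.lv_add, ← P.lv_sub]
    exact P.lv_congr fun ν _ => by ring
  have e2 : 0 ≤ P.lv k (fun ν => ((p ν + m ν) - (p' ν + m' ν)) ^ 2) :=
    P.lv_nonneg fun ν _ => sq_nonneg _
  rw [e1 (fun ν => p ν + m ν) (fun ν => p' ν + m' ν)] at e2
  have e3 : P.lv k (fun ν => ((1 / 2 : ℝ) * (p ν + m ν) + (1 / 2 : ℝ) * (p' ν + m' ν)) ^ 2) =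
      P.lv k (fun ν => (((1 / 2 : ℝ) * p ν + (1 / 2 : ℝ) * p' ν) +
        ((1 / 2 : ℝ) * m ν + (1 / 2 : ℝ) * m' ν)) ^ 2) :=
    P.lv_congr fun ν _ => by ring
  rw [e3] at e2
  rw [e1 p p', e1 m m']
  unfold tot
  linarith

theorem small_osc (A ε τ0 : ℝ) (J : ℕ) (hA : 1 ≤ A) (hε : 0 < ε) (hτ : 0 < τ0)
    (hJ : 3000 * A ^ 2 / ε ^ 2 < J) (hJ' : 12 ^ J * τ0 ≤ ε / 16)
    (K : Set (Nd → ℝ)) (hne : K.Nonempty) (hK : IsCompact K) (hc : Convex ℝ K)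
    (hL : ∀ y ∈ K, ∃ p m, P.Lift A τ0 y p m) :
    ∃ U : Set (Nd → ℝ), IsOpen U ∧ (U ∩ K).Nonempty ∧
      ∀ y ∈ U ∩ K, ∀ y' ∈ U ∩ K, ∀ k, P.nrm k (fun ν => y ν - y' ν) ≤ ε := by
  classical
  have hε2 : 0 < ε ^ 2 := by positivity
  -- the sets `F`
  let F : ℕ → ℕ → ℝ → Set (Nd → ℝ) := fun j k s =>
    {y | ∃ p m, P.Lift A (12 ^ j * τ0) y p m ∧ (p, m) ∈ {u : (Nd → ℝ) × (Nd → ℝ) |
      P.tot k u.1 u.2 ≤ s}}
  have hFc : ∀ j k s, IsClosed (F j k s) := fun j k s =>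
    P.isClosed_lift A _ _ (isClosed_le (P.continuous_tot k) continuous_const)
  have hFs : ∀ j k s s', s ≤ s' → F j k s ⊆ F j k s' := by
    rintro j k s s' hs y ⟨p, m, h1, h2⟩
    exact ⟨p, m, h1, le_trans h2 hs⟩
  have hpow : ∀ i j : ℕ, i ≤ j → (12 : ℝ) ^ i * τ0 ≤ 12 ^ j * τ0 := fun i j hij =>
    mul_le_mul_of_nonneg_right (pow_le_pow_right₀ (by norm_num) hij) hτ.le
  have hFj : ∀ j k s, F j k s ⊆ F (j + 1) k s := by
    rintro j k s y ⟨p, m, h1, h2⟩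
    exact ⟨p, m, h1.mono le_rfl (hpow j (j + 1) (Nat.le_succ j)), h2⟩
  -- the numbers `α`
  let S : ℕ → Set ℝ := fun j => {s | ∃ k, osc_fat K (F j k s)}
  let α : ℕ → ℝ := fun j => sInf (S j)
  have hS0 : ∀ j, 3 * A ^ 2 ∈ S j := by
    intro j
    refine ⟨0, Set.univ, isOpen_univ, by simpa using hne, ?_⟩
    rintro y ⟨_, hy⟩
    obtain ⟨p, m, h1⟩ := hL y hy
    refine ⟨p, m, h1.mono le_rfl ?_, P.tot_zero_le h1⟩
    have := hpow 0 j (Nat.zero_le j)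
    simpa using this
  have hSnn : ∀ j, ∀ s ∈ S j, 0 ≤ s := by
    rintro j s ⟨k, U, hU, ⟨y, hy⟩, hsub⟩
    obtain ⟨p, m, _, h2⟩ := hsub hy
    exact le_trans (P.tot_nonneg k p m) h2
  have hSbdd : ∀ j, BddBelow (S j) := fun j => ⟨0, fun s hs => hSnn j s hs⟩
  have hα0 : ∀ j, 0 ≤ α j := fun j => le_csInf ⟨_, hS0 j⟩ (hSnn j)
  have hα3 : ∀ j, α j ≤ 3 * A ^ 2 := fun j => csInf_le (hSbdd j) (hS0 j)
  obtain ⟨j, hjJ, hj⟩ := osc_pigeon α (3 * A ^ 2) (ε ^ 2 / 1000) J (hα3 0) (hα0 J) (by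
    rw [div_lt_iff₀ hε2] at hJ
    nlinarith)
  have hnotfat : ∀ i k s, s < α i → ¬ osc_fat K (F i k s) := by
    intro i k s hs hf
    exact absurd (csInf_le (hSbdd i) ⟨k, hf⟩) (not_le.2 hs)
  -- the dense set
  have hdense : ∀ U : Set (Nd → ℝ), IsOpen U → (U ∩ K).Nonempty →
      ∃ y ∈ U ∩ K, ∀ i k s, s < α i → y ∉ F i k s := by
    intro U hU hUne
    obtain ⟨y, hy, hyn⟩ := osc_dense K hK
      (ι := {x : ℕ × ℕ × ℚ // (x.2.2 : ℝ) < α x.1})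
      (fun x => F x.1.1 x.1.2.1 (x.1.2.2 : ℝ)) (fun x => hFc _ _ _)
      (fun x => hnotfat _ _ _ x.2) U hU hUne
    refine ⟨y, hy, fun i k s hs hmem => ?_⟩
    obtain ⟨q, hq1, hq2⟩ := exists_rat_btwn hs
    exact hyn ⟨(i, k, q), hq2⟩ (hFs i k s q hq1.le hmem)
  -- parameters
  set τ : ℝ := 12 ^ j * τ0 with hτdef
  have hτpos : 0 < τ := by positivity
  have hτε : τ ≤ ε / 16 := le_trans (hpow j J hjJ.le) hJ'
  set δ : ℝ := min (τ ^ 2) (ε ^ 2 / 10 ^ 5) with hδdef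
  have hδpos : 0 < δ := lt_min (by positivity) (by positivity)
  have hδτ : δ ≤ τ ^ 2 := min_le_left _ _
  have hδε : δ ≤ ε ^ 2 / 10 ^ 5 := min_le_right _ _
  -- choice of `n0`
  obtain ⟨s, ⟨n0, hfat⟩, hsα⟩ := exists_lt_of_csInf_lt ⟨_, hS0 j⟩
    (show sInf (S j) < α j + δ by show α j < α j + δ; linarith)
  obtain ⟨V', hV'o, hV'ne, hV'sub⟩ := hfat
  obtain ⟨y0, ⟨hy0V, hy0K⟩, hy0G⟩ := hdense V' hV'o hV'ne
  have hV''o : IsOpen (V' ∩ (F j n0 (α j - δ))ᶜ) := hV'o.inter (hFc _ _ _).isOpen_compl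
  obtain ⟨V1, hV1o, hV1c, hy0V1, hV1sub⟩ := osc_convex_nhd hV''o
    (show y0 ∈ V' ∩ (F j n0 (α j - δ))ᶜ from ⟨hy0V, hy0G j n0 _ (by linarith)⟩)
  -- lifts with controlled masses
  have hlift : ∀ y ∈ V1 ∩ K, ∃ p m, P.Lift A τ y p m ∧
      ∀ k, n0 ≤ k → α j ≤ P.tot k p m ∧ P.tot k p m ≤ α j + δ := by
    rintro y ⟨hyV, hyK⟩
    let T : Set ((Nd → ℝ) × (Nd → ℝ)) :=
      {u | ∀ k, n0 ≤ k → α j ≤ P.tot k u.1 u.2 ∧ P.tot k u.1 u.2 ≤ α j + δ}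
    have hT : IsClosed T := by
      have : T = ⋂ k, ⋂ (_ : n0 ≤ k), ({u : (Nd → ℝ) × (Nd → ℝ) | α j ≤ P.tot k u.1 u.2} ∩
          {u | P.tot k u.1 u.2 ≤ α j + δ}) := by
        ext u
        simp only [T, Set.mem_ofPred_eq, Set.mem_iInter, Set.mem_inter_iff]
      rw [this]
      refine isClosed_iInter fun k => isClosed_iInter fun _ => ?_
      exact (isClosed_le continuous_const (P.continuous_tot k)).inter
        (isClosed_le (P.continuous_tot k) continuous_const)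
    have hcl := P.isClosed_lift A τ T hT
    have hmem : y ∈ closure {y : Nd → ℝ | ∃ p m, P.Lift A τ y p m ∧ (p, m) ∈ T} := by
      rw [mem_closure_iff]
      intro O hO hyO
      obtain ⟨y', ⟨⟨hy'O, hy'V⟩, hy'K⟩, hy'G⟩ := hdense (O ∩ V1) (hO.inter hV1o)
        ⟨y, ⟨hyO, hyV⟩, hyK⟩
      refine ⟨y', hy'O, ?_⟩
      obtain ⟨p, m, h1, h2⟩ := hV'sub ⟨(hV1sub hy'V).1, hy'K⟩
      refine ⟨p, m, h1, fun k hk => ⟨?_, ?_⟩⟩
      · by_contra hlt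
        exact hy'G j k _ (not_le.1 hlt) ⟨p, m, h1, le_refl (P.tot k p m)⟩
      · calc P.tot k p m ≤ P.tot n0 p m := P.tot_anti h1.1 h1.2.1 hk
          _ ≤ s := h2
          _ ≤ α j + δ := hsα.le
    rw [hcl.closure_eq] at hmem
    obtain ⟨p, m, h1, h2⟩ := hmem
    exact ⟨p, m, h1, h2⟩
  -- midpoints
  have hmid : ∀ y y' p m p' m', y ∈ V1 ∩ K → y' ∈ V1 ∩ K → P.Lift A τ y p m →
      P.Lift A τ y' p' m' → P.tot n0 p m ≤ α j + δ → P.tot n0 p' m' ≤ α j + δ →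
      P.lv n0 (fun ν => (p ν - p' ν) ^ 2) + P.lv n0 (fun ν => (m ν - m' ν) ^ 2) ≤ 8 * δ := by
    intro y y' p m p' m' hy hy' h1 h2 h3 h4
    have h5 := h1.convex h2 (a := 1 / 2) (b := 1 / 2) (by norm_num) (by norm_num) (by norm_num)
    have h6 : (fun ν => (1 / 2 : ℝ) * y ν + (1 / 2 : ℝ) * y' ν) ∈ V1 :=
      hV1c hy.1 hy'.1 (by norm_num) (by norm_num) (by norm_num)
    have h7 : α j - δ < P.tot n0 (fun ν => (1 / 2 : ℝ) * p ν + (1 / 2 : ℝ) * p' ν)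
        (fun ν => (1 / 2 : ℝ) * m ν + (1 / 2 : ℝ) * m' ν) := by
      by_contra hle
      exact (hV1sub h6).2 ⟨_, _, h5, not_lt.1 hle⟩
    have h8 := P.osc_parallelogram n0 p m p' m'
    linarith
  -- choice of `n1`
  obtain ⟨n1, hn01, hn1⟩ : ∃ n1, n0 ≤ n1 ∧ ∀ k, n1 ≤ k → A * P.κ k ≤ τ0 := by
    have h1 : Tendsto (fun k => A * P.κ k) atTop (𝓝 (A * 0)) := P.κ_lim.const_mul A
    rw [mul_zero] at h1
    obtain ⟨N, hN⟩ := eventually_atTop.1 (h1.eventually (gt_mem_nhds hτ))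
    exact ⟨max n0 N, le_max_left _ _, fun k hk => (hN k (le_trans (le_max_right _ _) hk)).le⟩
  have hcnt : ∀ (k : ℕ) (b : Nd → ℝ), Continuous (fun a : Nd → ℝ => P.nrm k (fun ν => a ν - b ν)) := by
    intro k b
    exact (P.continuous_nrm k).comp (continuous_pi fun ν =>
      (continuous_apply ν).sub continuous_const)
  have hnrm0 : ∀ (k : ℕ) (a : Nd → ℝ), P.nrm k (fun ν => a ν - a ν) = 0 := by
    intro k a
    rw [← P.nrm_zero k]
    exact P.nrm_congr fun ν _ => by simp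
  have htri : ∀ (k : ℕ) (a b c : Nd → ℝ), P.nrm k (fun ν => a ν - b ν) ≤
      P.nrm k (fun ν => a ν - c ν) + P.nrm k (fun ν => b ν - c ν) := by
    intro k a b c
    have h1 : P.nrm k (fun ν => a ν - b ν) =
        P.nrm k (fun ν => (a ν - c ν) - (b ν - c ν)) := P.nrm_congr fun ν _ => by ring
    rw [h1]
    exact P.nrm_sub_le k (fun ν => a ν - c ν) (fun ν => b ν - c ν)
  let V2 : Set (Nd → ℝ) := V1 ∩ ⋂ k ∈ Finset.range n1,
    {a : Nd → ℝ | P.nrm k (fun ν => a ν - y0 ν) < ε / 4}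
  have hV2o : IsOpen V2 := by
    refine hV1o.inter (isOpen_biInter_finset fun k _ => ?_)
    exact isOpen_lt (hcnt k y0) continuous_const
  have hy0V2 : y0 ∈ V2 := by
    refine ⟨hy0V1, ?_⟩
    simp only [Set.mem_iInter, Set.mem_ofPred_eq]
    intro k _
    rw [hnrm0]
    positivity
  have hV2lt : ∀ a ∈ V2, ∀ k < n1, P.nrm k (fun ν => a ν - y0 ν) < ε / 4 := by
    rintro a ⟨_, ha⟩ k hk
    simp only [Set.mem_iInter, Set.mem_ofPred_eq] at ha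
    exact ha k (Finset.mem_range.2 hk)
  refine ⟨V2, hV2o, ⟨y0, hy0V2, hy0K⟩, ?_⟩
  rintro y ⟨hyV, hyK⟩ y' ⟨hy'V, hy'K⟩ k1
  by_contra hbig
  have hbig := not_le.1 hbig
  -- move the two points into the dense set
  obtain ⟨ya, ⟨⟨hya1, hya2⟩, hyaK⟩, hyaG⟩ := hdense
    (V2 ∩ {a : Nd → ℝ | P.nrm k1 (fun ν => a ν - y ν) < ε / 4})
    (hV2o.inter (isOpen_lt (hcnt k1 y) continuous_const))
    ⟨y, ⟨hyV, by
      show P.nrm k1 (fun ν => y ν - y ν) < ε / 4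
      rw [hnrm0]; positivity⟩, hyK⟩
  obtain ⟨yb, ⟨⟨hyb1, hyb2⟩, hybK⟩, hybG⟩ := hdense
    (V2 ∩ {a : Nd → ℝ | P.nrm k1 (fun ν => a ν - y' ν) < ε / 4})
    (hV2o.inter (isOpen_lt (hcnt k1 y') continuous_const))
    ⟨y', ⟨hy'V, by
      show P.nrm k1 (fun ν => y' ν - y' ν) < ε / 4
      rw [hnrm0]; positivity⟩, hy'K⟩
  have hya2' : P.nrm k1 (fun ν => ya ν - y ν) < ε / 4 := hya2
  have hyb2' : P.nrm k1 (fun ν => yb ν - y' ν) < ε / 4 := hyb2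
  have hsymm : ∀ (k : ℕ) (a b : Nd → ℝ), P.nrm k (fun ν => a ν - b ν) =
      P.nrm k (fun ν => b ν - a ν) := by
    intro k a b
    apply le_antisymm
    · exact P.nrm_mono fun ν _ => by rw [abs_sub_comm]
    · exact P.nrm_mono fun ν _ => by rw [abs_sub_comm]
  have hfar : ε / 2 < P.nrm k1 (fun ν => ya ν - yb ν) := by
    have h1 := htri k1 y y' yb
    have h2 := htri k1 y yb ya
    have h3 := hsymm k1 y ya
    have h4 := hsymm k1 y' yb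
    have h5 := hsymm k1 yb ya
    rw [h3, h5] at h2
    rw [h4] at h1
    linarith
  have hn1k : n1 ≤ k1 := by
    by_contra hlt
    have h1 := hV2lt ya hya1 k1 (not_le.1 hlt)
    have h2 := hV2lt yb hyb1 k1 (not_le.1 hlt)
    have h3 := htri k1 ya yb y0
    linarith
  obtain ⟨pa, ma, ha, hta⟩ := hlift ya ⟨hya1.1, hyaK⟩
  obtain ⟨pb, mb, hb, htb⟩ := hlift yb ⟨hyb1.1, hybK⟩
  have hzV1 : (fun ν => (ya ν + yb ν) / 2) ∈ V1 := by
    have h1 := hV1c hya1.1 hyb1.1 (show (0 : ℝ) ≤ 1 / 2 by norm_num)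
      (show (0 : ℝ) ≤ 1 / 2 by norm_num) (by norm_num)
    convert h1 using 1
    funext ν
    simp only [Pi.add_apply, Pi.smul_apply, smul_eq_mul]
    ring
  have hzK : (fun ν => (ya ν + yb ν) / 2) ∈ K := by
    have h1 := hc hyaK hybK (show (0 : ℝ) ≤ 1 / 2 by norm_num)
      (show (0 : ℝ) ≤ 1 / 2 by norm_num) (by norm_num)
    convert h1 using 1
    funext ν
    simp only [Pi.add_apply, Pi.smul_apply, smul_eq_mul]
    ring
  obtain ⟨pz, mz, hz, htz⟩ := hlift _ ⟨hzV1, hzK⟩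
  have hmab := hmid ya yb pa ma pb mb ⟨hya1.1, hyaK⟩ ⟨hyb1.1, hybK⟩ ha hb
    (hta n0 le_rfl).2 (htb n0 le_rfl).2
  have hnn1 : 0 ≤ P.lv n0 (fun ν => (pa ν - pb ν) ^ 2) := P.lv_nonneg fun ν _ => sq_nonneg _
  have hnn2 : 0 ≤ P.lv n0 (fun ν => (ma ν - mb ν) ^ 2) := P.lv_nonneg fun ν _ => sq_nonneg _
  have hτ0τ : τ0 ≤ τ := by
    have := hpow 0 j (Nat.zero_le j)
    simpa using this
  have h12 : 12 * τ = 12 ^ (j + 1) * τ0 := by rw [hτdef]; ring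
  rcases P.core A ε τ δ hA hε hτpos hτε hδpos hδτ hδε n0 k1 (le_trans hn01 hn1k)
    (fun k hk => le_trans (hn1 k (le_trans hn1k hk)) hτ0τ) ya yb pa ma pb mb pz mz ha hb hz
    (fun k hk => by have h1 := (hta n0 le_rfl).2; have h2 := (hta k hk).1; linarith)
    (fun k hk => by have h1 := (htb n0 le_rfl).2; have h2 := (htb k hk).1; linarith)
    (fun k hk => by have h1 := (htz n0 le_rfl).2; have h2 := (htz k hk).1; linarith)
    (by linarith) (by linarith) hfar with ⟨p, m, h1, h2⟩ | ⟨p, m, h1, h2⟩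
  · rw [h12] at h1
    refine hyaG (j + 1) (k1 + 2) (P.tot (k1 + 2) p m) ?_ ⟨p, m, h1, le_refl (P.tot (k1 + 2) p m)⟩
    have h3 := (hta n0 le_rfl).2
    linarith
  · rw [h12] at h1
    refine hybG (j + 1) (k1 + 2) (P.tot (k1 + 2) p m) ?_ ⟨p, m, h1, le_refl (P.tot (k1 + 2) p m)⟩
    have h3 := (htb n0 le_rfl).2
    linarith

end Par

end Pool.Agent.MPff6db8
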